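import Pool.Agent.Lib.DI.Val
import Pool.Agent.Lib.DI.Iface
import Pool.Agent.Lib.FW.SpecFr

/-!
# Theorem DI, Part E (E1 - E6): elementary facts and the interface with Parts B and D

`BF` : the facts on `XC`, `YC` which Part B delivers. `DF` : the facts on reduction which Part D delivers.
Everything else in this file is proved.
-/

set_option autoImplicit false

open scoped Pointwise

noncomputable section

namespace Pool.Agent.DI.E

open Pool.Agent.MuZ Pool.Agent.FW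

/-! ## The ring `O` -/

theorem OO.ext' {a b : OO} (h1 : a.re = b.re) (h2 : a.im = b.im) : a = b := QuadraticAlgebra.ext h1 h2

theorem re_mul (v u : OO) : (v * u).re = v.re * u.re - 2 * v.im * u.im := by
  rw [QuadraticAlgebra.re_mul]
  ring

theorem im_mul (v u : OO) : (v * u).im = v.re * u.im + v.im * u.re + v.im * u.im := by
  rw [QuadraticAlgebra.im_mul]
  ring

theorem re_nat (n : ℕ) : ((n : OO)).re = n := by simp
theorem im_nat (n : ℕ) : ((n : OO)).im = 0 := by simp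
theorem re_int (n : ℤ) : ((n : OO)).re = n := by simp
theorem im_int (n : ℤ) : ((n : OO)).im = 0 := by simp

theorem Nm_mul (v u : OO) : Nm (v * u) = Nm v * Nm u := by
  unfold Nm
  rw [re_mul, im_mul]
  ring

theorem re_one : (1 : OO).re = 1 := QuadraticAlgebra.re_one

theorem im_one : (1 : OO).im = 0 := QuadraticAlgebra.im_one

theorem Nm_one : Nm 1 = 1 := by
  simp only [Nm, re_one, im_one]
  norm_num

theorem Nm_nat (n : ℕ) : Nm (n : OO) = (n : ℤ) ^ 2 := by simp [Nm]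

theorem Nm_int (n : ℤ) : Nm (n : OO) = n ^ 2 := by simp [Nm]

theorem Nm_neg (v : OO) : Nm (-v) = Nm v := by simp [Nm]

theorem four_Nm (v : OO) : 4 * Nm v = (2 * v.re + v.im) ^ 2 + 7 * v.im ^ 2 := by
  unfold Nm
  ring

theorem Nm_nonneg (v : OO) : 0 ≤ Nm v := by
  have := four_Nm v
  nlinarith [sq_nonneg (2 * v.re + v.im), sq_nonneg v.im]

theorem Nm_eq_zero {v : OO} (h : Nm v = 0) : v = 0 := by
  have h1 := four_Nm v
  rw [h] at h1
  have h2 : v.im ^ 2 = 0 := by nlinarith [sq_nonneg (2 * v.re + v.im), sq_nonneg v.im]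
  have h3 : v.im = 0 := by simpa using h2
  rw [h3] at h1
  have h4 : v.re ^ 2 = 0 := by nlinarith
  exact OO.ext' (by simpa using h4) h3

theorem Nm_pos {v : OO} (h : v ≠ 0) : 0 < Nm v :=
  lt_of_le_of_ne (Nm_nonneg v) fun h' => h (Nm_eq_zero h'.symm)

theorem mul_cjO (v : OO) : v * cjO v = (Nm v : OO) := by
  apply OO.ext'
  · rw [re_mul, re_int]
    simp only [cjO, Nm]
    ring
  · rw [im_mul, im_int]
    simp only [cjO]
    ring

theorem cjO_cjO (v : OO) : cjO (cjO v) = v := by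
  apply OO.ext' <;> simp [cjO]

theorem cjO_mul (v u : OO) : cjO (v * u) = cjO v * cjO u := by
  apply OO.ext'
  · simp only [cjO, re_mul, im_mul]
    ring
  · simp only [cjO, re_mul, im_mul]
    ring

theorem cjO_add (v u : OO) : cjO (v + u) = cjO v + cjO u := by
  apply OO.ext'
  · simp only [cjO, QuadraticAlgebra.re_add, QuadraticAlgebra.im_add]
    ring
  · simp only [cjO, QuadraticAlgebra.im_add]
    ring

theorem cjO_sub (v u : OO) : cjO (v - u) = cjO v - cjO u := by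
  apply OO.ext'
  · simp only [cjO, QuadraticAlgebra.re_sub, QuadraticAlgebra.im_sub]
    ring
  · simp only [cjO, QuadraticAlgebra.im_sub]
    ring

theorem cjO_neg (v : OO) : cjO (-v) = - cjO v := by
  apply OO.ext'
  · simp only [cjO, QuadraticAlgebra.re_neg, QuadraticAlgebra.im_neg]
    ring
  · simp only [cjO, QuadraticAlgebra.im_neg]

theorem cjO_nat (n : ℕ) : cjO (n : OO) = n := by
  apply OO.ext' <;> simp [cjO]

theorem cjO_int (n : ℤ) : cjO (n : OO) = n := by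
  apply OO.ext' <;> simp [cjO]

theorem Nm_cjO (v : OO) : Nm (cjO v) = Nm v := by
  simp only [cjO, Nm]
  ring

theorem dvd_cjO {v u : OO} (h : v ∣ u) : cjO v ∣ cjO u := by
  obtain ⟨w, rfl⟩ := h
  exact ⟨cjO w, cjO_mul v w⟩

theorem Nm_dvd {v u : OO} (h : v ∣ u) : Nm v ∣ Nm u := by
  obtain ⟨w, rfl⟩ := h
  exact ⟨Nm w, Nm_mul v w⟩

theorem nat_dvd_iff (n : ℕ) (v : OO) : (n : OO) ∣ v ↔ (n : ℤ) ∣ v.re ∧ (n : ℤ) ∣ v.im := by
  constructor
  · rintro ⟨w, rfl⟩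
    rw [re_mul, im_mul, re_nat, im_nat]
    exact ⟨⟨w.re, by ring⟩, ⟨w.im, by ring⟩⟩
  · rintro ⟨⟨x, hx⟩, ⟨y, hy⟩⟩
    refine ⟨⟨x, y⟩, OO.ext' ?_ ?_⟩
    · rw [re_mul, re_nat, im_nat, hx]
      ring
    · rw [im_mul, re_nat, im_nat, hy]
      ring

theorem Nm_congr {n : ℕ} {a b : OO} (h : (n : OO) ∣ a - b) : (n : ℤ) ∣ Nm a - Nm b := by
  obtain ⟨h1, h2⟩ := (nat_dvd_iff n _).1 h
  rw [QuadraticAlgebra.re_sub] at h1
  rw [QuadraticAlgebra.im_sub] at h2
  have e : Nm a - Nm b = (a.re - b.re) * (a.re + b.re + a.im) + (a.im - b.im) * (b.re + 2 * (a.im + b.im)) := by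
    unfold Nm
    ring
  rw [e]
  exact dvd_add (h1.mul_right _) (h2.mul_right _)

theorem cop_congr {n : ℕ} {a b : OO} (h : (n : OO) ∣ a - b) (ha : Cop a n) : Cop b n := by
  obtain ⟨c, hc⟩ := Nm_congr h
  unfold Cop at *
  have : Nm a = Nm b + n * c := by linarith
  rw [this] at ha
  exact (IsCoprime.add_mul_left_left_iff).1 ha

theorem cop_mul {n : ℕ} {a b : OO} (ha : Cop a n) (hb : Cop b n) : Cop (a * b) n := by
  unfold Cop at *
  rw [Nm_mul]
  exact ha.mul_left hb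

theorem cop_one (n : ℕ) : Cop 1 n := by
  unfold Cop
  rw [Nm_one]
  exact isCoprime_one_left

theorem cop_neg {n : ℕ} {a : OO} (ha : Cop a n) : Cop (-a) n := by
  unfold Cop at *
  rwa [Nm_neg]

theorem cop_cj {n : ℕ} {a : OO} (ha : Cop a n) : Cop (cjO a) n := by
  unfold Cop at *
  rwa [Nm_cjO]

theorem cop_dvd {n m : ℕ} {a : OO} (ha : Cop a n) (h : m ∣ n) : Cop a m := by
  unfold Cop at *
  exact ha.of_isCoprime_of_dvd_right (by exact_mod_cast h)

/-- An element prime to `n` is invertible modulo `n`. -/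
theorem cop_inv {n : ℕ} {a : OO} (ha : Cop a n) : ∃ b : OO, Cop b n ∧ (n : OO) ∣ a * b - 1 := by
  obtain ⟨x, y, hxy⟩ := ha
  refine ⟨cjO a * (x : OO), ?_, ?_⟩
  · refine cop_mul ?_ ?_
    · exact cop_cj ⟨x, y, hxy⟩
    · unfold Cop
      rw [Nm_int]
      refine IsCoprime.pow_left ⟨Nm a, y, ?_⟩
      linarith
  · refine ⟨-(y : OO), ?_⟩
    have e : a * (cjO a * (x : OO)) = (Nm a : OO) * x := by
      rw [← mul_assoc, mul_cjO]
    rw [e]
    have h2 : ((x * Nm a + y * n : ℤ) : OO) = 1 := by rw [hxy]; simp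
    push_cast at h2
    linear_combination h2

theorem eps_congr {n : ℕ} (h7 : 7 ∣ n) {a b : OO} (h : (n : OO) ∣ a - b) : eps a = eps b := by
  obtain ⟨h1, h2⟩ := (nat_dvd_iff n _).1 h
  rw [QuadraticAlgebra.re_sub] at h1
  rw [QuadraticAlgebra.im_sub] at h2
  have h7' : (7 : ℤ) ∣ n := by exact_mod_cast h7
  unfold eps
  rw [jacobiSym.mod_left (a.re + 4 * a.im) 7, jacobiSym.mod_left (b.re + 4 * b.im) 7]
  congr 1
  obtain ⟨x, hx⟩ := h7'.trans h1
  obtain ⟨y, hy⟩ := h7'.trans h2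
  push_cast
  omega

theorem eps_mul (a b : OO) : eps (a * b) = eps a * eps b := by
  unfold eps
  rw [← jacobiSym.mul_left, jacobiSym.mod_left, jacobiSym.mod_left ((a.re + 4 * a.im) * _), re_mul, im_mul]
  congr 1
  have e : (a.re + 4 * a.im) * (b.re + 4 * b.im) = (a.re * b.re - 2 * a.im * b.im +
      4 * (a.re * b.im + a.im * b.re + a.im * b.im)) + 7 * (2 * a.im * b.im) := by ring
  rw [e]
  push_cast
  omega

theorem eps_one : eps 1 = 1 := by
  unfold eps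
  rw [re_one, im_one]
  exact jacobiSym.one_left 7

theorem eps_neg (a : OO) : eps (-a) = - eps a := by
  have h : eps (-1 : OO) = -1 := by
    unfold eps
    have : ((-1 : OO).re + 4 * (-1 : OO).im) = -1 := by
      rw [QuadraticAlgebra.re_neg, QuadraticAlgebra.im_neg, re_one, im_one]
      norm_num
    rw [this]
    norm_num
  have h2 : -a = (-1 : OO) * a := by ring
  rw [h2, eps_mul, h]
  ring

/-! ## The embeddings -/

theorem toC_inj : Function.Injective toC := by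
  intro u v h
  rw [toC_apply, toC_apply] at h
  have hs : 0 < √(7 : ℝ) := Real.sqrt_pos.2 (by norm_num)
  have h1 := congrArg Complex.im h
  have h2 := congrArg Complex.re h
  simp only [wC, Complex.add_im, Complex.intCast_im, Complex.mul_im, Complex.intCast_re, zero_mul,
    add_zero, zero_add] at h1
  simp only [wC, Complex.add_re, Complex.intCast_re, Complex.mul_re, Complex.intCast_im, zero_mul,
    sub_zero] at h2
  have h3 : (u.im : ℝ) = v.im := mul_right_cancel₀ (by positivity) h1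
  have h4 : u.im = v.im := by exact_mod_cast h3
  rw [h4] at h2
  have h5 : (u.re : ℝ) = v.re := by linarith
  exact OO.ext' (by exact_mod_cast h5) h4

theorem toO_inj : Function.Injective toO := by
  intro u v h
  apply toC_inj
  rw [← io_toO, ← io_toO, h]

theorem toC_ne {v : OO} (h : v ≠ 0) : toC v ≠ 0 := fun h1 => h (toC_inj (by rw [h1, map_zero]))

theorem toO_ne {v : OO} (h : v ≠ 0) : toO v ≠ 0 := fun h1 => h (toO_inj (by rw [h1, map_zero]))

theorem toC_pO : toC pO = wC := by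
  rw [toC_apply]
  simp [pO]

theorem toC_pbO : toC pbO = 1 - wC := by
  rw [toC_apply]
  simp [pbO]
  ring

theorem toO_pO : toO pO = wO := by
  apply io_inj
  rw [io_toO, toC_pO, io_wO]

theorem toO_pbO : toO pbO = 1 - wO := by
  apply io_inj
  rw [io_toO, toC_pbO, map_sub, map_one, io_wO]

theorem s7_sq : s7 * s7 = ((-7 : ℤ) : OO) := by
  apply OO.ext'
  · rw [re_mul, re_int]
    simp [s7]
  · rw [im_mul, im_int]
    simp [s7]

theorem conj_wC : (starRingEnd ℂ) wC = 1 - wC := by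
  apply Complex.ext
  · simp only [wC, Complex.conj_re, Complex.sub_re, Complex.one_re]
    norm_num
  · simp only [wC, Complex.conj_im, Complex.sub_im, Complex.one_im]
    norm_num

theorem conj_toC (v : OO) : (starRingEnd ℂ) (toC v) = toC (cjO v) := by
  rw [toC_apply, toC_apply, map_add, map_mul, conj_wC, map_intCast, map_intCast]
  simp only [cjO]
  push_cast
  ring

/-! ## The lattice -/

theorem lat_zero : Lat 0 := ⟨0, by rw [map_zero]⟩

theorem lat_toC (v : OO) : Lat (toC v) := ⟨v, rfl⟩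

theorem lat_add {z z' : ℂ} (h : Lat z) (h' : Lat z') : Lat (z + z') := by
  obtain ⟨v, rfl⟩ := h
  obtain ⟨u, rfl⟩ := h'
  exact ⟨v + u, by rw [map_add]⟩

theorem lat_neg {z : ℂ} (h : Lat z) : Lat (-z) := by
  obtain ⟨v, rfl⟩ := h
  exact ⟨-v, by rw [map_neg]⟩

theorem lat_sub {z z' : ℂ} (h : Lat z) (h' : Lat z') : Lat (z - z') := by
  rw [sub_eq_add_neg]
  exact lat_add h (lat_neg h')

theorem lat_neg_iff {z : ℂ} : Lat (-z) ↔ Lat z :=
  ⟨fun h => by rw [← neg_neg z]; exact lat_neg h, lat_neg⟩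

theorem lat_mul {z : ℂ} (v : OO) (h : Lat z) : Lat (toC v * z) := by
  obtain ⟨u, rfl⟩ := h
  exact ⟨v * u, by rw [map_mul]⟩

theorem lat_add_left_iff {z z' : ℂ} (h : Lat z) : Lat (z + z') ↔ Lat z' :=
  ⟨fun h' => by rw [← add_sub_cancel_left z z']; exact lat_sub h' h, fun h' => lat_add h h'⟩

theorem lat_sub_left_iff {z z' : ℂ} (h : Lat (z - z')) : Lat z ↔ Lat z' :=
  ⟨fun h' => by rw [← sub_sub_cancel z z']; exact lat_sub h' h,
    fun h' => by rw [← sub_add_cancel z z']; exact lat_add h h'⟩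

theorem lat_div_iff {N : ℕ} (hN : 0 < N) (v : OO) : Lat (toC v / N) ↔ (N : OO) ∣ v := by
  have hN' : (N : ℂ) ≠ 0 := by exact_mod_cast hN.ne'
  constructor
  · rintro ⟨u, hu⟩
    refine ⟨u, toC_inj ?_⟩
    rw [map_mul, ← hu, map_natCast]
    field_simp
  · rintro ⟨u, rfl⟩
    refine ⟨u, ?_⟩
    rw [map_mul, map_natCast]
    field_simp

theorem tor_zero : Tor 0 := ⟨0, 1, one_pos, by simp⟩

theorem tor_div {N : ℕ} (hN : 0 < N) (v : OO) : Tor (toC v / N) := ⟨v, N, hN, rfl⟩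

theorem tor_add {z z' : ℂ} (h : Tor z) (h' : Tor z') : Tor (z + z') := by
  obtain ⟨v, n, hn, rfl⟩ := h
  obtain ⟨u, m, hm, rfl⟩ := h'
  have hn' : (n : ℂ) ≠ 0 := by exact_mod_cast hn.ne'
  have hm' : (m : ℂ) ≠ 0 := by exact_mod_cast hm.ne'
  refine ⟨v * m + u * n, n * m, Nat.mul_pos hn hm, ?_⟩
  rw [map_add, map_mul, map_mul, map_natCast, map_natCast]
  push_cast
  field_simp

theorem tor_neg {z : ℂ} (h : Tor z) : Tor (-z) := by
  obtain ⟨v, n, hn, rfl⟩ := h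
  exact ⟨-v, n, hn, by rw [map_neg, neg_div]⟩

theorem tor_sub {z z' : ℂ} (h : Tor z) (h' : Tor z') : Tor (z - z') := by
  rw [sub_eq_add_neg]
  exact tor_add h (tor_neg h')

theorem tor_mul {z : ℂ} (v : OO) (h : Tor z) : Tor (toC v * z) := by
  obtain ⟨u, n, hn, rfl⟩ := h
  exact ⟨v * u, n, hn, by rw [map_mul]; ring⟩

/-- `z` killed by `δ ≠ 0` is a torsion point, with the denominator `Nm δ`. -/
theorem eq_div_of_Lat {δ : OO} (hδ : δ ≠ 0) {z : ℂ} (h : Lat (toC δ * z)) :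
    ∃ v : OO, z = toC v / ((Nm δ).toNat : ℕ) := by
  obtain ⟨u, hu⟩ := h
  have h1 : toC δ ≠ 0 := toC_ne hδ
  have h2 : ((Nm δ).toNat : ℂ) = toC δ * toC (cjO δ) := by
    rw [← map_mul, mul_cjO, map_intCast]
    have : ((Nm δ).toNat : ℤ) = Nm δ := Int.toNat_of_nonneg (Nm_nonneg δ)
    exact_mod_cast this
  refine ⟨cjO δ * u, ?_⟩
  have h3 : toC (cjO δ) ≠ 0 := by
    intro h0
    have := toC_inj (h0.trans (map_zero toC).symm)
    apply hδ
    rw [← cjO_cjO δ, this]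
    apply OO.ext' <;> simp [cjO]
  rw [h2, map_mul, ← hu]
  field_simp

theorem tor_of_lat {δ : OO} (hδ : δ ≠ 0) {z : ℂ} (h : Lat (toC δ * z)) : Tor z := by
  obtain ⟨v, hv⟩ := eq_div_of_Lat hδ h
  refine ⟨v, _, ?_, hv⟩
  have := Nm_pos hδ
  omega

/-! ## `GK` -/

theorem mem_GK_iff {τ : Gal(Om/ℚ)} : τ ∈ GK ↔ τ wO = wO := by
  unfold GK KQ
  constructor
  · intro h
    exact h ⟨wO, IntermediateField.mem_adjoin_simple_self ℚ wO⟩
  · intro h
    rw [IntermediateField.mem_fixingSubgroup_iff]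
    intro x hx
    exact IntermediateField.adjoin_induction (F := ℚ) (E := Om)
      (p := fun x _ => τ x = x) (by rintro y rfl; exact h) (fun r => τ.commutes r)
      (fun x y _ _ h1 h2 => by rw [map_add, h1, h2]) (fun x _ h1 => by rw [map_inv₀, h1])
      (fun x y _ _ h1 h2 => by rw [map_mul, h1, h2]) hx

theorem GK_toO {τ : Gal(Om/ℚ)} (hτ : τ ∈ GK) (v : OO) : τ (toO v) = toO v := by
  change τ ((v.re : Om) + v.im * wO) = v.re + v.im * wO
  rw [map_add, map_mul, mem_GK_iff.1 hτ, map_intCast, map_intCast]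

/-! ## `Psi` -/

theorem psi_mul {τ τ' : Gal(Om/ℚ)} {N : ℕ} {a a' : OO} (h : Psi τ N a) (h' : Psi τ' N a') :
    Psi (τ * τ') N (a * a') := by
  refine ⟨cop_mul h.1 h'.1, fun v => ⟨?_, ?_⟩⟩
  · rw [AlgEquiv.mul_apply, (h'.2 v).1, (h.2 _).1, mul_assoc]
  · rw [AlgEquiv.mul_apply, (h'.2 v).2, (h.2 _).2, mul_assoc]

theorem psi_one (N : ℕ) : Psi 1 N 1 := by
  refine ⟨cop_one N, fun v => ⟨?_, ?_⟩⟩ <;> rw [one_mul] <;> rfl

/-! ## Input from Part B -/

/-- The slope of the chord. -/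
def lam (z z' : ℂ) : ℂ := (YC z - YC z') / (XC z - XC z')

/-- The slope of the tangent. -/
def lamT (z : ℂ) : ℂ := (3 * XC z ^ 2 - 2 * XC z - 2 - YC z) / (2 * YC z + XC z)

/-- **The facts on `X` and `Y`** (delivered by Part B). -/
structure BF : Prop where
  per : ∀ (z : ℂ) (v : OO), XC (z + toC v) = XC z ∧ YC (z + toC v) = YC z
  neg : ∀ z : ℂ, XC (-z) = XC z ∧ YC (-z) = - YC z - XC z
  eqn : ∀ z : ℂ, ¬ Lat z → YC z ^ 2 + XC z * YC z = XC z ^ 3 - XC z ^ 2 - 2 * XC z - 1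
  inj : ∀ z z' : ℂ, ¬ Lat z → ¬ Lat z' → XC z = XC z' → Lat (z - z') ∨ Lat (z + z')
  two : ∀ z : ℂ, ¬ Lat z → 2 * YC z + XC z = 0 → Lat (2 * z)
  add : ∀ z z' : ℂ, ¬ Lat z → ¬ Lat z' → ¬ Lat (z - z') → ¬ Lat (z + z') →
    XC (z + z') = lam z z' ^ 2 + lam z z' + 1 - XC z - XC z' ∧
      YC (z + z') = - (lam z z' * (XC (z + z') - XC z) + YC z) - XC (z + z')
  dbl : ∀ z : ℂ, ¬ Lat (2 * z) →
    XC (2 * z) = lamT z ^ 2 + lamT z + 1 - 2 * XC z ∧
      YC (2 * z) = - (lamT z * (XC (2 * z) - XC z) + YC z) - XC (2 * z)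
  sur : ∀ x y : ℂ, y ^ 2 + x * y = x ^ 3 - x ^ 2 - 2 * x - 1 →
    ∃ z : ℂ, ¬ Lat z ∧ XC z = x ∧ YC z = y
  pi : ∀ z : ℂ, ¬ Lat (wC * z) →
    XC (wC * z) * (wC ^ 2 * XC z - (1 - wC)) = XC z ^ 2 - wC ∧
      YC (wC * z) * (wC ^ 2 * XC z - (1 - wC)) ^ 2 =
        YC z * (wC * XC z ^ 2 - (1 - wC) ^ 2 * XC z + wC ^ 2) + XC z ^ 3 + XC z ^ 2 - 2 * XC z - 1
  piL : ∀ z : ℂ, ¬ Lat z → (wC ^ 2 * XC z = 1 - wC ↔ Lat (wC * z))
  alg : ∀ z : ℂ, Tor z → IsAlgebraic ℚ (XC z) ∧ IsAlgebraic ℚ (YC z)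
  sev : ∃ s : ℤ, (s = 1 ∨ s = -1) ∧ ∀ v : OO, ¬ s7 ∣ v →
    2 * YC (toC v / toC s7) + XC (toC v / toC s7) = s * eps v * toC s7 * XC (toC v / toC s7) ∧
      XC (toC v / toC s7) ≠ 0
  cj : ∃ s : ℤ, (s = 1 ∨ s = -1) ∧ (starRingEnd ℂ) OmC = s * OmC ∧
    ∀ z : ℂ, (starRingEnd ℂ) (XC z) = XC ((starRingEnd ℂ) z) ∧
      (starRingEnd ℂ) (YC z) = YC (s * (starRingEnd ℂ) z)

/-! ## Input from Part D -/

open Classical in
/-- The coordinate used at the prime `Q`. -/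
def kx (Q : Ideal ZZ) (z : ℂ) : Om := if (2 : ZZ) ∈ Q then xO z else zO z

/-- **The facts on the reduction** (delivered by Part D). -/
structure DF : Prop where
  int : ∀ Q : Ideal ZZ, Q.IsPrime → Q ≠ ⊥ → ∀ (δ : OO) (z : ℂ), ¬ MP Q (toO δ) →
    Lat (toC δ * z) → ¬ Lat z → VP Q (kx Q z)
  sep : ∀ Q : Ideal ZZ, Q.IsPrime → Q ≠ ⊥ → ∀ (δ : OO) (z z' : ℂ), ¬ MP Q (toO δ) →
    Lat (toC δ * z) → ¬ Lat z → Lat (toC δ * z') → ¬ Lat z' → MP Q (kx Q z - kx Q z') →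
    Lat (z + z') ∨ Lat (z - z')
  frob : ∀ Q : Ideal ZZ, Q.IsPrime → Q ≠ ⊥ → ∀ (δ : OO) (z : ℂ), ¬ MP Q (toO δ) →
    Lat (toC δ * z) → ¬ Lat z → ∀ (la : OO) (l : ℕ), l.Prime → l ≠ 2 → l ≠ 7 → Nm la = l →
    MP Q (toO la) → MP Q (zO (toC la * z) - zO z ^ l)
  frobPi : ∀ Q : Ideal ZZ, Q.IsPrime → Q ≠ ⊥ → ∀ (δ : OO) (z : ℂ), ¬ MP Q (toO δ) →
    Lat (toC δ * z) → ¬ Lat z → ∀ la : OO, la = pO ∨ la = pbO →
    MP Q (toO la) → MP Q (xO (toC la * z) - xO z ^ 2)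

/-! ## Consequences of periodicity -/

theorem BF.X_eq (B : BF) {z z' : ℂ} (h : Lat (z - z')) : XC z = XC z' ∧ YC z = YC z' := by
  obtain ⟨v, hv⟩ := h
  have : z = z' + toC v := by rw [← hv]; ring
  rw [this]
  exact B.per z' v

theorem BF.x_eq (B : BF) {z z' : ℂ} (h : Lat (z - z')) : xO z = xO z' ∧ yO z = yO z' := by
  obtain ⟨h1, h2⟩ := B.X_eq h
  exact ⟨by unfold xO; rw [h1], by unfold yO; rw [h2]⟩

theorem BF.x_neg (B : BF) (z : ℂ) : xO (-z) = xO z := by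
  unfold xO
  rw [(B.neg z).1]

theorem BF.io_x (B : BF) {z : ℂ} (hz : Tor z) : io (xO z) = XC z ∧ io (yO z) = YC z :=
  ⟨io_ofC _ (B.alg z hz).1, io_ofC _ (B.alg z hz).2⟩

theorem BF.y_neg (B : BF) {z : ℂ} (hz : Tor z) : yO (-z) = - yO z - xO z := by
  apply io_inj
  rw [map_sub, map_neg, (B.io_x hz).1, (B.io_x hz).2, (B.io_x (tor_neg hz)).2]
  exact (B.neg z).2

theorem toC_sub_div_Lat {N : ℕ} (hN : 0 < N) {a b : OO} (h : (N : OO) ∣ a - b) :
    Lat (toC a / N - toC b / N) := by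
  rw [← sub_div, ← map_sub]
  exact (lat_div_iff hN _).2 h

theorem psi_congr (B : BF) {τ : Gal(Om/ℚ)} {N : ℕ} (hN : 0 < N) {a b : OO} (h : (N : OO) ∣ a - b)
    (ha : Psi τ N a) : Psi τ N b := by
  refine ⟨cop_congr h ha.1, fun v => ?_⟩
  have h1 : (N : OO) ∣ a * v - b * v := by
    rw [← sub_mul]
    exact h.mul_right v
  obtain ⟨h2, h3⟩ := B.x_eq (toC_sub_div_Lat hN h1)
  rw [← h2, ← h3]
  exact ha.2 v

theorem psi_level {τ : Gal(Om/ℚ)} {N M : ℕ} (hN : 0 < N) (h : M ∣ N) {a : OO} (ha : Psi τ N a) :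
    Psi τ M a := by
  refine ⟨cop_dvd ha.1 h, fun v => ?_⟩
  obtain ⟨k, rfl⟩ := h
  have hk : (k : ℂ) ≠ 0 := by
    have : k ≠ 0 := by
      rintro rfl
      simp at hN
    exact_mod_cast this
  have hM : (M : ℂ) ≠ 0 := by
    have : M ≠ 0 := by
      rintro rfl
      simp at hN
    exact_mod_cast this
  have e : ∀ u : OO, toC (u * (k : OO)) / ((M * k : ℕ) : ℂ) = toC u / M := by
    intro u
    rw [map_mul, map_natCast]
    push_cast
    field_simp
  have h1 := ha.2 (v * (k : OO))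
  rw [← mul_assoc, e, e] at h1
  exact h1

end Pool.Agent.DI.E
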