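import Pool.Agent.Lib.DI.E.SpecE

/-!
# THEOREM DI, Part E: `FixH` is abelian over `K` (helper17)
-/

set_option autoImplicit false

open scoped Pointwise

noncomputable section

namespace Pool.Agent.DI.E

open Pool.Agent.MuZ Pool.Agent.FW

private theorem Ab8_inv (hE : Ex) (hU : Uq) {N : ℕ} (hN : 0 < N) {τ : Gal(Om/ℚ)} (hτ : τ ∈ GK)
    {t : OO} (ht : Psi τ N t) : ∃ t' : OO, Psi τ⁻¹ N t' ∧ (N : OO) ∣ t' * t - 1 := by
  obtain ⟨t', ht'⟩ := hE τ⁻¹ (inv_mem hτ) N hN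
  refine ⟨t', ht', ?_⟩
  have h1 := psi_mul ht' ht
  rw [inv_mul_cancel] at h1
  exact hU 1 N _ _ hN h1 (psi_one N)

theorem eAb8 : S_Ab8 := by
  intro _ hE hU N H hN hm _ hper hmul
  have hcong : ∀ a b : OO, H a → (N : OO) ∣ b - a → H b := by
    intro a b ha hab
    obtain ⟨u, hu⟩ := hab
    have h1 := hper a u ha
    rw [← hu] at h1
    have e : a + (b - a) = b := by ring
    rwa [e] at h1
  have h1 : H 1 := by
    have h := hmul _ _ hm hm
    have e : (-1 : OO) * -1 = 1 := by ring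
    rwa [e] at h
  have h3 : ∀ τ ∈ GK, ∀ τ' ∈ GK, ∀ a a' h : OO, Psi τ N a → Psi τ' N a' → H h →
      (N : OO) ∣ a - h * a' → ∀ x ∈ FixH N H, τ x = τ' x := by
    intro τ hτ τ' hτ' a a' h ha ha' hh hd x hx
    obtain ⟨b, hb, hbd⟩ := Ab8_inv hE hU hN hτ' ha'
    have h4 : H (b * a) := by
      refine hcong h _ hh ?_
      have h5 := dvd_add (hd.mul_left b) (hbd.mul_left h)
      have e : b * (a - h * a') + h * (b * a' - 1) = b * a - h := by ring
      rwa [e] at h5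
    have h5 := hx (τ'⁻¹ * τ) (mul_mem (inv_mem hτ') hτ) _ (psi_mul hb ha) h4
    have h6 := congrArg τ' h5
    rwa [← AlgEquiv.mul_apply, mul_inv_cancel_left] at h6
  refine ⟨?_, ?_, h3⟩
  · intro τ hτ x hx σ hσ a ha hHa
    obtain ⟨t, ht⟩ := hE τ hτ N hN
    obtain ⟨t', ht', htd⟩ := Ab8_inv hE hU hN hτ ht
    have h4 : H (t' * (a * t)) := by
      refine hcong a _ hHa ?_
      have h5 := htd.mul_left a
      have e : a * (t' * t - 1) = t' * (a * t) - a := by ring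
      rwa [e] at h5
    have h5 := hx (τ⁻¹ * (σ * τ)) (mul_mem (inv_mem hτ) (mul_mem hσ hτ)) _
      (psi_mul ht' (psi_mul ha ht)) h4
    have h6 := congrArg τ h5
    rwa [← AlgEquiv.mul_apply, mul_inv_cancel_left, AlgEquiv.mul_apply] at h6
  · intro τ hτ τ' hτ' x hx
    obtain ⟨a, ha⟩ := hE τ hτ N hN
    obtain ⟨a', ha'⟩ := hE τ' hτ' N hN
    have h4 := h3 (τ * τ') (mul_mem hτ hτ') (τ' * τ) (mul_mem hτ' hτ) _ _ 1 (psi_mul ha ha')
      (psi_mul ha' ha) h1 ⟨0, by ring⟩ x hx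
    exact h4

end Pool.Agent.DI.E
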