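import Pool.Agent.Lib.DI.E.SpecE

set_option autoImplicit false

open scoped Pointwise

noncomputable section

namespace Pool.Agent.DI.E

open Pool.Agent.MuZ Pool.Agent.FW

section cj

variable {c : Gal(Om/ℚ)} (hc : ∀ x : Om, io (c x) = (starRingEnd ℂ) (io x))

include hc

private lemma cj_cc (x : Om) : c (c x) = x := by
  apply io_inj
  rw [hc, hc, Complex.conj_conj]

private lemma cj_inv : c⁻¹ = c := by
  have h : c * c = 1 := AlgEquiv.ext fun x => cj_cc hc x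
  exact inv_eq_of_mul_eq_one_left h

private lemma cj_w : c wO = 1 - wO := by
  apply io_inj
  rw [hc, io_wO, conj_wC, map_sub, map_one, io_wO]

omit hc in
private lemma cj_conj (v : OO) (N : ℕ) : (starRingEnd ℂ) (toC v / N) = toC (cjO v) / N := by
  rw [map_div₀, conj_toC, map_natCast]

private lemma cj_x (B : BF) (hX : ∀ z : ℂ, (starRingEnd ℂ) (XC z) = XC ((starRingEnd ℂ) z))
    {N : ℕ} (hN : 0 < N) (v : OO) :
    c (xO (toC v / N)) = xO (toC (cjO v) / N) := by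
  apply io_inj
  rw [hc, (B.io_x (tor_div hN v)).1, (B.io_x (tor_div hN (cjO v))).1, hX, cj_conj]

private lemma cj_y (B : BF) {s : ℤ}
    (hY : ∀ z : ℂ, (starRingEnd ℂ) (YC z) = YC (s * (starRingEnd ℂ) z))
    {N : ℕ} (hN : 0 < N) (v : OO) :
    c (yO (toC v / N)) = yO (toC ((s : OO) * cjO v) / N) := by
  apply io_inj
  rw [hc, (B.io_x (tor_div hN v)).2, (B.io_x (tor_div hN ((s : OO) * cjO v))).2, hY, cj_conj,
    map_mul, map_intCast, mul_div_assoc]

private lemma cj_psi (B : BF) {τ : Gal(Om/ℚ)} {N : ℕ} (hN : 0 < N) {a : OO} (ha : Psi τ N a) :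
    Psi (c * τ * c⁻¹) N (cjO a) := by
  obtain ⟨s, hs, _, hcj⟩ := B.cj
  have hx := fun v => cj_x hc B (fun z => (hcj z).1) hN v
  have hy := fun v => cj_y hc B (fun z => (hcj z).2) hN v
  refine ⟨cop_cj ha.1, fun v => ⟨?_, ?_⟩⟩
  · rw [cj_inv hc, AlgEquiv.mul_apply, AlgEquiv.mul_apply, hx, (ha.2 _).1, hx, cjO_mul, cjO_cjO]
  · rw [cj_inv hc, AlgEquiv.mul_apply, AlgEquiv.mul_apply, hy, (ha.2 _).2, hy]
    congr 3
    rw [cjO_mul, cjO_mul, cjO_cjO, cjO_int]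
    have h2 : (s : OO) * (s : OO) = 1 := by
      rcases hs with rfl | rfl <;> simp
    linear_combination (cjO a * v) * h2

private lemma cj_GK {τ : Gal(Om/ℚ)} (hτ : τ ∈ GK) : c * τ * c⁻¹ ∈ GK := by
  rw [mem_GK_iff, cj_inv hc, AlgEquiv.mul_apply, AlgEquiv.mul_apply, cj_w hc, map_sub, map_one,
    mem_GK_iff.1 hτ, map_sub, map_one, cj_w hc, sub_sub_cancel]

private lemma cj_or (g : Gal(Om/ℚ)) : g ∈ GK ∨ c * g ∈ GK := by
  have h1 : (g wO) ^ 2 = g wO - 2 := by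
    rw [← map_pow, wO_sq, map_sub, map_ofNat]
  have h2 : (g wO - wO) * (g wO - (1 - wO)) = 0 := by
    linear_combination h1 - wO_sq
  rcases mul_eq_zero.1 h2 with h | h
  · left
    rw [mem_GK_iff]
    exact sub_eq_zero.1 h
  · right
    rw [mem_GK_iff, AlgEquiv.mul_apply, sub_eq_zero.1 h, map_sub, map_one, cj_w hc,
      sub_sub_cancel]

private lemma cj_fix (B : BF) {N : ℕ} (hN : 0 < N) {H : OO → Prop}
    (hH : ∀ v, H v → H (cjO v)) {x : Om} (hx : x ∈ FixH N H) : c x ∈ FixH N H := by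
  intro τ hτ a ha h
  have h1 := hx _ (cj_GK hc hτ) _ (cj_psi hc B hN ha) (hH a h)
  rw [cj_inv hc, AlgEquiv.mul_apply, AlgEquiv.mul_apply] at h1
  have h2 := congrArg c h1
  rwa [cj_cc hc] at h2

end cj

theorem eCj9 : S_Cj9 := by
  intro hAb B hEx hUq c hc
  refine ⟨fun τ hτ => ⟨cj_GK hc hτ, fun N a hN ha => cj_psi hc B hN ha⟩, cj_or hc, ?_⟩
  intro N H hN h1 h2 h3 h4 h5 g x hx
  rcases cj_or hc g with hg | hg
  · exact (hAb B hEx hUq N H hN h1 h2 h3 h4).1 g hg x hx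
  · have h6 := (hAb B hEx hUq N H hN h1 h2 h3 h4).1 _ hg x hx
    have h7 := cj_fix hc B hN h5 h6
    rwa [AlgEquiv.mul_apply, cj_cc hc] at h7

end Pool.Agent.DI.E
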