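import Pool.Agent.Lib.DI.E.SpecE

/-!
# THEOREM DI, Part E, module Cyc6: the cyclotomic character
-/

set_option autoImplicit false

open scoped Pointwise

noncomputable section

namespace Pool.Agent.DI.E

open Pool.Agent.MuZ Pool.Agent.FW

private theorem Cyc6_pow {N : ℕ} {ζ : Om} (hζ : ζ ^ N = 1) (hN : 0 < N) {a b : OO}
    (h : (N : OO) ∣ a - b) : ζ ^ (Nm a).toNat = ζ ^ (Nm b).toNat := by
  have h0 : ζ ≠ 0 := by
    rintro rfl
    rw [zero_pow hN.ne'] at hζ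
    exact zero_ne_one hζ
  obtain ⟨k, hk⟩ := Nm_congr h
  have e : ∀ c : OO, ζ ^ (Nm c).toNat = ζ ^ (Nm c : ℤ) := by
    intro c
    rw [← zpow_natCast, Int.toNat_of_nonneg (Nm_nonneg c)]
  rw [e, e, show Nm a = Nm b + N * k by linarith, zpow_add₀ h0, zpow_mul, zpow_natCast, hζ,
    one_zpow, mul_one]

private theorem Cyc6_powN {N : ℕ} {ζ : Om} (hζ : ζ ^ N = 1) (k : ℕ) : (ζ ^ k) ^ N = 1 := by
  rw [← pow_mul, mul_comm, pow_mul, hζ, one_pow]

/-- The condition of the subgroup. -/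
private def Cyc6_C (N : ℕ) (τ : Gal(Om/ℚ)) : Prop :=
  ∀ a : OO, Psi τ N a → ∀ ζ : Om, ζ ^ N = 1 → τ ζ = ζ ^ (Nm a).toNat

private theorem Cyc6_one {N : ℕ} (hN : 0 < N) (U : Uq) {τ : Gal(Om/ℚ)} {a : OO}
    (ha : Psi τ N a) (h : ∀ ζ : Om, ζ ^ N = 1 → τ ζ = ζ ^ (Nm a).toNat) : Cyc6_C N τ := by
  intro b hb ζ hζ
  rw [h ζ hζ]
  exact Cyc6_pow hζ hN (U τ N a b hN ha hb)

/-- The subgroup. -/
private def Cyc6_H {N : ℕ} (hN : 0 < N) (E : Ex) (U : Uq) : Subgroup Gal(Om/ℚ) where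
  carrier := {τ | τ ∈ GK ∧ Cyc6_C N τ}
  one_mem' := ⟨one_mem _, Cyc6_one hN U (psi_one N) fun ζ _ => by
    rw [Nm_one, AlgEquiv.one_apply]
    simp⟩
  mul_mem' := by
    rintro σ τ ⟨h1, h2⟩ ⟨h3, h4⟩
    refine ⟨mul_mem h1 h3, ?_⟩
    obtain ⟨a, ha⟩ := E σ h1 N hN
    obtain ⟨b, hb⟩ := E τ h3 N hN
    refine Cyc6_one hN U (psi_mul ha hb) fun ζ hζ => ?_
    rw [AlgEquiv.mul_apply, h4 b hb ζ hζ, map_pow, h2 a ha ζ hζ, ← pow_mul, Nm_mul,
      Int.toNat_mul (Nm_nonneg a) (Nm_nonneg b)]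
  inv_mem' := by
    rintro τ ⟨h1, h2⟩
    refine ⟨inv_mem h1, ?_⟩
    obtain ⟨a, ha⟩ := E τ h1 N hN
    obtain ⟨b, hb⟩ := E τ⁻¹ (inv_mem h1) N hN
    refine Cyc6_one hN U hb fun ζ hζ => ?_
    have h3 : Psi 1 N (a * b) := by
      have := psi_mul ha hb
      rwa [mul_inv_cancel] at this
    have h4 : (N : OO) ∣ a * b - 1 := U 1 N _ _ hN h3 (psi_one N)
    have h5 : τ (ζ ^ (Nm b).toNat) = ζ := by
      rw [h2 a ha _ (Cyc6_powN hζ _), ← pow_mul, mul_comm,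
        ← Int.toNat_mul (Nm_nonneg a) (Nm_nonneg b), ← Nm_mul, Cyc6_pow hζ hN h4, Nm_one]
      simp
    calc τ⁻¹ ζ = τ⁻¹ (τ (ζ ^ (Nm b).toNat)) := by rw [h5]
      _ = ζ ^ (Nm b).toNat := by
        rw [← AlgEquiv.mul_apply, inv_mul_cancel, AlgEquiv.one_apply]

private theorem Cyc6_frob {N l : ℕ} {Q : Ideal ZZ} (hQ : Q.IsPrime) (hl : (l : ZZ) ∈ Q)
    (hc : l.Coprime N) {x y : ZZ} (hx : x ^ N = 1) (hy : y ^ N = 1) (hN : 0 < N)
    (h : x - y ∈ Q) : x = y := by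
  by_contra hne
  obtain ⟨M, rfl⟩ : ∃ M, N = M + 1 := ⟨N - 1, by omega⟩
  set w : ZZ := x * y ^ M with hw
  have h1 : y * y ^ M = 1 := by
    rw [← pow_succ', hy]
  have hw1 : w - 1 ∈ Q := by
    have e : w - 1 = y ^ M * (x - y) := by
      rw [hw]
      linear_combination h1
    rw [e]
    exact Q.mul_mem_left _ h
  have hwN : w ^ (M + 1) = 1 := by
    rw [hw, mul_pow, hx, one_mul, ← pow_mul, mul_comm, pow_mul, hy, one_pow]
  have hwne : w ≠ 1 := by
    intro h2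
    apply hne
    have e : x = w * y := by
      rw [hw]
      linear_combination -x * h1
    rw [e, h2, one_mul]
  have hsum : ∑ i ∈ Finset.range (M + 1), w ^ i = 0 := by
    have h3 := geom_sum_mul w (M + 1)
    rw [hwN, sub_self] at h3
    rcases mul_eq_zero.1 h3 with h4 | h4
    · exact h4
    · exact absurd (sub_eq_zero.1 h4) hwne
  have h5 : ((M + 1 : ℕ) : ZZ) ∈ Q := by
    have h6 : ∑ i ∈ Finset.range (M + 1), (w ^ i - 1) ∈ Q := by
      refine Q.sum_mem fun i _ => ?_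
      have h7 : w - 1 ∣ w ^ i - 1 := by
        have := sub_dvd_pow_sub_pow w 1 i
        rwa [one_pow] at this
      exact Q.mem_of_dvd h7 hw1
    rw [Finset.sum_sub_distrib, hsum, zero_sub, Finset.sum_const, Finset.card_range,
      nsmul_eq_mul, mul_one] at h6
    have := Q.neg_mem h6
    rwa [neg_neg] at this
  apply hQ.one_notMem
  have h8 : IsCoprime (l : ℤ) ((M + 1 : ℕ) : ℤ) := by
    exact_mod_cast Nat.isCoprime_iff_coprime.2 hc
  obtain ⟨u, v, huv⟩ := h8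
  have h9 : ((u * (l : ℤ) + v * ((M + 1 : ℕ) : ℤ) : ℤ) : ZZ) = 1 := by
    rw [huv, Int.cast_one]
  rw [← h9]
  push_cast
  refine Q.add_mem (Q.mul_mem_left _ hl) (Q.mul_mem_left _ ?_)
  have := h5
  push_cast at this
  exact this

theorem eCyc6 : S_Cyc6 := by
  intro hOp hGen B E U hE2 τ0 hτ0 N a0 hN ha0
  have hle : GK ≤ Cyc6_H hN E U := by
    obtain ⟨O, hO⟩ := hOp B N hN
    refine hGen (Cyc6_H hN E U) O (14 * N) (fun τ h => h.1) ?_ ?_ (by omega) ?_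
    · rintro τ ⟨h1, h2⟩
      refine ⟨h1, Cyc6_one hN U (hO τ h2).1 fun ζ hζ => ?_⟩
      rw [(hO τ h2).2 ζ hζ, Nm_one]
      simp
    · rintro g hg h ⟨h1, h2⟩
      refine ⟨mul_mem (mul_mem hg h1) (inv_mem hg), ?_⟩
      obtain ⟨s, hs⟩ := E g hg N hN
      obtain ⟨a, ha⟩ := E h h1 N hN
      obtain ⟨s', hs'⟩ := E g⁻¹ (inv_mem hg) N hN
      have h3 : Psi 1 N (s * s') := by
        have := psi_mul hs hs'
        rwa [mul_inv_cancel] at this
      have h4 : (N : OO) ∣ s * s' - 1 := U 1 N _ _ hN h3 (psi_one N)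
      have h5 : (N : OO) ∣ s * a * s' - a := by
        have e : s * a * s' - a = a * (s * s' - 1) := by ring
        rw [e]
        exact h4.mul_left a
      refine Cyc6_one hN U (psi_mul (psi_mul hs ha) hs') fun ζ hζ => ?_
      rw [Cyc6_pow hζ hN h5]
      have h6 : (g⁻¹ ζ) ^ N = 1 := by rw [← map_pow, hζ, map_one]
      rw [AlgEquiv.mul_apply, AlgEquiv.mul_apply, h2 a ha _ h6, map_pow]
      congr 1
      rw [← AlgEquiv.mul_apply, mul_inv_cancel, AlgEquiv.one_apply]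
    · intro la l Q τ hl hlM hNm hQ hMP hlQ hτ hF
      have hl2 : l ≠ 2 := by
        rintro rfl
        exact hlM ⟨7 * N, by ring⟩
      have hl7 : l ≠ 7 := by
        rintro rfl
        exact hlM ⟨2 * N, by ring⟩
      have hlN : l.Coprime N := by
        rw [hl.coprime_iff_not_dvd]
        exact fun h => hlM (h.mul_left 14)
      have hroot : ∀ ζ : Om, ζ ^ N = 1 → τ ζ = ζ ^ l := by
        intro ζ hζ
        have hi : IsIntegral ℤ ζ := by
          refine IsIntegral.of_pow hN ?_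
          rw [hζ]
          exact isIntegral_one
        let z : ZZ := ⟨ζ, hi⟩
        have hz : z ^ N = 1 := Subtype.ext hζ
        have h1 : τ • z = z ^ l := by
          refine Cyc6_frob hQ.1 hlQ hlN ?_ ?_ hN (hF z)
          · rw [← smul_pow', hz, smul_one]
          · rw [← pow_mul, mul_comm, pow_mul, hz, one_pow]
        have h2 := congrArg (fun x : ZZ => (x : Om)) h1
        exact h2
      rcases hE2 la l hl hl2 hl7 hNm Q hQ hMP τ hτ hF N hN hlN with h | h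
      · refine ⟨hτ, Cyc6_one hN U h fun ζ hζ => ?_⟩
        rw [hNm, Int.toNat_natCast]
        exact hroot ζ hζ
      · refine ⟨hτ, Cyc6_one hN U h fun ζ hζ => ?_⟩
        rw [Nm_neg, hNm, Int.toNat_natCast]
        exact hroot ζ hζ
  exact (hle hτ0).2 a0 ha0

end Pool.Agent.DI.E
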