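import Pool.Agent.Lib.DI.E.SpecE

set_option autoImplicit false

/-!
# THEOREM DI, Part E, module Deg: degree one primes of `K`
-/

open scoped Pointwise nonZeroDivisors

noncomputable section

namespace Pool.Agent.DI.E

open Pool.Agent.MuZ Pool.Agent.FW NumberField IsDedekindDomain

private theorem Deg_int : IsIntegral ℤ wO := by
  refine ⟨Polynomial.X ^ 2 - Polynomial.X + Polynomial.C 2, ?_, ?_⟩
  · have h : (Polynomial.X ^ 2 - Polynomial.X + Polynomial.C 2 : Polynomial ℤ) =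
        Polynomial.X ^ 2 + (-Polynomial.X + Polynomial.C 2) := by ring
    rw [h]
    refine Polynomial.monic_X_pow_add ?_
    refine lt_of_le_of_lt (Polynomial.degree_add_le _ _) ?_
    rw [Polynomial.degree_neg, Polynomial.degree_X, Polynomial.degree_C (two_ne_zero)]
    decide
  · rw [← Polynomial.aeval_def]
    simp only [map_add, map_sub, map_pow, Polynomial.aeval_X, Polynomial.aeval_C, wO_sq]
    simp

private theorem Deg_toO (v : OO) : toO v = (v.re : Om) + (v.im : Om) * wO := rfl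

private theorem Deg_vp (Q : Ideal ZZ) [hQ : Q.IsPrime] (v : OO) : VP Q (toO v) := by
  rw [Deg_toO]
  exact (VP.int _).add ((VP.int _).mul (VP.integral Deg_int))

private theorem Deg_mem : wO ∈ KQ := IntermediateField.mem_adjoin_simple_self ℚ wO

theorem eDeg : S_Deg := by
  intro hPid hGcd _ Q l hQ hl hcard
  haveI hQp : Q.IsPrime := hQ.1
  haveI : Fact l.Prime := ⟨hl⟩
  haveI : Finite (𝓞 KQ ⧸ Q.comap (iO KQ)) := Nat.finite_of_card_ne_zero (by
    rw [hcard]
    exact hl.ne_zero)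
  haveI : Nontrivial (𝓞 KQ ⧸ Q.comap (iO KQ)) := by
    rw [← Finite.one_lt_card_iff_nontrivial, hcard]
    exact hl.one_lt
  -- `l ∈ Q`
  have hlQ : (l : ZZ) ∈ Q := by
    have h1 : l • (1 : 𝓞 KQ ⧸ Q.comap (iO KQ)) = 0 := by
      rw [← hcard]
      exact card_nsmul_eq_zero'
    have h2 : Ideal.Quotient.mk (Q.comap (iO KQ)) (l : 𝓞 KQ) = 0 := by
      rw [map_natCast, ← h1, nsmul_one]
    rw [Ideal.Quotient.eq_zero_iff_mem, Ideal.mem_comap, map_natCast] at h2
    exact h2
  -- the residue of `w`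
  have hwK : IsIntegral ℤ (⟨wO, Deg_mem⟩ : KQ) := by
    have h1 : Function.Injective (algebraMap KQ Om) := (algebraMap KQ Om).injective
    rw [← isIntegral_algebraMap_iff (R := ℤ) h1]
    exact Deg_int
  obtain ⟨n, hn⟩ : ∃ n : ℤ, MP Q (wO - n) := by
    let w : 𝓞 KQ := ⟨⟨wO, Deg_mem⟩, hwK⟩
    have h1 : Ideal.Quotient.mk (Q.comap (iO KQ)) w ∈
        AddSubgroup.zmultiples (1 : 𝓞 KQ ⧸ Q.comap (iO KQ)) := by
      rw [zmultiples_eq_top_of_prime_card hcard one_ne_zero]
      exact AddSubgroup.mem_top _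
    obtain ⟨n, hn⟩ := AddSubgroup.mem_zmultiples_iff.1 h1
    refine ⟨n, ?_⟩
    have h2 : Ideal.Quotient.mk (Q.comap (iO KQ)) (w - (n : 𝓞 KQ)) = 0 := by
      rw [map_sub, map_intCast, ← hn, zsmul_one, sub_self]
    rw [Ideal.Quotient.eq_zero_iff_mem, Ideal.mem_comap, map_sub, map_intCast] at h2
    have h3 := (MP.coe_iff (P := Q) _).2 h2
    exact h3
  -- the element `r`
  have hr : MP Q (toO (pO - (n : OO))) := by
    rw [map_sub, toO_pO, map_intCast]
    exact hn
  have hNr : (l : ℤ) ∣ Nm (pO - (n : OO)) := by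
    by_contra hcon
    have h1 : MP Q (toO ((pO - (n : OO)) * cjO (pO - (n : OO)))) := by
      rw [map_mul]
      exact hr.mul_right (Deg_vp Q _)
    rw [mul_cjO, map_intCast] at h1
    have h2 : ((Nm (pO - (n : OO)) : ℤ) : ZZ) ∈ Q := by
      rw [← MP.coe_iff]
      exact h1
    have h3 : IsCoprime (Nm (pO - (n : OO))) (l : ℤ) := by
      rw [isCoprime_comm]
      exact (Nat.prime_iff_prime_int.1 hl).coprime_iff_not_dvd.2 hcon
    obtain ⟨a, b, hab⟩ := h3
    have h4 : (1 : ZZ) ∈ Q := by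
      have h5 : (1 : ZZ) = (a : ZZ) * ((Nm (pO - (n : OO)) : ℤ) : ZZ) + (b : ZZ) * (l : ZZ) := by
        have h6 := congrArg (fun t : ℤ => (t : ZZ)) hab
        push_cast at h6
        exact h6.symm
      rw [h5]
      exact Q.add_mem (Q.mul_mem_left _ h2) (Q.mul_mem_left _ hlQ)
    exact hQp.one_notMem h4
  have hlr : ¬ (l : OO) ∣ pO - (n : OO) := by
    intro h
    have h1 := ((nat_dvd_iff l _).1 h).2
    have h2 : (pO - (n : OO)).im = 1 := by
      rw [QuadraticAlgebra.im_sub, im_int]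
      rfl
    rw [h2] at h1
    have h3 := hl.one_lt
    have h4 := Int.le_of_dvd one_pos h1
    omega
  obtain ⟨la, x, y, h1, _, _, h4⟩ := hGcd hPid _ l hl hNr hlr
  refine ⟨la, h1, ?_, hlQ⟩
  rw [h4, map_add, map_mul, map_mul, map_natCast]
  exact (((MP.nat_iff l).2 hlQ).mul_right (Deg_vp Q x)).add (hr.mul_right (Deg_vp Q y))

end Pool.Agent.DI.E
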