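import Pool.Agent.Lib.DI.E.SpecE

/-!
# Galois theory for `FixH` (`S_Fix8`)
-/

set_option autoImplicit false

open scoped Pointwise

noncomputable section

namespace Pool.Agent.DI.E

open Pool.Agent.MuZ Pool.Agent.FW

/-- The extension `Ω/ℚ` is Galois (for the default algebra structure). -/
private theorem Fix8_isGalois : IsGalois ℚ Om := by
  have h : @IsGalois ℚ _ Om _ (AlgebraicClosure.instAlgebra ℚ) :=
    @IsAlgClosure.isGalois ℚ Om _ _ (AlgebraicClosure.instAlgebra ℚ) _ _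
  have hA : (DivisionRing.toRatAlgebra : Algebra ℚ Om) = AlgebraicClosure.instAlgebra ℚ :=
    Subsingleton.elim _ _
  rw [hA]
  exact h

/-- `a` is invertible modulo `N`: some power of it is `1` modulo `N`. -/
private theorem Fix8_pow {N : ℕ} (hN : 0 < N) {a b : OO} (hab : (N : OO) ∣ a * b - 1) :
    ∃ k : ℕ, 0 < k ∧ (N : OO) ∣ a ^ k - 1 := by
  have : NeZero N := ⟨hN.ne'⟩
  obtain ⟨i, j, hij, hf⟩ := Finite.exists_ne_map_eq_of_infinite
    (fun n : ℕ => (((a ^ n).re : ZMod N), ((a ^ n).im : ZMod N)))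
  have key : ∀ i j : ℕ, i < j → (N : OO) ∣ a ^ i - a ^ j → ∃ k : ℕ, 0 < k ∧ (N : OO) ∣ a ^ k - 1 := by
    intro i j hij hd
    refine ⟨j - i, Nat.sub_pos_of_lt hij, ?_⟩
    have h1 : ∀ n : ℕ, (N : OO) ∣ a ^ n * b ^ n - 1 := by
      intro n
      induction n with
      | zero => simp
      | succ n ih =>
        have e : a ^ (n + 1) * b ^ (n + 1) - 1 = (a ^ n * b ^ n - 1) * (a * b) + (a * b - 1) := by ring
        rw [e]
        exact dvd_add (ih.mul_right _) hab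
    have e : a ^ (j - i) - 1 = (a ^ i * b ^ i - 1) * (1 - a ^ (j - i)) - (a ^ i - a ^ j) * b ^ i := by
      have h2 : a ^ j = a ^ i * a ^ (j - i) := by
        rw [← pow_add, Nat.add_sub_cancel' hij.le]
      rw [h2]
      ring
    rw [e]
    exact dvd_sub ((h1 i).mul_right _) (hd.mul_right _)
  have hd : (N : OO) ∣ a ^ i - a ^ j := by
    rw [nat_dvd_iff, QuadraticAlgebra.re_sub, QuadraticAlgebra.im_sub]
    simp only [Prod.mk.injEq] at hf
    constructor
    · rw [← ZMod.intCast_zmod_eq_zero_iff_dvd]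
      push_cast
      rw [hf.1, sub_self]
    · rw [← ZMod.intCast_zmod_eq_zero_iff_dvd]
      push_cast
      rw [hf.2, sub_self]
  rcases Nat.lt_or_gt_of_ne hij with h | h
  · exact key i j h hd
  · refine key j i h ?_
    rw [← neg_sub]
    exact (dvd_neg).2 hd

/-- **Galois theory for `FixH`.** -/
theorem eFix8 : S_Fix8 := by
  intro hKF hOp B hEx hUq N H hN hm1 hcop hper hmul
  have hGal : IsGalois ℚ Om := Fix8_isGalois
  obtain ⟨-, hGKo⟩ := hKF
  obtain ⟨O, hO⟩ := hOp B N hN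
  -- elementary facts on `H`
  have h1 : H 1 := by
    have := hmul _ _ hm1 hm1
    rwa [neg_one_mul, neg_neg] at this
  have hcg : ∀ {v v' : OO}, (N : OO) ∣ v - v' → H v' → H v := by
    rintro v v' ⟨u, hu⟩ h
    have : v = v' + N * u := by rw [← hu]; ring
    rw [this]
    exact hper _ _ h
  have hpw : ∀ {v : OO}, H v → ∀ n : ℕ, H (v ^ n) := by
    intro v hv n
    induction n with
    | zero => rw [pow_zero]; exact h1
    | succ n ih => rw [pow_succ]; exact hmul _ _ ih hv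
  have hinv : ∀ {a b : OO}, H a → (N : OO) ∣ a * b - 1 → H b := by
    intro a b ha hab
    obtain ⟨k, hk, hd⟩ := Fix8_pow hN hab
    obtain ⟨m, rfl⟩ : ∃ m, k = m + 1 := ⟨k - 1, by omega⟩
    refine hcg ?_ (hpw ha m)
    have e : b - a ^ m = (a * b - 1) * a ^ m - b * (a ^ (m + 1) - 1) := by ring
    rw [e]
    exact dvd_sub (hab.mul_right _) (hd.mul_left _)
  -- the subgroup `W`
  obtain ⟨W, hW⟩ : ∃ W : Subgroup Gal(Om/ℚ), ∀ σ, σ ∈ W ↔ σ ∈ GK ∧ ∀ a, Psi σ N a → H a := by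
    refine ⟨{ carrier := {σ | σ ∈ GK ∧ ∀ a, Psi σ N a → H a}, mul_mem' := ?_, one_mem' := ?_, inv_mem' := ?_ },
      fun σ => Iff.rfl⟩
    · rintro σ τ ⟨s1, s2⟩ ⟨t1, t2⟩
      refine ⟨mul_mem s1 t1, fun a ha => ?_⟩
      obtain ⟨b, hb⟩ := hEx σ s1 N hN
      obtain ⟨c, hc⟩ := hEx τ t1 N hN
      exact hcg (hUq _ N _ _ hN ha (psi_mul hb hc)) (hmul _ _ (s2 b hb) (t2 c hc))
    · exact ⟨one_mem _, fun a ha => hcg (hUq _ N _ _ hN ha (psi_one N)) h1⟩
    · rintro σ ⟨s1, s2⟩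
      refine ⟨inv_mem s1, fun a ha => ?_⟩
      obtain ⟨b, hb⟩ := hEx σ s1 N hN
      have h3 : Psi (σ * σ⁻¹) N (b * a) := psi_mul hb ha
      rw [mul_inv_cancel] at h3
      exact hinv (s2 b hb) (hUq _ N _ _ hN h3 (psi_one N))
  have hWiff : ∀ σ ∈ GK, ∀ a, Psi σ N a → (σ ∈ W ↔ H a) := by
    intro σ hσ a ha
    rw [hW]
    refine ⟨fun h => h.2 a ha, fun h => ⟨hσ, fun a' ha' => hcg (hUq _ N _ _ hN ha' ha) h⟩⟩
  -- `W` is open
  have hle : GK ⊓ (O : Subgroup Gal(Om/ℚ)) ≤ W := by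
    rintro σ ⟨s1, s2⟩
    exact (hWiff σ s1 1 (hO σ s2).1).2 h1
  have hWo : IsOpen (W : Set Gal(Om/ℚ)) := by
    refine Subgroup.isOpen_mono hle ?_
    rw [Subgroup.coe_inf]
    exact hGKo.inter O.isOpen
  have hclosed : IsClosed (W : Set Gal(Om/ℚ)) := Subgroup.isClosed_of_isOpen W hWo
  have hM : (IntermediateField.fixedField W).fixingSubgroup = W :=
    InfiniteGalois.fixingSubgroup_fixedField (k := ℚ) (K := Om) ⟨W, hclosed⟩
  have hF : FixH N H = IntermediateField.fixedField W := by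
    ext x
    rw [IntermediateField.mem_fixedField_iff]
    constructor
    · intro hx σ hσ
      obtain ⟨s1, s2⟩ := (hW σ).1 hσ
      obtain ⟨a, ha⟩ := hEx σ s1 N hN
      exact hx σ s1 a ha (s2 a ha)
    · intro hx σ hσ a ha hHa
      exact hx σ ((hWiff σ hσ a ha).2 hHa)
  refine ⟨?_, ?_, ?_⟩
  · rw [hF, ← InfiniteGalois.isOpen_iff_finite]
    rw [hM]
    exact hWo
  · intro x hx σ hσ a _ _
    exact (IntermediateField.mem_fixingSubgroup_iff KQ σ).1 hσ x hx
  · intro τ hτ a ha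
    rw [← hWiff τ hτ a ha, ← hM, IntermediateField.mem_fixingSubgroup_iff, hF]

end Pool.Agent.DI.E
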