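import Pool.Agent.Lib.DI.E.SpecE

/-!
# Theorem DI, Part E: Frobenius elements at odd primes of degree one (`S_E2`)
-/

set_option autoImplicit false

open scoped Pointwise

noncomputable section

namespace Pool.Agent.DI.E

open Pool.Agent.MuZ Pool.Agent.FW

private theorem Fr2_int : IsIntegral ℤ wO := by
  refine ⟨Polynomial.X ^ 2 - Polynomial.X + Polynomial.C 2, ?_, ?_⟩
  · monicity!
  · rw [← Polynomial.aeval_def]
    simp only [map_add, map_sub, map_pow, Polynomial.aeval_X, Polynomial.aeval_C, wO_sq]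
    simp

private theorem Fr2_vp (Q : Ideal ZZ) (hQ : Q.IsPrime) (v : OO) : VP Q (toO v) := by
  change VP Q ((v.re : Om) + v.im * wO)
  exact VP.add (VP.int _) (VP.mul (VP.int _) (VP.integral Fr2_int))

private theorem Fr2_l {Q : Ideal ZZ} (hQ : Q.IsPrime) {la : OO} {l : ℕ} (h : Nm la = l)
    (hla : MP Q (toO la)) : (l : ZZ) ∈ Q := by
  rw [← MP.nat_iff]
  have e : (l : Om) = toO la * toO (cjO la) := by
    rw [← map_mul, mul_cjO, h, map_intCast, Int.cast_natCast]
  rw [e]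
  exact MP.mul_right hla (Fr2_vp Q hQ _)

private theorem Fr2_notLat {N : ℕ} (hN : 1 < N) {a : OO} (ha : Cop a N) : ¬ Lat (toC a / N) := by
  rw [lat_div_iff (by omega)]
  rintro ⟨b, rfl⟩
  unfold Cop at ha
  rw [Nm_mul, Nm_nat] at ha
  have h1 : IsCoprime (N : ℤ) (N : ℤ) := by
    refine IsCoprime.of_mul_left_left (y := (N : ℤ) * Nm b) ?_
    have e : (N : ℤ) * ((N : ℤ) * Nm b) = (N : ℤ) ^ 2 * Nm b := by ring
    rw [e]
    exact ha
  have h2 := isCoprime_self.1 h1
  rw [Int.isUnit_iff] at h2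
  omega

private theorem Fr2_tz {τ : Gal(Om/ℚ)} (hτ : τ ∈ GK) {N : ℕ} {a : OO} (ha : Psi τ N a) (v : OO) :
    τ (zO (toC v / N)) = zO (toC (a * v) / N) := by
  unfold zO
  rw [map_div₀, map_sub, (ha.2 v).1, GK_toO hτ]
  congr 2
  rw [map_div₀, map_one, map_ofNat]

theorem eFr2 : S_Fr2 := by
  intro B D hEx la l hl hl2 hl7 hla Q hQ hlaQ τ hτ hF N hN hcop
  obtain ⟨a, ha⟩ := hEx τ hτ N hN
  have hQp : Q.IsPrime := hQ.1
  suffices h : (N : OO) ∣ a - la ∨ (N : OO) ∣ a + la by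
    rcases h with h | h
    · exact Or.inl (psi_congr B hN h ha)
    · exact Or.inr (psi_congr B hN (by rwa [sub_neg_eq_add]) ha)
  rcases Nat.lt_or_ge 1 N with hN1 | hN1
  swap
  · have h1 : N = 1 := by omega
    subst h1
    left
    rw [Nat.cast_one]
    exact one_dvd _
  have hN0 : (N : ℂ) ≠ 0 := by exact_mod_cast hN.ne'
  have hlQ : (l : ZZ) ∈ Q := Fr2_l hQp hla hlaQ
  have hone : (1 : ZZ) ∉ Q := hQp.one_notMem
  -- `2` is not in `Q`
  have h2 : (2 : ZZ) ∉ Q := by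
    intro h2
    obtain ⟨k, hk⟩ := hl.odd_of_ne_two hl2
    apply hone
    have e : (1 : ZZ) = (l : ZZ) - 2 * (k : ZZ) := by
      rw [hk]
      push_cast
      ring
    rw [e]
    exact Q.sub_mem hlQ (Q.mul_mem_right _ h2)
  -- `N` is not in `Q`
  have hNQ : ¬ MP Q (toO (N : OO)) := by
    rw [map_natCast, MP.nat_iff]
    intro h
    obtain ⟨x, y, hxy⟩ := (Nat.isCoprime_iff_coprime.2 hcop)
    apply hone
    have e : (1 : ZZ) = (x : ZZ) * (l : ZZ) + (y : ZZ) * (N : ZZ) := by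
      have := congrArg (fun t : ℤ => (t : ZZ)) hxy
      push_cast at this
      exact this.symm
    rw [e]
    exact Q.add_mem (Q.mul_mem_left _ hlQ) (Q.mul_mem_left _ h)
  have hkx : ∀ z : ℂ, kx Q z = zO z := fun z => by
    unfold kx
    rw [if_neg h2]
  -- the points
  have hcl : Cop la N := by
    unfold Cop
    rw [hla]
    exact Nat.isCoprime_iff_coprime.2 hcop
  set z : ℂ := toC 1 / N with hz
  have e1 : ∀ v : OO, toC v * z = toC v / N := by
    intro v
    rw [hz, map_one]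
    ring
  have hδ : ∀ v : OO, Lat (toC (N : OO) * (toC v / N)) := by
    intro v
    refine ⟨v, ?_⟩
    rw [map_natCast]
    field_simp
  have hz0 : ¬ Lat z := Fr2_notLat hN1 (cop_one N)
  have ha0 : ¬ Lat (toC a / N) := Fr2_notLat hN1 ha.1
  have hl0 : ¬ Lat (toC la / N) := Fr2_notLat hN1 hcl
  -- the congruences
  have c1 : MP Q (τ (zO z) - zO z ^ l) := by
    have hv := D.int Q hQp hQ.2 (N : OO) z hNQ (hδ 1) hz0
    rw [hkx] at hv
    exact VP.frob hF hv
  have c2 := D.frob Q hQp hQ.2 (N : OO) z hNQ (hδ 1) hz0 la l hl hl2 hl7 hla hlaQ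
  rw [e1] at c2
  rw [hz, Fr2_tz hτ ha 1, mul_one, ← hz] at c1
  have c3 : MP Q (kx Q (toC a / N) - kx Q (toC la / N)) := by
    rw [hkx, hkx]
    have e : zO (toC a / N) - zO (toC la / N) =
        (zO (toC a / N) - zO z ^ l) - (zO (toC la / N) - zO z ^ l) := by ring
    rw [e]
    exact MP.sub c1 c2
  rcases D.sep Q hQp hQ.2 (N : OO) _ _ hNQ (hδ a) ha0 (hδ la) hl0 c3 with h | h
  · right
    rw [← add_div, ← map_add, lat_div_iff hN] at h
    exact h
  · left
    rw [← sub_div, ← map_sub, lat_div_iff hN] at h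
    exact h

end Pool.Agent.DI.E
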