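import Pool.Agent.Lib.DI.E.SpecE

/-! # Theorem DI, Part E, module `Fr3`: Frobenius elements above `2` -/

set_option autoImplicit false

open scoped Pointwise

noncomputable section

namespace Pool.Agent.DI.E

open Pool.Agent.MuZ Pool.Agent.FW

theorem Fr3_int_wO : IsIntegral ℤ wO := by
  refine ⟨Polynomial.X ^ 2 - Polynomial.X + Polynomial.C 2, ?_, ?_⟩
  · monicity!
  · rw [Polynomial.eval₂_add, Polynomial.eval₂_sub, Polynomial.eval₂_pow, Polynomial.eval₂_X,
      Polynomial.eval₂_C, wO_sq]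
    simp

theorem Fr3_int_toO (v : OO) : IsIntegral ℤ (toO v) := by
  change IsIntegral ℤ ((v.re : Om) + v.im * wO)
  exact (isIntegral_algebraMap (R := ℤ) (A := Om) (x := v.re)).add
    ((isIntegral_algebraMap (R := ℤ) (A := Om) (x := v.im)).mul Fr3_int_wO)

theorem Fr3_two {a b : OO} (hab : Pr2 a b) : toO a * toO b = ((2 : ℕ) : Om) := by
  rcases hab with ⟨rfl, rfl⟩ | ⟨rfl, rfl⟩
  · rw [toO_pO, toO_pbO]
    push_cast
    linear_combination -wO_sq
  · rw [toO_pO, toO_pbO]
    push_cast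
    linear_combination -wO_sq

theorem Fr3_Nm {a b : OO} (hab : Pr2 a b) : Nm a = 2 := by
  rcases hab with ⟨rfl, rfl⟩ | ⟨rfl, rfl⟩
  · rfl
  · rfl

theorem Fr3_not_dvd {N : ℕ} (hN : 1 < N) {a : OO} (ha : Cop a N) : ¬ (N : OO) ∣ a := by
  intro h
  obtain ⟨b, _, hb⟩ := cop_inv ha
  have h1 : (N : OO) ∣ 1 := by
    have h2 := (h.mul_right b).sub hb
    rwa [sub_sub_cancel] at h2
  have h3 := ((nat_dvd_iff N 1).1 h1).1
  rw [re_one] at h3
  have h4 : N ∣ 1 := by exact_mod_cast h3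
  have := Nat.le_of_dvd one_pos h4
  omega

theorem eFr3 : S_Fr3 := by
  intro B D hEx a b hab P hP hM τ hτ hF N hN
  haveI := hP.1
  have hN0 : 0 < N := hN.pos
  obtain ⟨a', ha'⟩ := hEx τ hτ N hN0
  rcases Nat.lt_or_ge 1 N with hN1 | hN1
  swap
  · have : N = 1 := by omega
    subst this
    left
    refine psi_congr B one_pos ?_ ha'
    rw [Nat.cast_one]
    exact one_dvd _
  have h2 : (2 : ZZ) ∈ P := by
    have h3 : MP P ((2 : ℕ) : Om) := by
      rw [← Fr3_two hab]
      exact MP.mul_right hM (VP.integral (Fr3_int_toO b))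
    have h4 := (MP.nat_iff 2).1 h3
    simpa using h4
  have hNP : ¬ MP P (toO (N : OO)) := by
    rw [map_natCast, MP.nat_iff]
    intro h3
    obtain ⟨k, hk⟩ := hN
    apply hP.1.one_notMem
    have h4 : (1 : ZZ) = (N : ZZ) - 2 * (k : ZZ) := by
      rw [hk]
      push_cast
      ring
    rw [h4]
    exact P.sub_mem h3 (P.mul_mem_right _ h2)
  have hNC : (N : ℂ) ≠ 0 := by exact_mod_cast hN0.ne'
  have hcop : Cop a N := by
    unfold Cop
    rw [Fr3_Nm hab]
    have h3 : Nat.Coprime 2 N := (Nat.coprime_two_left).2 hN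
    exact_mod_cast Nat.isCoprime_iff_coprime.2 h3
  have key : ∀ v : OO, Lat (toC (N : OO) * (toC v / N)) := by
    intro v
    refine ⟨v, ?_⟩
    rw [map_natCast]
    field_simp
  have hn1 : ¬ Lat (toC 1 / N) := by
    rw [lat_div_iff hN0]
    exact Fr3_not_dvd hN1 (cop_one N)
  have hna' : ¬ Lat (toC a' / N) := by
    rw [lat_div_iff hN0]
    exact Fr3_not_dvd hN1 ha'.1
  have hna : ¬ Lat (toC a / N) := by
    rw [lat_div_iff hN0]
    exact Fr3_not_dvd hN1 hcop
  have hkx : ∀ z, kx P z = xO z := fun z => by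
    unfold kx
    rw [if_pos h2]
  have hV : VP P (xO (toC 1 / N)) := by
    rw [← hkx]
    exact D.int P hP.1 hP.2 (N : OO) _ hNP (key 1) hn1
  have e1 : τ (xO (toC 1 / N)) = xO (toC a' / N) := by
    have := (ha'.2 1).1
    rwa [mul_one] at this
  have f1 : MP P (xO (toC a' / N) - xO (toC 1 / N) ^ 2) := by
    rw [← e1]
    exact VP.frob hF hV
  have f2 : MP P (xO (toC a / N) - xO (toC 1 / N) ^ 2) := by
    have h3 := D.frobPi P hP.1 hP.2 (N : OO) _ hNP (key 1) hn1 a
      (by rcases hab with ⟨h, _⟩ | ⟨h, _⟩; exacts [Or.inl h, Or.inr h]) hM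
    have h4 : toC a * (toC 1 / N) = toC a / N := by
      rw [map_one]
      ring
    rwa [h4] at h3
  have f3 : MP P (kx P (toC a' / N) - kx P (toC a / N)) := by
    rw [hkx, hkx]
    have h3 := f1.sub f2
    rwa [sub_sub_sub_cancel_right] at h3
  rcases D.sep P hP.1 hP.2 (N : OO) _ _ hNP (key a') hna' (key a) hna f3 with h3 | h3
  · right
    refine psi_congr B hN0 ?_ ha'
    rw [← add_div, ← map_add, lat_div_iff hN0] at h3
    rwa [sub_neg_eq_add]
  · left
    refine psi_congr B hN0 ?_ ha'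
    rwa [← sub_div, ← map_sub, lat_div_iff hN0] at h3

end Pool.Agent.DI.E
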