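import Pool.Agent.Lib.DI.E.SpecE

set_option autoImplicit false

/-!
# Theorem DI, Part E, module `Gcd`: prime elements of `O`
-/

open scoped Pointwise

noncomputable section

namespace Pool.Agent.DI.E

open Pool.Agent.MuZ Pool.Agent.FW

/-- An element of norm `1` is a unit; so it divides everything. -/
theorem Gcd_unit {g : OO} (hg : Nm g = 1) : g * cjO g = 1 := by
  rw [mul_cjO, hg]
  simp

theorem eGcd : S_Gcd := by
  intro hU r l hl hN hr
  obtain ⟨-, hP, -⟩ := hU
  obtain ⟨g, hg⟩ := (hP.principal (Ideal.span {(l : OO), r})).principal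
  have hgI : Ideal.span {(l : OO), r} = Ideal.span {g} := hg
  have hgl : g ∣ (l : OO) := by
    rw [← Ideal.mem_span_singleton, ← hgI]
    exact Ideal.subset_span (by simp)
  have hgr : g ∣ r := by
    rw [← Ideal.mem_span_singleton, ← hgI]
    exact Ideal.subset_span (by simp)
  have hgm : g ∈ Ideal.span {(l : OO), r} := by
    rw [hgI]
    exact Ideal.mem_span_singleton_self g
  obtain ⟨x, y, hxy⟩ := Ideal.mem_span_pair.1 hgm
  refine ⟨g, x, y, ?_, hgr, hgl, by rw [← hxy]; ring⟩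
  -- the norm of `g` divides `l ^ 2`
  have h1 : Nm g ∣ (l : ℤ) ^ 2 := by
    rw [← Nm_nat]
    exact Nm_dvd hgl
  obtain ⟨n, hn⟩ : ∃ n : ℕ, Nm g = n := ⟨(Nm g).toNat, (Int.toNat_of_nonneg (Nm_nonneg g)).symm⟩
  have h2 : n ∣ l ^ 2 := by
    rw [hn] at h1
    exact_mod_cast h1
  obtain ⟨i, hi, hni⟩ := (Nat.dvd_prime_pow hl).1 h2
  interval_cases i
  · -- norm `1`
    exfalso
    have hu : g * cjO g = 1 := Gcd_unit (by rw [hn, hni]; simp)
    apply hr
    have h3 : cjO r = (l : OO) * (x * cjO g * cjO r) + (r * cjO r) * (y * cjO g) := by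
      linear_combination (-cjO r) * hu - (cjO g * cjO r) * hxy
    have h6 : (l : OO) ∣ cjO r := by
      rw [h3, mul_cjO]
      refine dvd_add (Dvd.intro _ rfl) (Dvd.dvd.mul_right ?_ _)
      obtain ⟨k, hk⟩ := hN
      refine ⟨(k : OO), ?_⟩
      rw [hk]
      push_cast
      ring
    have h7 := dvd_cjO h6
    rwa [cjO_cjO, cjO_nat] at h7
  · rw [hn, hni, pow_one]
  · -- norm `l ^ 2`
    exfalso
    obtain ⟨h, hh⟩ := hgl
    have h3 : Nm h = 1 := by
      have h4 := Nm_mul g h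
      rw [← hh, Nm_nat, hn, hni] at h4
      push_cast at h4
      have h5 : ((l : ℤ) ^ 2) ≠ 0 := pow_ne_zero 2 (by exact_mod_cast hl.ne_zero)
      have h6 : (l : ℤ) ^ 2 * Nm h = (l : ℤ) ^ 2 * 1 := by rw [← h4, mul_one]
      exact mul_left_cancel₀ h5 h6
    have h4 : (l : OO) ∣ g := ⟨cjO h, by rw [hh, mul_assoc, Gcd_unit h3, mul_one]⟩
    exact hr (h4.trans hgr)

end Pool.Agent.DI.E
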