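import Pool.Agent.Lib.DI.E.SpecE
import Pool.Agent.Lib.FW.SpecFr
import Pool.Agent.Lib.ZD.AuxP
import Pool.Agent.Lib.ZD.Deg
import Pool.Agent.Lib.ZD.Frob

/-! # Theorem DI, Part E: `GK` is generated by Frobenius elements (author helper94) -/

set_option autoImplicit false

open scoped Pointwise

noncomputable section

namespace Pool.Agent.DI.E

open Pool.Agent.MuZ Pool.Agent.FW NumberField IsDedekindDomain

/-- The extension `Ω/ℚ` is Galois (for the default algebra structure). -/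
private theorem Gen_isGalois : IsGalois ℚ Om := by
  have h : @IsGalois ℚ _ Om _ (AlgebraicClosure.instAlgebra ℚ) :=
    @IsAlgClosure.isGalois ℚ Om _ _ (AlgebraicClosure.instAlgebra ℚ) _ _
  have hA : (DivisionRing.toRatAlgebra : Algebra ℚ Om) = AlgebraicClosure.instAlgebra ℚ :=
    Subsingleton.elim _ _
  rw [hA]
  exact h

/-- The field of an open subgroup. -/
private theorem Gen_field (K : IntermediateField ℚ Om) (H : Subgroup Gal(Om/ℚ))
    (O : OpenSubgroup Gal(Om/ℚ)) (hK : IsOpen (K.fixingSubgroup : Set Gal(Om/ℚ)))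
    (hHK : H ≤ K.fixingSubgroup)
    (hO : K.fixingSubgroup ⊓ (O : Subgroup Gal(Om/ℚ)) ≤ H)
    (hn : ∀ g ∈ K.fixingSubgroup, ∀ h ∈ H, g * h * g⁻¹ ∈ H) :
    ∃ M : IntermediateField ℚ Om, K ≤ M ∧ FiniteDimensional ℚ M ∧ M.fixingSubgroup = H ∧
      ∀ σ ∈ K.fixingSubgroup, ∀ x ∈ M, σ x ∈ M := by
  have hGal : IsGalois ℚ Om := Gen_isGalois
  have hopen : IsOpen (H : Set Gal(Om/ℚ)) := by
    refine Subgroup.isOpen_mono hO ?_
    rw [Subgroup.coe_inf]
    exact hK.inter O.isOpen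
  have hclosed : IsClosed (H : Set Gal(Om/ℚ)) := Subgroup.isClosed_of_isOpen H hopen
  have hM : (IntermediateField.fixedField H).fixingSubgroup = H :=
    InfiniteGalois.fixingSubgroup_fixedField (k := ℚ) (K := Om) ⟨H, hclosed⟩
  have hfix : ∀ σ ∈ H, ∀ x ∈ IntermediateField.fixedField H, σ x = x := by
    intro σ hσ x hx
    exact (IntermediateField.mem_fixedField_iff H x).1 hx σ hσ
  refine ⟨IntermediateField.fixedField H, ?_, ?_, hM, ?_⟩
  · intro x hx
    rw [IntermediateField.mem_fixedField_iff]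
    intro σ hσ
    exact (IntermediateField.mem_fixingSubgroup_iff K σ).1 (hHK hσ) x hx
  · rw [← InfiniteGalois.isOpen_iff_finite, hM]
    exact hopen
  · intro σ hσ x hx
    rw [IntermediateField.mem_fixedField_iff]
    intro τ hτ
    have hmem : σ⁻¹ * τ * σ ∈ H := by
      have := hn σ⁻¹ (inv_mem hσ) τ hτ
      rwa [inv_inv] at this
    have h5 := hfix _ hmem x hx
    have h6 : τ (σ x) = σ ((σ⁻¹ * τ * σ) x) := by
      rw [← AlgEquiv.mul_apply, ← AlgEquiv.mul_apply]
      congr 1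
      group
    rw [h6, h5]

/-- A field which is stable under `Gal(Ω/K)` is Galois over `K`. -/
private theorem Gen_gal (K M : IntermediateField ℚ Om) (hKM : K ≤ M)
    (hst : ∀ σ ∈ K.fixingSubgroup, ∀ x ∈ M, σ x ∈ M) :
    letI := incA hKM
    IsGalois K M := by
  have hG : IsGalois ℚ Om := Gen_isGalois
  have : Normal K Om := Normal.tower_top_of_normal ℚ K Om
  have : IsGalois K Om := ⟨⟩
  let _ : Algebra K M := incA hKM
  have hST : IsScalarTower K M Om := IsScalarTower.of_algebraMap_eq fun x => rfl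
  let L : IntermediateField K Om := IntermediateField.extendScalars hKM
  have hL : ∀ x : Om, x ∈ L ↔ x ∈ M := fun x => IntermediateField.mem_extendScalars hKM
  let e : L ≃ₐ[K] M :=
    { toFun := fun x => ⟨(x : Om), (hL _).1 x.2⟩
      invFun := fun x => ⟨(x : Om), (hL _).2 x.2⟩
      left_inv := fun _ => rfl
      right_inv := fun _ => rfl
      map_mul' := fun _ _ => rfl
      map_add' := fun _ _ => rfl
      commutes' := fun _ => rfl }
  have hres : ∀ σ : Gal(Om/K), (σ.restrictScalars ℚ : Gal(Om/ℚ)) ∈ K.fixingSubgroup := by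
    intro σ
    rw [IntermediateField.mem_fixingSubgroup_iff]
    intro x hx
    exact σ.commutes ⟨x, hx⟩
  have hNorm : Normal K L := by
    rw [IntermediateField.normal_iff_forall_map_le']
    rintro σ x ⟨y, hy, rfl⟩
    exact (hL _).2 (hst _ (hres σ) _ ((hL y).1 hy))
  have hGal : IsGalois K L := ⟨⟩
  exact IsGalois.of_algEquiv e

/-- A proper extension has degree at least two. -/
private theorem Gen_deg (K M : IntermediateField ℚ Om) [NumberField K] [NumberField M]
    (hKM : K ≤ M) (h : ¬ M ≤ K) :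
    letI := incA hKM
    2 ≤ Module.finrank K M := by
  let _ : Algebra K M := incA hKM
  have hfin : Module.Finite K M := Module.Finite.of_restrictScalars_finite ℚ K M
  have h0 : 0 < Module.finrank K M := Module.finrank_pos
  by_contra h1
  have h2 : Module.finrank K M = 1 := by omega
  apply h
  intro x hx
  have h3 := Subalgebra.bot_eq_top_of_finrank_eq_one h2
  have h4 : (⟨x, hx⟩ : M) ∈ (⊥ : Subalgebra K M) := by
    rw [h3]
    exact Algebra.mem_top
  obtain ⟨y, hy⟩ := Algebra.mem_bot.1 h4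
  have h5 : (y : Om) = x := by
    rw [← incA_coe hKM y]
    exact congrArg Subtype.val hy
  rw [← h5]
  exact y.2

theorem eGen : S_Gen := by
  rintro ⟨hfin, hopen⟩ hPid hGcd hDeg ⟨hLie1, hLie2, -⟩ hFrE hFrC H O M hHK hO hn hM hFr
  have hNF : NumberField KQ := ⟨⟩
  by_contra hcon
  obtain ⟨L, hKL, hLfin, hLfix, hLst⟩ := Gen_field KQ H O hopen hHK hO hn
  have hNL : NumberField L := ⟨⟩
  have hLK : ¬ L ≤ KQ := by
    intro h
    apply hcon
    rw [← hLfix]
    exact IntermediateField.fixingSubgroup_antitone h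
  have hGal := Gen_gal KQ L hKL hLst
  have hdeg := Gen_deg KQ L hKL hLK
  let _ : Algebra KQ L := incA hKL
  have hS := ZD.Dn_Spl KQ L
  set n := Module.finrank KQ L with hn'
  have hM0 : (M : 𝓞 KQ) ≠ 0 := by exact_mod_cast hM.ne'
  have hB1 := ZD.finite_mem (M : 𝓞 KQ) hM0
  have hB2 := ZD.finite_ram (K := KQ) (L := L)
  have hU := hS.up.union ((ZD.Dn_finite hB1).up.union (ZD.Dn_finite hB2).up)
  have hlt : 1 / (n : ℝ) + (0 + 0) < 1 := by
    have h2 : (2 : ℝ) ≤ n := by exact_mod_cast hdeg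
    have h3 : 1 / (n : ℝ) ≤ 1 / 2 := one_div_le_one_div_of_le (by norm_num) h2
    linarith
  obtain ⟨v, -, hv, hprime⟩ := (ZD.infinite_deg_one (ZD.Dn_univ (K := KQ)) hU hlt).nonempty
  rw [Set.mem_union, Set.mem_union, not_or, not_or] at hv
  obtain ⟨hvS, hvM, hvR⟩ := hv
  obtain ⟨P, hP, hPb, hPv⟩ := hLie1 KQ v
  obtain ⟨σ, hσ, hσf⟩ := hFrE KQ P hP hPb
  have hcard : Nat.card (𝓞 KQ ⧸ P.comap (iO KQ)) = ZD.nm v := by
    rw [← hPv]
    rfl
  rw [hcard] at hσf
  obtain ⟨la, hla, hlaP, hlP⟩ := hDeg hPid hGcd P (ZD.nm v) ⟨hP, hPb⟩ hprime hcard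
  have hlM : ¬ ZD.nm v ∣ M := by
    rintro ⟨c, hc⟩
    apply hvM
    change (M : 𝓞 KQ) ∈ v.asIdeal
    rw [hPv, Ideal.mem_comap, map_natCast, hc]
    push_cast
    exact P.mul_mem_right _ hlP
  have hσH : σ ∈ H := hFr la (ZD.nm v) P σ hprime hlM hla ⟨hP, hPb⟩ hlaP hlP hσ hσf
  have hσL : σ ∈ L.fixingSubgroup := by
    rw [hLfix]
    exact hσH
  have hIs : IsFr KQ P σ := ⟨hσ, by rw [hcard]; exact hσf⟩
  obtain ⟨hc2, -⟩ := hFrC KQ L hKL P hP hPb σ hIs hσL
  obtain ⟨w, -, -, hw⟩ := hLie2 L P hP hPb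
  apply hvS
  refine ZD.mem_Spl_of_nm hvR (u := w) ?_ ?_
  · rw [ZD.mem_abv, hw, hPv, Ideal.comap_comap]
    rfl
  · have h7 : ZD.nm w = Nat.card (𝓞 L ⧸ P.comap (iO L)) := by
      rw [← hw]
      rfl
    rw [h7, hc2, hcard]

end Pool.Agent.DI.E
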