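import Pool.Agent.Lib.DI.E.SpecE

/-!
# THEOREM DI, Part E, module In4: inertia
-/

set_option autoImplicit false

open scoped Pointwise

noncomputable section

namespace Pool.Agent.DI.E

open Pool.Agent.MuZ Pool.Agent.FW

private theorem In4_kx {τ : Gal(Om/ℚ)} (hτ : τ ∈ GK) (Q : Ideal ZZ) {z z' : ℂ}
    (h : τ (xO z) = xO z') : τ (kx Q z) = kx Q z' := by
  unfold kx
  split_ifs
  · exact h
  · unfold zO
    rw [map_div₀, map_sub, h, GK_toO hτ, map_div₀, map_one, map_ofNat]

private theorem In4_core (D : DF) (Q : Ideal ZZ) (hQ : Q.IsPrime) (hQ0 : Q ≠ ⊥)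
    {τ : Gal(Om/ℚ)} (hτ : τ ∈ GK) (hi : τ ∈ Q.inertia Gal(Om/ℚ)) (δ : OO) (hδ : ¬ MP Q (toO δ))
    (N : ℕ) (hN : 0 < N) (v a : OO) (ha : Psi τ N a) (hz : Lat (toC δ * (toC v / N)))
    (hz' : ¬ Lat (toC v / N)) :
    τ (xO (toC v / N)) = xO (toC a * (toC v / N)) ∧
    (Lat (toC a * (toC v / N) + toC v / N) ∨ Lat (toC a * (toC v / N) - toC v / N)) := by
  have h1 : toC (a * v) / (N : ℂ) = toC a * (toC v / N) := by
    rw [map_mul]
    ring
  have h2 : ¬ Lat (toC a * (toC v / N)) := by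
    rw [← h1]
    intro h
    have h3 := (lat_div_iff hN _).1 h
    obtain ⟨b, -, hb⟩ := cop_inv ha.1
    apply hz'
    rw [lat_div_iff hN]
    have e : v = b * (a * v) - (a * b - 1) * v := by ring
    rw [e]
    exact dvd_sub (h3.mul_left _) (hb.mul_right _)
  have h3 : τ (xO (toC v / N)) = xO (toC a * (toC v / N)) := by
    rw [← h1]
    exact (ha.2 v).1
  refine ⟨h3, ?_⟩
  have h4 := VP.inertia hi (D.int Q hQ hQ0 δ _ hδ hz hz')
  rw [In4_kx hτ Q h3] at h4
  refine D.sep Q hQ hQ0 δ _ _ hδ ?_ h2 hz hz' h4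
  have e : toC δ * (toC a * (toC v / (N : ℂ))) = toC a * (toC δ * (toC v / N)) := by ring
  rw [e]
  exact lat_mul a hz

private theorem In4_zero : xO 0 = 1 / 4 := by
  have h : XC 0 = io (1 / 4) := by
    unfold XC
    rw [PeriodPair.weierstrassP_zero, zero_div, zero_add, map_div₀, map_one, map_ofNat]
  unfold xO
  rw [h, ofC_io]

/-- **In4.** -/
theorem eIn4 : S_In4 := by
  intro B D E Q hQ τ hτ hi
  have hQp : Q.IsPrime := hQ.1
  refine ⟨fun δ hδ z hz => ?_, fun N hN hNQ => ?_⟩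
  · have hδ0 : δ ≠ 0 := by
      rintro rfl
      rw [map_zero] at hδ
      exact hδ MP.zero
    by_cases hL : Lat z
    · have h1 : xO z = xO 0 := (B.x_eq (by rwa [sub_zero])).1
      rw [h1, In4_zero, map_div₀, map_one, map_ofNat]
    · obtain ⟨v, hv⟩ := eq_div_of_Lat hδ0 hz
      have hN : 0 < (Nm δ).toNat := by
        have := Nm_pos hδ0
        omega
      obtain ⟨a, ha⟩ := E τ hτ _ hN
      rw [hv] at hz hL ⊢
      obtain ⟨h1, h2⟩ := In4_core D Q hQ.1 hQ.2 hτ hi δ hδ _ hN v a ha hz hL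
      rw [h1]
      rcases h2 with h2 | h2
      · rw [← B.x_neg (toC v / _)]
        refine (B.x_eq ?_).1
        rwa [sub_neg_eq_add]
      · exact (B.x_eq h2).1
  · obtain ⟨a, ha⟩ := E τ hτ N hN
    by_cases h1 : N = 1
    · subst h1
      left
      exact psi_congr B hN (by rw [Nat.cast_one]; exact one_dvd _) ha
    · have hN' : (N : ℂ) ≠ 0 := by exact_mod_cast hN.ne'
      have hL : ¬ Lat (toC 1 / (N : ℂ)) := by
        rw [lat_div_iff hN, nat_dvd_iff]
        rintro ⟨h2, -⟩
        rw [re_one] at h2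
        have h3 : N ∣ 1 := by exact_mod_cast h2
        exact h1 (Nat.dvd_one.1 h3)
      have hz : Lat (toC (N : OO) * (toC 1 / (N : ℂ))) := by
        refine ⟨1, ?_⟩
        rw [map_natCast]
        field_simp
      obtain ⟨-, h2⟩ := In4_core D Q hQ.1 hQ.2 hτ hi (N : OO) (by rwa [map_natCast]) N hN 1 a ha
        hz hL
      rcases h2 with h2 | h2
      · right
        refine psi_congr B hN ?_ ha
        rw [← lat_div_iff hN]
        have e : toC (a - -1) / (N : ℂ) = toC a * (toC 1 / N) + toC 1 / N := by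
          rw [sub_neg_eq_add, map_add, map_one]
          ring
        rwa [e]
      · left
        refine psi_congr B hN ?_ ha
        rw [← lat_div_iff hN]
        have e : toC (a - 1) / (N : ℂ) = toC a * (toC 1 / N) - toC 1 / N := by
          rw [map_sub, map_one]
          ring
        rwa [e]

end Pool.Agent.DI.E
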