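import Pool.Agent.Lib.DI.E.SpecE

set_option autoImplicit false

/-!
# THEOREM DI, part E, module Inr9: inertia above `2` is in `GK`, and unramifiedness
-/

open scoped Pointwise

noncomputable section

namespace Pool.Agent.DI.E

open Pool.Agent.MuZ Pool.Agent.FW Pool.Agent.DI

private theorem Inr9_integral : IsIntegral ℤ wO := by
  refine ⟨Polynomial.X ^ 2 - Polynomial.X + Polynomial.C 2, ?_, ?_⟩
  · monicity!
  · have h := wO_sq
    simp only [Polynomial.eval₂_add, Polynomial.eval₂_sub, Polynomial.eval₂_pow,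
      Polynomial.eval₂_X, Polynomial.eval₂_C]
    rw [map_ofNat]
    linear_combination h

private theorem Inr9_GK {P : Ideal ZZ} (hP : Npr P) (h2 : MP P 2) {τ : Gal(Om/ℚ)}
    (hτ : τ ∈ P.inertia Gal(Om/ℚ)) : τ ∈ GK := by
  have : P.IsPrime := hP.1
  rw [mem_GK_iff]
  have hv : VP P wO := VP.integral Inr9_integral
  have h := VP.inertia hτ hv
  have hsq := wO_sq
  have h3 : (τ wO - wO) * (τ wO - (1 - wO)) = 0 := by
    have h4 := congrArg τ hsq
    simp only [map_sub, map_pow, map_ofNat] at h4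
    linear_combination h4 - hsq
  rcases mul_eq_zero.1 h3 with h5 | h5
  · exact sub_eq_zero.1 h5
  · exfalso
    have h6 : τ wO = 1 - wO := sub_eq_zero.1 h5
    rw [h6] at h
    have h7 : MP P (1 - wO - wO + 2 * wO) := MP.add h (MP.mul_right h2 hv)
    have h8 : (1 : Om) - wO - wO + 2 * wO = 1 := by ring
    rw [h8] at h7
    exact MP.one_not h7

theorem eInr9 : S_Inr9 := by
  intro hIne hUHN h4 h8 f hf h7 hst
  have hf0 : 0 < f := hf.pos
  obtain ⟨⟨hm1, -, h1, -⟩, hmul, -, hadd, -, hcop, -⟩ := hUHN f 0 hf h7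
  have part1 : ∀ P : Ideal ZZ, Npr P → MP P 2 → ∀ τ ∈ P.inertia Gal(Om/ℚ), ∀ x ∈ Lf f,
      τ x = x := by
    intro P hP h2 τ hτ x hx
    have : P.IsPrime := hP.1
    have hG := Inr9_GK hP h2 hτ
    have hfP : ¬ MP P (f : Om) := by
      intro hc
      obtain ⟨k, hk⟩ := hf
      have e1 : (1 : Om) = (f : Om) - 2 * (k : Om) := by
        rw [hk]
        push_cast
        ring
      have e2 : MP P ((f : Om) - 2 * (k : Om)) := MP.sub hc (MP.mul_right h2 (VP.nat k))
      rw [← e1] at e2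
      exact MP.one_not e2
    rcases (h4 P hP τ hG hτ).2 f hf0 hfP with h | h
    · exact hx τ hG 1 h h1
    · exact hx τ hG (-1) h hm1
  refine ⟨part1, ?_⟩
  intro P hP h2 τ hG h x hx
  have : P.IsPrime := hP.1
  obtain ⟨hfd, hle, -⟩ := h8 f (Hf f) hf0 hm1 hcop hadd hmul
  obtain ⟨σ, hσ, -, hσx⟩ := hIne KQ (Lf f) hfd hle P hP.1 hP.2 τ hG (hst τ hG) (by
    intro y hy
    have h5 := h (y : Om) hy (VP.coe y)
    rw [← MP.coe_iff]
    have h6 : ((τ • y - y : ZZ) : Om) = τ (y : Om) - (y : Om) := rfl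
    rw [h6]
    exact h5)
  rw [← hσx x hx]
  exact part1 P hP h2 σ hσ x hx

end Pool.Agent.DI.E
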