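import Pool.Agent.Lib.DI.E.SpecE

/-! Theorem DI, Part E: `K` is a number field. -/

set_option autoImplicit false

open scoped Pointwise

noncomputable section

namespace Pool.Agent.DI.E

open Pool.Agent.MuZ Pool.Agent.FW

theorem eKFin : S_KFin := by
  have h : FiniteDimensional ℚ KQ :=
    IntermediateField.adjoin.finiteDimensional (Algebra.IsIntegral.isIntegral wO)
  exact ⟨h, IntermediateField.fixingSubgroup_isOpen KQ⟩

end Pool.Agent.DI.E
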