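import Pool.Agent.Lib.DI.E.SpecE

set_option autoImplicit false

open scoped Pointwise

noncomputable section

namespace Pool.Agent.DI.E

open Pool.Agent.MuZ Pool.Agent.FW

private lemma mk_int : IsIntegral ℤ wO := by
  refine ⟨Polynomial.X ^ 2 - Polynomial.X + Polynomial.C 2, ?_, ?_⟩
  · monicity!
  · simp only [Polynomial.eval₂_add, Polynomial.eval₂_sub, Polynomial.eval₂_pow,
      Polynomial.eval₂_X, Polynomial.eval₂_C]
    rw [wO_sq]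
    simp

private lemma mk_vpO {Q : Ideal ZZ} (hQ : Q.IsPrime) (v : OO) : VP Q (toO v) := by
  have : toO v = (v.re : Om) + v.im * wO := rfl
  rw [this]
  exact (VP.int _).add ((VP.int _).mul (VP.integral mk_int))

private lemma mk_ww : wO * (1 - wO) = ((2 : ℕ) : Om) := by
  push_cast
  linear_combination -wO_sq

private lemma mk_pr2 {Q : Ideal ZZ} (hQ : Q.IsPrime) (h2 : (2 : ZZ) ∈ Q) :
    ∃ a b : OO, Pr2 a b ∧ MP Q (toO a) := by
  have h : MP Q (toO pO * toO pbO) := by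
    rw [toO_pO, toO_pbO, mk_ww]
    exact (MP.nat_iff 2).2 (by simpa using h2)
  rcases MP.mul_cases (mk_vpO hQ _) (mk_vpO hQ _) h with h | h
  · exact ⟨pO, pbO, Or.inl ⟨rfl, rfl⟩, h⟩
  · exact ⟨pbO, pO, Or.inr ⟨rfl, rfl⟩, h⟩

private lemma mk_not2 {Q : Ideal ZZ} (hQ : Q.IsPrime) (h2 : (2 : ZZ) ∉ Q) : ¬ MP Q 2 := by
  intro h
  have h3 : MP Q ((2 : ℕ) : Om) := by simpa using h
  exact h2 (by simpa using (MP.nat_iff 2).1 h3)

private lemma mk_ne {Q : Ideal ZZ} (hQ : Q.IsPrime) {δ : OO} (hδ : ¬ MP Q (toO δ)) : δ ≠ 0 := by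
  rintro rfl
  apply hδ
  rw [map_zero]
  exact MP.zero

private lemma mk_I2 (h1 : S_D1) {Q : Ideal ZZ} (hQ : Q.IsPrime) (hb : Q ≠ ⊥) (h2 : (2 : ZZ) ∈ Q)
    {δ : OO} {z : ℂ} (hδ : ¬ MP Q (toO δ)) (hz : Lat (toC δ * z)) (h : I2 Q z) : Lat z := by
  obtain ⟨a, b, hab, ha⟩ := mk_pr2 hQ h2
  have h3 := (h1 a b hab Q ⟨hQ, hb⟩ ha).2.2.1 z h δ 1 hδ (by rw [mul_one]; exact hz)
  rw [map_one, one_mul] at h3
  exact h3

private lemma mk_IZ (h1 : S_D2) {Q : Ideal ZZ} (hQ : Q.IsPrime) (hb : Q ≠ ⊥) (h2 : (2 : ZZ) ∉ Q)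
    {δ : OO} {z : ℂ} (hδ : ¬ MP Q (toO δ)) (hz : Lat (toC δ * z)) (h : IZ Q z) : Lat z := by
  have h3 := (h1 Q ⟨hQ, hb⟩ (mk_not2 hQ h2)).2.2.1 z h δ 1 hδ (by rw [mul_one]; exact hz)
  rw [map_one, one_mul] at h3
  exact h3

private lemma mk_add {δ : OO} {z z' : ℂ} (h : Lat (toC δ * z)) (h' : Lat (toC δ * z')) :
    Lat (toC δ * (z + z')) ∧ Lat (toC δ * (z - z')) := by
  rw [mul_add, mul_sub]
  exact ⟨lat_add h h', lat_sub h h'⟩

theorem eMkDF : S_MkDF := by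
  intro hD1 hD2 hD4
  refine ⟨?_, ?_, ?_, ?_⟩
  · intro Q hQ hb δ z hδ hz hz0
    have ht : Tor z := tor_of_lat (mk_ne hQ hδ) hz
    by_contra hv
    by_cases h2 : (2 : ZZ) ∈ Q
    · rw [kx, if_pos h2] at hv
      exact hz0 (mk_I2 hD1 hQ hb h2 hδ hz ⟨ht, Or.inr hv⟩)
    · rw [kx, if_neg h2] at hv
      exact hz0 (mk_IZ hD2 hQ hb h2 hδ hz ⟨ht, Or.inr hv⟩)
  · intro Q hQ hb δ z z' hδ hz hz0 hz' hz0' hm
    have ht : Tor z := tor_of_lat (mk_ne hQ hδ) hz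
    have ht' : Tor z' := tor_of_lat (mk_ne hQ hδ) hz'
    by_cases h2 : (2 : ZZ) ∈ Q
    · rw [kx, kx, if_pos h2, if_pos h2] at hm
      obtain ⟨a, b, hab, ha⟩ := mk_pr2 hQ h2
      rcases (hD1 a b hab Q ⟨hQ, hb⟩ ha).2.2.2.2.1 z z' ht ht'
        (fun h => hz0 (mk_I2 hD1 hQ hb h2 hδ hz h))
        (fun h => hz0' (mk_I2 hD1 hQ hb h2 hδ hz' h)) hm with h | h
      · exact Or.inl (mk_I2 hD1 hQ hb h2 hδ (mk_add hz hz').1 h)
      · exact Or.inr (mk_I2 hD1 hQ hb h2 hδ (mk_add hz hz').2 h)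
    · rw [kx, kx, if_neg h2, if_neg h2] at hm
      rcases (hD2 Q ⟨hQ, hb⟩ (mk_not2 hQ h2)).2.2.2.2 z z' ht ht'
        (fun h => hz0 (mk_IZ hD2 hQ hb h2 hδ hz h))
        (fun h => hz0' (mk_IZ hD2 hQ hb h2 hδ hz' h)) hm with h | h
      · exact Or.inl (mk_IZ hD2 hQ hb h2 hδ (mk_add hz hz').1 h)
      · exact Or.inr (mk_IZ hD2 hQ hb h2 hδ (mk_add hz hz').2 h)
  · intro Q hQ hb δ z hδ hz hz0 la l hl hl2 hl7 hN hla
    have ht : Tor z := tor_of_lat (mk_ne hQ hδ) hz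
    have h2 : (2 : ZZ) ∉ Q := by
      intro h2
      have h3 : MP Q (toO la * toO (cjO la)) := MP.mul_right hla (mk_vpO hQ _)
      rw [← map_mul, mul_cjO, hN, map_intCast] at h3
      have h4 : MP Q ((l : ℕ) : Om) := by simpa using h3
      have h5 := (MP.nat_iff l).1 h4
      obtain ⟨k, hk⟩ := hl.odd_of_ne_two hl2
      have h6 : (1 : ZZ) ∈ Q := by
        have h7 : (1 : ZZ) = (l : ZZ) - (k : ZZ) * 2 := by
          rw [hk]
          push_cast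
          ring
        rw [h7]
        exact Q.sub_mem h5 (Q.mul_mem_left _ h2)
      exact hQ.one_notMem h6
    exact (hD4 la l hl hl2 hl7 hN Q ⟨hQ, hb⟩ hla z ht
      (fun h => hz0 (mk_IZ hD2 hQ hb h2 hδ hz h))).2
  · intro Q hQ hb δ z hδ hz hz0 la hla hm
    have ht : Tor z := tor_of_lat (mk_ne hQ hδ) hz
    have h2 : (2 : ZZ) ∈ Q := by
      have h3 : MP Q (wO * (1 - wO)) := by
        rcases hla with rfl | rfl
        · rw [toO_pO] at hm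
          rw [← toO_pbO]
          exact MP.mul_right hm (mk_vpO hQ _)
        · rw [toO_pbO] at hm
          exact MP.mul_left (VP.integral mk_int) hm
      rw [mk_ww] at h3
      simpa using (MP.nat_iff 2).1 h3
    have hn : ¬ I2 Q z := fun h => hz0 (mk_I2 hD1 hQ hb h2 hδ hz h)
    rcases hla with rfl | rfl
    · exact ((hD1 pO pbO (Or.inl ⟨rfl, rfl⟩) Q ⟨hQ, hb⟩ hm).2.2.2.2.2.2.1 z ht hn).2
    · exact ((hD1 pbO pO (Or.inr ⟨rfl, rfl⟩) Q ⟨hQ, hb⟩ hm).2.2.2.2.2.2.1 z ht hn).2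

end Pool.Agent.DI.E
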