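import Pool.Agent.Lib.DI.E.SpecE

/-!
# THEOREM DI, Part E: assembly of `S_E9` (task 20653)
-/

set_option autoImplicit false

open scoped Pointwise

noncomputable section

namespace Pool.Agent.DI.E

open Pool.Agent.MuZ Pool.Agent.FW

theorem eNor9 : S_Nor9 := by
  intro hA1 hU hAb hCj hBF hEx hUq hI f hf h7
  obtain ⟨c, hc⟩ := hA1
  obtain ⟨-, -, hst⟩ := hCj hAb hBF hEx hUq c hc
  have h1 : ∀ τ : Gal(Om/ℚ), ∀ x ∈ Lf f, τ x ∈ Lf f := by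
    obtain ⟨⟨n1, -, -, -⟩, m1, -, p1, -, c1, -, j1, -⟩ := hU f 0 hf h7
    exact hst f (Hf f) hf.pos n1 c1 p1 m1 j1
  have h2 : ∀ (N : ℕ) (τ : Gal(Om/ℚ)), ∀ x ∈ Ln f N, τ x ∈ Ln f N := by
    intro N
    obtain ⟨⟨-, n2, -, -⟩, -, m2, -, p2, -, c2, -, j2, -⟩ := hU f N hf h7
    exact hst (f * 2 ^ N) (HN f N) (Nat.mul_pos hf.pos (by positivity)) n2 c2 p2 m2 j2
  obtain ⟨h3, h4⟩ := hI f hf h7 (fun τ _ x hx => h1 τ x hx)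
  exact ⟨h1, h2, h3, h4⟩

end Pool.Agent.DI.E
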