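import Pool.Agent.Lib.DI.E.SpecE

/-!
# THEOREM DI, Part E, module Nrm5: normalisation at `√-7`
-/

set_option autoImplicit false

open scoped Pointwise

noncomputable section

namespace Pool.Agent.DI.E

open Pool.Agent.MuZ Pool.Agent.FW

private theorem Nm_s7 : Nm s7 = 7 := by
  simp only [Nm, s7]
  norm_num

private theorem s7_not_dvd_one : ¬ s7 ∣ (1 : OO) := by
  intro h
  have h1 := Nm_dvd h
  rw [Nm_s7, Nm_one] at h1
  omega

private theorem s7_ne : toC s7 ≠ 0 := by
  refine toC_ne fun h => ?_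
  have h1 := Nm_s7
  rw [h] at h1
  simp [Nm] at h1

private theorem toC_s7_sq : toC s7 * toC s7 = -7 := by
  rw [← map_mul, s7_sq, map_intCast]
  norm_num

private theorem div_s7 {N k : ℕ} (hN : 0 < N) (hk : N = 7 * k) (u : OO) :
    toC u / toC s7 = toC (u * (-(s7 * (k : OO)))) / N := by
  have h1 := s7_ne
  have hk0 : (k : ℂ) ≠ 0 := by
    have : k ≠ 0 := by omega
    exact_mod_cast this
  rw [map_mul, map_neg, map_mul, map_natCast, hk]
  push_cast
  rw [div_eq_div_iff h1 (mul_ne_zero (by norm_num) hk0)]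
  linear_combination (toC u * k) * toC_s7_sq

theorem eNrm5 : S_Nrm5 := by
  intro B τ hτ N a hN h7 hΨ
  obtain ⟨k, hk⟩ := h7
  -- `a` is not divisible by `s7`
  have hna : ¬ s7 ∣ a := by
    intro h
    have h1 := Nm_dvd h
    rw [Nm_s7] at h1
    have h2 : IsCoprime (Nm a) (N : ℤ) := hΨ.1
    have h3 : (7 : ℤ) ∣ (N : ℤ) := ⟨k, by rw [hk]; push_cast; ring⟩
    have h4 : IsUnit (7 : ℤ) := h2.isUnit_of_dvd' h1 h3
    rw [Int.isUnit_iff] at h4
    omega
  obtain ⟨s, hs, hsev⟩ := B.sev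
  obtain ⟨e1, -⟩ := hsev 1 s7_not_dvd_one
  obtain ⟨ea, eane⟩ := hsev a hna
  rw [eps_one] at e1
  have t1 : Tor (toC 1 / toC s7) := by
    rw [div_s7 hN hk]
    exact tor_div hN _
  have ta : Tor (toC a / toC s7) := by
    rw [div_s7 hN hk]
    exact tor_div hN _
  -- the relations in `Om`
  have f1 : 2 * yO (toC 1 / toC s7) + xO (toC 1 / toC s7) =
      (s : Om) * toO s7 * xO (toC 1 / toC s7) := by
    apply io_inj
    rw [map_add, map_mul, map_mul, map_mul, map_intCast, io_toO, (B.io_x t1).1, (B.io_x t1).2,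
      map_ofNat, e1]
    push_cast
    ring
  have fa : 2 * yO (toC a / toC s7) + xO (toC a / toC s7) =
      (s : Om) * (eps a : Om) * toO s7 * xO (toC a / toC s7) := by
    apply io_inj
    rw [map_add, map_mul, map_mul, map_mul, map_mul, map_intCast, map_intCast, io_toO,
      (B.io_x ta).1, (B.io_x ta).2, map_ofNat, ea]
  have hx : xO (toC a / toC s7) ≠ 0 := by
    intro h
    apply eane
    rw [← (B.io_x ta).1, h, map_zero]
  -- the action of `τ`
  have g1 : τ (xO (toC 1 / toC s7)) = xO (toC a / toC s7) := by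
    rw [div_s7 hN hk 1, div_s7 hN hk a, one_mul]
    exact (hΨ.2 _).1
  have g2 : τ (yO (toC 1 / toC s7)) = yO (toC a / toC s7) := by
    rw [div_s7 hN hk 1, div_s7 hN hk a, one_mul]
    exact (hΨ.2 _).2
  have f2 := congrArg τ f1
  rw [map_add, map_mul, map_mul, map_mul, map_intCast, GK_toO hτ, g1, g2, map_ofNat, fa] at f2
  have hs0 : (s : Om) ≠ 0 := by
    have : s ≠ 0 := by
      rcases hs with h | h <;> omega
    exact_mod_cast this
  have h70 : toO s7 ≠ 0 := by
    intro h
    apply s7_ne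
    rw [← io_toO, h, map_zero]
  have f3 : (s : Om) * toO s7 * xO (toC a / toC s7) * ((eps a : Om) - 1) = 0 := by
    linear_combination f2
  have f4 : (eps a : Om) - 1 = 0 :=
    (mul_eq_zero.1 f3).resolve_left (mul_ne_zero (mul_ne_zero hs0 h70) hx)
  have f5 : ((eps a : ℤ) : Om) = ((1 : ℤ) : Om) := by
    rw [Int.cast_one]
    exact sub_eq_zero.1 f4
  exact_mod_cast f5

end Pool.Agent.DI.E
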