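import Pool.Agent.Lib.DI.E.SpecE

set_option autoImplicit false

/-!
# Theorem DI, Part E: an open subgroup which acts trivially on the `N`-torsion and on `μ_N`
-/

open scoped Pointwise

noncomputable section

namespace Pool.Agent.DI.E

open Pool.Agent.MuZ Pool.Agent.FW

/-- The finite set of coordinates. -/
def OpN_A (N : ℕ) : Set Om :=
  (Set.range fun p : Fin N × Fin N => xO (toC ⟨(p.1 : ℤ), (p.2 : ℤ)⟩ / N)) ∪
    (Set.range fun p : Fin N × Fin N => yO (toC ⟨(p.1 : ℤ), (p.2 : ℤ)⟩ / N)) ∪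
      {ζ : Om | ζ ^ N = 1}

theorem OpN_fin (N : ℕ) (hN : 0 < N) : (OpN_A N).Finite := by
  classical
  refine ((Set.finite_range _).union (Set.finite_range _)).union ?_
  refine ((Polynomial.nthRoots N (1 : Om)).toFinset.finite_toSet).subset ?_
  intro ζ hζ
  rw [Finset.mem_coe, Multiset.mem_toFinset, Polynomial.mem_nthRoots hN]
  exact hζ

theorem OpN_red (N : ℕ) (hN : 0 < N) (v : OO) : ∃ p : Fin N × Fin N,
    (N : OO) ∣ v - ⟨(p.1 : ℤ), (p.2 : ℤ)⟩ := by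
  have hN' : (0 : ℤ) < N := by exact_mod_cast hN
  have h1 : ∀ x : ℤ, ∃ i : Fin N, (N : ℤ) ∣ x - (i : ℤ) := by
    intro x
    have h2 : 0 ≤ x % N := Int.emod_nonneg x hN'.ne'
    have h3 : x % N < N := Int.emod_lt_of_pos x hN'
    refine ⟨⟨(x % N).toNat, by omega⟩, ?_⟩
    have h4 : (((x % N).toNat : ℕ) : ℤ) = x % N := Int.toNat_of_nonneg h2
    rw [h4]
    exact Int.dvd_self_sub_emod
  obtain ⟨i, hi⟩ := h1 v.re
  obtain ⟨j, hj⟩ := h1 v.im
  refine ⟨(i, j), (nat_dvd_iff N _).2 ⟨?_, ?_⟩⟩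
  · rw [QuadraticAlgebra.re_sub]
    exact hi
  · rw [QuadraticAlgebra.im_sub]
    exact hj

/-- **An open subgroup acting trivially on the `N`-torsion and on `μ_N`.** -/
theorem eOpN : S_OpN := by
  intro B N hN
  have hfin : Finite (OpN_A N) := (OpN_fin N hN).to_subtype
  have hE : FiniteDimensional ℚ (IntermediateField.adjoin ℚ (OpN_A N)) :=
    IntermediateField.finiteDimensional_adjoin fun x _ => Algebra.IsIntegral.isIntegral x
  refine ⟨⟨(IntermediateField.adjoin ℚ (OpN_A N)).fixingSubgroup,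
    IntermediateField.fixingSubgroup_isOpen _⟩, ?_⟩
  intro τ hτ
  have hτ' : τ ∈ (IntermediateField.adjoin ℚ (OpN_A N)).fixingSubgroup := hτ
  rw [IntermediateField.mem_fixingSubgroup_iff] at hτ'
  have hfix : ∀ x ∈ OpN_A N, τ x = x := fun x hx => hτ' x (IntermediateField.subset_adjoin ℚ _ hx)
  refine ⟨⟨cop_one N, fun v => ?_⟩, fun ζ hζ => hfix ζ (Or.inr hζ)⟩
  obtain ⟨p, hp⟩ := OpN_red N hN v
  obtain ⟨e1, e2⟩ := B.x_eq (toC_sub_div_Lat hN hp)
  rw [one_mul, e1, e2]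
  exact ⟨hfix _ (Or.inl (Or.inl ⟨p, rfl⟩)), hfix _ (Or.inl (Or.inr ⟨p, rfl⟩))⟩

end Pool.Agent.DI.E
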