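import Pool.Agent.Lib.DI.E.SpecE

/-! # Theorem DI, Part E, module `PiM`: multiplication by `π` commutes with `τ` -/

set_option autoImplicit false

open scoped Pointwise

noncomputable section

namespace Pool.Agent.DI.E

open Pool.Agent.MuZ Pool.Agent.FW

theorem PiM_map (τ : Gal(Om/ℚ)) {x y : Om} (h : (E0.baseChange Om).toAffine.Nonsingular x y) :
    ∃ h', mIo (mT τ (WeierstrassCurve.Affine.Point.some x y h)) =
      WeierstrassCurve.Affine.Point.some (io (τ x)) (io (τ y)) h' := ⟨_, rfl⟩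

theorem PiM_some {x y x' y' : ℂ} (h : (E0.baseChange ℂ).toAffine.Nonsingular x y)
    (h' : (E0.baseChange ℂ).toAffine.Nonsingular x' y') (e1 : x = x') (e2 : y = y') :
    WeierstrassCurve.Affine.Point.some x y h = WeierstrassCurve.Affine.Point.some x' y' h' := by
  subst e1
  subst e2
  rfl

theorem PiM_lat {z : ℂ} (h : Lat z) : Lat (wC * z) := by
  rw [← toC_pO]
  exact lat_mul pO h

theorem PiM_tor {z : ℂ} (h : Tor z) : Tor (wC * z) := by
  rw [← toC_pO]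
  exact tor_mul pO h

theorem PiM_zero {z : ℂ} (τ : Gal(Om/ℚ)) (h : Lat z) : mIo (mT τ (ptO z)) = 0 := by
  unfold ptO
  rw [if_pos h, _root_.map_zero, _root_.map_zero]

/-- The formulas for `π z`, pulled back to `Om`. -/
theorem PiM_pi (B : BF) {z : ℂ} (hz : Tor z) (hw : ¬ Lat (wC * z)) :
    xO (wC * z) * (wO ^ 2 * xO z - (1 - wO)) = xO z ^ 2 - wO ∧
      yO (wC * z) * (wO ^ 2 * xO z - (1 - wO)) ^ 2 =
        yO z * (wO * xO z ^ 2 - (1 - wO) ^ 2 * xO z + wO ^ 2) + xO z ^ 3 + xO z ^ 2 -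
          2 * xO z - 1 := by
  obtain ⟨h1, h2⟩ := B.pi z hw
  obtain ⟨e1, e2⟩ := B.io_x hz
  obtain ⟨e3, e4⟩ := B.io_x (PiM_tor hz)
  constructor
  · apply io_inj
    simp only [map_mul, map_sub, map_pow, map_one, io_wO, e1, e3]
    exact h1
  · apply io_inj
    simp only [map_mul, map_sub, map_add, map_pow, map_one, map_ofNat, io_wO, e1, e2, e4]
    exact h2

theorem ePiM : S_PiM := by
  intro hE hK _ B τ hτ z u hz h
  replace hK := hK hE B
  have hw := mem_GK_iff.1 hτ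
  by_cases hL : Lat z
  · rw [PiM_zero τ hL] at h
    have hu := (hK.2.2.2.1 u).1 h.symm
    rw [PiM_zero τ (PiM_lat hL), (hK.2.2.2.1 _).2 (PiM_lat hu)]
  obtain ⟨hns, e⟩ := hK.2.2.2.2 z hz hL
  rw [e] at h
  obtain ⟨h', e'⟩ := PiM_map τ hns
  rw [e'] at h
  have hLu : ¬ Lat u := by
    intro hu
    rw [(hK.2.2.2.1 u).2 hu] at h
    exact WeierstrassCurve.Affine.Point.some_ne_zero _ h
  obtain ⟨hu', eu⟩ := hK.1 u hLu
  rw [eu] at h
  injection h with g1 g2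
  obtain ⟨ex, ey⟩ := B.io_x hz
  have hiff : Lat (wC * z) ↔ Lat (wC * u) := by
    rw [← B.piL z hL, ← B.piL u hLu]
    have s1 : wC ^ 2 * XC z = 1 - wC ↔ wO ^ 2 * xO z = 1 - wO := by
      rw [← io_inj.eq_iff, map_mul, map_pow, map_sub, map_one, io_wO, ex]
    have s2 : wC ^ 2 * XC u = 1 - wC ↔ wO ^ 2 * τ (xO z) = 1 - wO := by
      rw [← io_inj.eq_iff, map_mul, map_pow, map_sub, map_one, io_wO, g1]
    have s3 : wO ^ 2 * xO z = 1 - wO ↔ wO ^ 2 * τ (xO z) = 1 - wO := by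
      rw [← τ.injective.eq_iff, map_mul, map_pow, map_sub, map_one, hw]
    rw [s1, s2, s3]
  by_cases hwz : Lat (wC * z)
  · rw [PiM_zero τ hwz, (hK.2.2.2.1 _).2 (hiff.1 hwz)]
  have hwu : ¬ Lat (wC * u) := fun h => hwz (hiff.2 h)
  obtain ⟨k1, k2⟩ := hK.2.2.2.2 _ (PiM_tor hz) hwz
  obtain ⟨k3, k4⟩ := PiM_map τ k1
  obtain ⟨k5, k6⟩ := hK.1 _ hwu
  rw [k2, k4, k6]
  have hne : wC ^ 2 * XC u - (1 - wC) ≠ 0 := by
    intro h0
    exact hwu ((B.piL u hLu).1 (sub_eq_zero.1 h0))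
  obtain ⟨p1, p2⟩ := PiM_pi B hz hwz
  obtain ⟨q1, q2⟩ := B.pi u hwu
  have r1 := congrArg (fun t => io (τ t)) p1
  have r2 := congrArg (fun t => io (τ t)) p2
  simp only [map_mul, map_sub, map_pow, map_one, hw, io_wO, g1] at r1
  simp only [map_mul, map_sub, map_add, map_pow, map_one, map_ofNat, hw, io_wO, g1, g2] at r2
  apply PiM_some
  · exact mul_right_cancel₀ hne (r1.trans q1.symm)
  · exact mul_right_cancel₀ (pow_ne_zero 2 hne) (r2.trans q2.symm)

end Pool.Agent.DI.E
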