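import Pool.Agent.Lib.DI.E.SpecE

/-! # Theorem DI, module E/PtA: additivity of the parametrisation (helper46) -/

set_option autoImplicit false

open scoped Pointwise

noncomputable section

namespace Pool.Agent.DI.E

open Pool.Agent.MuZ Pool.Agent.FW

private theorem PtA_a1 : (E0.baseChange ℂ).toAffine.a₁ = 1 := by
  simp [E0, WeierstrassCurve.baseChange, WeierstrassCurve.map]

private theorem PtA_a2 : (E0.baseChange ℂ).toAffine.a₂ = -1 := by
  simp [E0, WeierstrassCurve.baseChange, WeierstrassCurve.map]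

private theorem PtA_a3 : (E0.baseChange ℂ).toAffine.a₃ = 0 := by
  simp [E0, WeierstrassCurve.baseChange, WeierstrassCurve.map]

private theorem PtA_a4 : (E0.baseChange ℂ).toAffine.a₄ = -2 := by
  simp [E0, WeierstrassCurve.baseChange, WeierstrassCurve.map]

private theorem PtA_negY (x y : ℂ) : (E0.baseChange ℂ).toAffine.negY x y = -y - x := by
  rw [WeierstrassCurve.Affine.negY, PtA_a1, PtA_a3]
  ring

private theorem PtA_eq {x y x' y' : ℂ} {h : (E0.baseChange ℂ).toAffine.Nonsingular x y}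
    {h' : (E0.baseChange ℂ).toAffine.Nonsingular x' y'} (hx : x = x') (hy : y = y') :
    WeierstrassCurve.Affine.Point.some x y h = WeierstrassCurve.Affine.Point.some x' y' h' := by
  subst hx
  subst hy
  rfl

open Classical in
private theorem PtA_some (hE : S_PtE) (B : BF) {z : ℂ} (hz : ¬ Lat z) :
    ∃ h, ptC z = WeierstrassCurve.Affine.Point.some (XC z) (YC z) h := by
  have h : (E0.baseChange ℂ).toAffine.Nonsingular (XC z) (YC z) := (hE ℂ _ _).2 (B.eqn z hz)
  refine ⟨h, ?_⟩
  rw [ptC, if_neg hz, mkPt, dif_pos h]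

open Classical in
private theorem PtA_zero {z : ℂ} (hz : Lat z) : ptC z = 0 := by
  rw [ptC, if_pos hz]

open Classical in
private theorem PtA_congr (B : BF) {z z' : ℂ} (h : Lat (z - z')) : ptC z = ptC z' := by
  obtain ⟨h1, h2⟩ := B.X_eq h
  by_cases hz : Lat z
  · rw [PtA_zero hz, PtA_zero ((lat_sub_left_iff h).1 hz)]
  · have hz' : ¬ Lat z' := fun h3 => hz ((lat_sub_left_iff h).2 h3)
    rw [ptC, ptC, if_neg hz, if_neg hz', h1, h2]

open Classical in
theorem ePtA : S_PtA := by
  intro hE B z z'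
  by_cases hz : Lat z
  · rw [PtA_zero hz, zero_add]
    exact PtA_congr B (by rwa [add_sub_cancel_right])
  by_cases hz' : Lat z'
  · rw [PtA_zero hz', add_zero]
    exact PtA_congr B (by rwa [add_sub_cancel_left])
  obtain ⟨n1, e1⟩ := PtA_some hE B hz
  obtain ⟨n2, e2⟩ := PtA_some hE B hz'
  by_cases hs : Lat (z + z')
  · have h1 : Lat (z - -z') := by rwa [sub_neg_eq_add]
    obtain ⟨h2, h3⟩ := B.X_eq h1
    rw [(B.neg z').1] at h2
    rw [(B.neg z').2] at h3
    rw [e1, e2, PtA_zero hs]
    symm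
    exact WeierstrassCurve.Affine.Point.add_of_Y_eq h2 (by rw [PtA_negY]; exact h3)
  obtain ⟨n3, e3⟩ := PtA_some hE B hs
  by_cases hd : Lat (z - z')
  · obtain ⟨h1, h2⟩ := B.X_eq hd
    have hzz : Lat (z + z' - 2 * z) := by
      have := lat_neg hd
      have e : z + z' - 2 * z = -(z - z') := by ring
      rwa [e]
    have h2z : ¬ Lat (2 * z) := fun h3 => hs ((lat_sub_left_iff hzz).2 h3)
    obtain ⟨h3, h4⟩ := B.X_eq hzz
    obtain ⟨d1, d2⟩ := B.dbl z h2z
    have hY : YC z ≠ (E0.baseChange ℂ).toAffine.negY (XC z) (YC z) := by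
      rw [PtA_negY]
      intro h5
      exact h2z (B.two z hz (by linear_combination h5))
    have hsl : (E0.baseChange ℂ).toAffine.slope (XC z) (XC z) (YC z) (YC z) = lamT z := by
      rw [WeierstrassCurve.Affine.slope_of_Y_ne rfl hY, PtA_a1, PtA_a2, PtA_a4, PtA_negY, lamT]
      congr 1 <;> ring
    have e4 : ptC z' = WeierstrassCurve.Affine.Point.some (XC z) (YC z) n1 := by
      rw [e2]
      exact PtA_eq h1.symm h2.symm
    rw [e1, e4, e3, WeierstrassCurve.Affine.Point.add_self_of_Y_ne hY]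
    refine PtA_eq ?_ ?_
    · rw [hsl, WeierstrassCurve.Affine.addX, PtA_a1, PtA_a2, h3, d1]
      ring
    · rw [hsl, WeierstrassCurve.Affine.addY, WeierstrassCurve.Affine.negAddY, PtA_negY,
        WeierstrassCurve.Affine.addX, PtA_a1, PtA_a2, h4, d2, d1]
      ring
  · have hX : XC z ≠ XC z' := by
      intro h1
      rcases B.inj z z' hz hz' h1 with h2 | h2
      · exact hd h2
      · exact hs h2
    obtain ⟨d1, d2⟩ := B.add z z' hz hz' hd hs
    have hsl : (E0.baseChange ℂ).toAffine.slope (XC z) (XC z') (YC z) (YC z') = lam z z' := by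
      rw [WeierstrassCurve.Affine.slope_of_X_ne hX, lam]
    rw [e1, e2, e3, WeierstrassCurve.Affine.Point.add_of_X_ne hX]
    refine PtA_eq ?_ ?_
    · rw [hsl, WeierstrassCurve.Affine.addX, PtA_a1, PtA_a2, d1]
      ring
    · rw [hsl, WeierstrassCurve.Affine.addY, WeierstrassCurve.Affine.negAddY, PtA_negY,
        WeierstrassCurve.Affine.addX, PtA_a1, PtA_a2, d2, d1]
      ring

end Pool.Agent.DI.E
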