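import Pool.Agent.Lib.DI.E.SpecE

set_option autoImplicit false

open scoped Pointwise

noncomputable section

namespace Pool.Agent.DI.E

open Pool.Agent.MuZ Pool.Agent.FW

theorem ePtE : S_PtE := by
  intro F _ _ _ x y
  have h1 : (E0.baseChange F).a₁ = 1 := by
    simp [E0]
  have h2 : (E0.baseChange F).a₂ = -1 := by
    simp [E0]
  have h3 : (E0.baseChange F).a₃ = 0 := by
    simp [E0]
  have h4 : (E0.baseChange F).a₄ = -2 := by
    simp [E0]
  have h6 : (E0.baseChange F).a₆ = -1 := by
    simp [E0]
  have hΔ : (E0.baseChange F).Δ ≠ 0 := by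
    have : (E0.baseChange F).Δ = -343 := by
      simp only [WeierstrassCurve.Δ, WeierstrassCurve.b₂, WeierstrassCurve.b₄, WeierstrassCurve.b₆,
        WeierstrassCurve.b₈, h1, h2, h3, h4, h6]
      norm_num
    rw [this]
    norm_num
  have e : (E0.baseChange F).toAffine.Equation x y ↔ y ^ 2 + x * y = x ^ 3 - x ^ 2 - 2 * x - 1 := by
    rw [WeierstrassCurve.Affine.equation_iff, h1, h2, h3, h4, h6]
    constructor
    · intro h
      linear_combination h
    · intro h
      linear_combination h
  rw [← e]
  exact ((E0.baseChange F).toAffine.equation_iff_nonsingular_of_Δ_ne_zero hΔ).symm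

end Pool.Agent.DI.E
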