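import Pool.Agent.Lib.DI.E.SpecE

/-!
# THEOREM DI, Part E, module PtK: kernel, surjectivity, coordinates of `ptC`
-/

set_option autoImplicit false

open scoped Pointwise

noncomputable section

namespace Pool.Agent.DI.E

open Pool.Agent.MuZ Pool.Agent.FW

theorem PtK_some (hE : S_PtE) (B : BF) {z : ℂ} (hz : ¬ Lat z) :
    ∃ h, ptC z = WeierstrassCurve.Affine.Point.some (XC z) (YC z) h := by
  have h : (E0.baseChange ℂ).toAffine.Nonsingular (XC z) (YC z) := (hE ℂ _ _).2 (B.eqn z hz)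
  refine ⟨h, ?_⟩
  unfold ptC mkPt
  rw [if_neg hz, dif_pos h]

theorem PtK_zero {z : ℂ} (hz : Lat z) : ptC z = 0 := by
  unfold ptC
  rw [if_pos hz]

theorem PtK_ne (hE : S_PtE) (B : BF) {z : ℂ} (hz : ¬ Lat z) : ptC z ≠ 0 := by
  obtain ⟨h, h1⟩ := PtK_some hE B hz
  rw [h1]
  exact WeierstrassCurve.Affine.Point.some_ne_zero h

theorem PtK_iff (hE : S_PtE) (B : BF) (z : ℂ) : ptC z = 0 ↔ Lat z :=
  ⟨fun h => by_contra fun hz => PtK_ne hE B hz h, PtK_zero⟩

theorem PtK_eq (hE : S_PtE) (B : BF) (z z' : ℂ) : ptC z = ptC z' ↔ Lat (z - z') := by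
  constructor
  · intro h
    by_cases hz : Lat z
    · have hz' : Lat z' := (PtK_iff hE B z').1 (by rw [← h]; exact PtK_zero hz)
      exact lat_sub hz hz'
    · have hz' : ¬ Lat z' := fun h' => hz ((PtK_iff hE B z).1 (by rw [h]; exact PtK_zero h'))
      obtain ⟨h1, e1⟩ := PtK_some hE B hz
      obtain ⟨h2, e2⟩ := PtK_some hE B hz'
      rw [e1, e2, WeierstrassCurve.Affine.Point.some.injEq] at h
      obtain ⟨hx, hy⟩ := h
      rcases B.inj z z' hz hz' hx with h3 | h3
      · exact h3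
      · have h4 : YC z = - YC z' - XC z' := by
          rw [← (B.neg z').2]
          exact (B.X_eq (by rw [sub_neg_eq_add]; exact h3)).2
        have h5 : Lat (2 * z) := by
          apply B.two z hz
          rw [← hx, ← hy] at h4
          linear_combination h4
        have h6 : z - z' = 2 * z - (z + z') := by ring
        rw [h6]
        exact lat_sub h5 h3
  · intro h
    by_cases hz : Lat z
    · rw [PtK_zero hz, PtK_zero ((lat_sub_left_iff h).1 hz)]
    · have hz' : ¬ Lat z' := fun h' => hz ((lat_sub_left_iff h).2 h')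
      unfold ptC
      rw [if_neg hz, if_neg hz', (B.X_eq h).1, (B.X_eq h).2]

/-- PtK -/
theorem ePtK : S_PtK := by
  intro hE B
  refine ⟨fun z hz => PtK_some hE B hz, ?_, PtK_eq hE B, PtK_iff hE B, ?_⟩
  · intro P
    rcases P with _ | ⟨x, y, h⟩
    · exact ⟨0, PtK_zero lat_zero⟩
    · obtain ⟨z, hz, rfl, rfl⟩ := B.sur x y ((hE ℂ _ _).1 h)
      obtain ⟨h1, e1⟩ := PtK_some hE B hz
      exact ⟨z, e1⟩
  · intro z ht hz
    have h : (E0.baseChange Om).toAffine.Nonsingular (xO z) (yO z) := by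
      apply (hE Om _ _).2
      apply io_inj
      simp only [map_add, map_sub, map_mul, map_pow, map_one, map_ofNat]
      rw [(B.io_x ht).1, (B.io_x ht).2]
      exact B.eqn z hz
    refine ⟨h, ?_⟩
    unfold ptO mkPt
    rw [if_neg hz, dif_pos h]

end Pool.Agent.DI.E
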