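import Pool.Agent.Lib.DI.E.SpecE

set_option autoImplicit false

open scoped Pointwise

noncomputable section

namespace Pool.Agent.DI.E

open Pool.Agent.MuZ Pool.Agent.FW

open Classical in
private theorem PtO_some {x y x' y' : ℂ} {h : (E0.baseChange ℂ).toAffine.Nonsingular x y}
    {h' : (E0.baseChange ℂ).toAffine.Nonsingular x' y'} (hx : x = x') (hy : y = y') :
    (WeierstrassCurve.Affine.Point.some x y h : Pt ℂ) = WeierstrassCurve.Affine.Point.some x' y' h' := by
  subst hx hy
  rfl

theorem ePtO : S_PtO := by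
  classical
  intro hE hA hK B
  have hinj : Function.Injective mIo :=
    WeierstrassCurve.Affine.Point.map_injective (W' := E0) (S := ℚ) io.toRatAlgHom
  have h1 : ∀ z : ℂ, Tor z → mIo (ptO z) = ptC z := by
    intro z hz
    by_cases hL : Lat z
    · unfold ptO ptC
      rw [if_pos hL, if_pos hL, map_zero]
    · obtain ⟨h2, h3⟩ := (hK hE B).1 z hL
      obtain ⟨h4, h5⟩ := (hK hE B).2.2.2.2 z hz hL
      rw [h5, h3]
      unfold mIo
      rw [WeierstrassCurve.Affine.Point.map_some]
      exact PtO_some (B.io_x hz).1 (B.io_x hz).2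
  refine ⟨h1, ?_, hinj⟩
  intro z z' hz hz'
  apply hinj
  rw [map_add, h1 z hz, h1 z' hz', h1 (z + z') (tor_add hz hz')]
  exact hA hE B z z'

end Pool.Agent.DI.E
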