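import Pool.Agent.Lib.DI.E.SpecE

/-!
# Theorem DI, Part E, Shf: primitive representatives prime to `14 N`
-/

set_option autoImplicit false

open scoped Pointwise

noncomputable section

namespace Pool.Agent.DI.E

open Pool.Agent.MuZ Pool.Agent.FW

private theorem Shf_step1 (N : ℕ) (a : OO) (ha : Cop a N) :
    ∃ a1 : OO, (N : OO) ∣ a - a1 ∧ Cop a1 (14 * N) := by
  obtain ⟨m, hm2, hm7, hcop⟩ : ∃ m : ℕ, (2 ∣ N ∨ 2 ∣ m) ∧ (7 ∣ N ∨ 7 ∣ m) ∧ Nat.Coprime N m := by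
    by_cases h2 : 2 ∣ N <;> by_cases h7 : 7 ∣ N
    · exact ⟨1, Or.inl h2, Or.inl h7, Nat.coprime_one_right N⟩
    · exact ⟨7, Or.inl h2, Or.inr (dvd_refl 7),
        ((Nat.Prime.coprime_iff_not_dvd (by norm_num)).2 h7).symm⟩
    · exact ⟨2, Or.inr (dvd_refl 2), Or.inl h7,
        ((Nat.Prime.coprime_iff_not_dvd (by norm_num)).2 h2).symm⟩
    · refine ⟨2 * 7, Or.inr (dvd_mul_right 2 7), Or.inr (dvd_mul_left 7 2), ?_⟩
      exact Nat.Coprime.mul_right ((Nat.Prime.coprime_iff_not_dvd (by norm_num)).2 h2).symm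
        ((Nat.Prime.coprime_iff_not_dvd (by norm_num)).2 h7).symm
  obtain ⟨r, s, hrs⟩ : IsCoprime (N : ℤ) (m : ℤ) := Nat.isCoprime_iff_coprime.2 hcop
  have hrs' : (r : OO) * (N : OO) + (s : OO) * (m : OO) = 1 := by
    have h := congrArg (fun t : ℤ => (t : OO)) hrs
    push_cast at h
    exact h
  refine ⟨a + (N : OO) * (r : OO) * (1 - a), ⟨-((r : OO) * (1 - a)), by ring⟩, ?_⟩
  have hN : Cop (a + (N : OO) * (r : OO) * (1 - a)) N :=
    cop_congr ⟨-((r : OO) * (1 - a)), by ring⟩ ha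
  have hm : Cop (a + (N : OO) * (r : OO) * (1 - a)) m := by
    refine cop_congr (a := 1) ⟨(s : OO) * (1 - a), ?_⟩ (cop_one m)
    linear_combination (-(1 - a)) * hrs'
  have h2 : Cop (a + (N : OO) * (r : OO) * (1 - a)) 2 := by
    rcases hm2 with h | h
    · exact cop_dvd hN h
    · exact cop_dvd hm h
  have h7 : Cop (a + (N : OO) * (r : OO) * (1 - a)) 7 := by
    rcases hm7 with h | h
    · exact cop_dvd hN h
    · exact cop_dvd hm h
  unfold Cop at *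
  have e : ((14 * N : ℕ) : ℤ) = ((2 : ℕ) : ℤ) * ((7 : ℕ) : ℤ) * (N : ℤ) := by
    push_cast
    ring
  rw [e]
  exact (h2.mul_right h7).mul_right hN

private theorem Shf_step2 (M : ℕ) (hM : 0 < M) (b : OO) (hb : Cop b M) :
    ∃ b1 : OO, (M : OO) ∣ b - b1 ∧ Cop b1 M ∧ b1.im ≠ 0 := by
  by_cases h : b.im = 0
  · have hd : (M : OO) ∣ b - (b + (M : OO) * (⟨0, 1⟩ : OO)) := ⟨-(⟨0, 1⟩ : OO), by ring⟩
    refine ⟨b + (M : OO) * (⟨0, 1⟩ : OO), hd, cop_congr hd hb, ?_⟩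
    rw [QuadraticAlgebra.im_add, im_mul, re_nat, im_nat, h]
    have : (M : ℤ) ≠ 0 := by exact_mod_cast hM.ne'
    simpa using this
  · exact ⟨b, by simp, hb, h⟩

private theorem Shf_step3 (M : ℕ) (b : OO) (hb : Cop b M) (hy : b.im ≠ 0) :
    ∃ b1 : OO, (M : OO) ∣ b - b1 ∧ Cop b1 M ∧ ∀ l : ℕ, l.Prime → ¬ (l : OO) ∣ b1 := by
  classical
  obtain ⟨s, hs1, hs2⟩ : ∃ s : ℕ, (∀ l : ℕ, l.Prime → (l : ℤ) ∣ b.re → ¬ l ∣ s) ∧
      (∀ l : ℕ, l.Prime → (l : ℤ) ∣ b.im → ¬ (l : ℤ) ∣ b.re → l ∣ s) := by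
    refine ⟨∏ l ∈ b.im.natAbs.primeFactors.filter (fun l : ℕ => ¬ (l : ℤ) ∣ b.re), l, ?_, ?_⟩
    · intro l hl hx hd
      obtain ⟨q, hq, hlq⟩ := (Prime.dvd_finsetProd_iff (Nat.prime_iff.1 hl) _).1 hd
      rw [Finset.mem_filter] at hq
      have hqp : q.Prime := Nat.prime_of_mem_primeFactors hq.1
      have : l = q := (Nat.prime_dvd_prime_iff_eq hl hqp).1 hlq
      rw [this] at hx
      exact hq.2 hx
    · intro l hl hy' hx
      refine Finset.dvd_prod_of_mem (fun l => l) ?_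
      rw [Finset.mem_filter]
      refine ⟨?_, hx⟩
      rw [Nat.mem_primeFactors]
      refine ⟨hl, ?_, ?_⟩
      · exact Int.natCast_dvd.1 hy'
      · exact Int.natAbs_ne_zero.2 hy
  have hd : (M : OO) ∣ b - (b + (M : OO) * (s : OO)) := ⟨-(s : OO), by ring⟩
  refine ⟨b + (M : OO) * (s : OO), hd, cop_congr hd hb, ?_⟩
  intro l hl hdiv
  obtain ⟨h1, h2⟩ := (nat_dvd_iff l _).1 hdiv
  rw [QuadraticAlgebra.re_add, re_mul, re_nat, im_nat, re_nat, im_nat] at h1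
  rw [QuadraticAlgebra.im_add, im_mul, re_nat, im_nat, re_nat, im_nat] at h2
  have h1' : (l : ℤ) ∣ b.re + M * s := by
    have e : b.re + (↑M * ↑s - 2 * 0 * 0) = b.re + M * s := by ring
    rwa [e] at h1
  have h2' : (l : ℤ) ∣ b.im := by
    have e : b.im + (↑M * 0 + 0 * ↑s + 0 * 0) = b.im := by ring
    rwa [e] at h2
  have hlp : Prime (l : ℤ) := Nat.prime_iff_prime_int.1 hl
  by_cases hx : (l : ℤ) ∣ b.re
  · have h3 : (l : ℤ) ∣ (M : ℤ) * s := (dvd_add_right hx).1 h1'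
    rcases hlp.dvd_or_dvd h3 with h4 | h4
    · have h5 : (l : ℤ) ∣ Nm b := by
        unfold Nm
        refine dvd_add (dvd_add ?_ ?_) ?_
        · exact hx.trans (dvd_pow_self _ (by norm_num))
        · exact hx.mul_right _
        · exact (h2'.trans (dvd_pow_self _ (by norm_num))).mul_left _
      exact hlp.not_isUnit (IsCoprime.isUnit_of_dvd' hb h5 h4)
    · exact hs1 l hl hx (by exact_mod_cast h4)
  · have h3 : l ∣ s := hs2 l hl h2' hx
    have h4 : (l : ℤ) ∣ (M : ℤ) * s := by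
      have : (l : ℤ) ∣ (s : ℤ) := by exact_mod_cast h3
      exact this.mul_left _
    exact hx ((dvd_add_left h4).1 h1')

theorem eShf : S_Shf := by
  intro N a hN ha
  obtain ⟨a1, h1, h2⟩ := Shf_step1 N a ha
  obtain ⟨a2, h3, h4, h5⟩ := Shf_step2 (14 * N) (by omega) a1 h2
  obtain ⟨a3, h6, h7, h8⟩ := Shf_step3 (14 * N) a2 h4 h5
  refine ⟨a3, ?_, h7, h8⟩
  have hNM : (N : OO) ∣ ((14 * N : ℕ) : OO) := ⟨14, by push_cast; ring⟩
  have e : a - a3 = (a - a1) + (a1 - a2) + (a2 - a3) := by ring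
  rw [e]
  exact dvd_add (dvd_add h1 (hNM.trans h3)) (hNM.trans h6)

end Pool.Agent.DI.E
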