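import Pool.Agent.Lib.DI.E.SpecE

/-!
# THEOREM DI, Part E, module Srj7: surjectivity
-/

set_option autoImplicit false

open scoped Pointwise

noncomputable section

namespace Pool.Agent.DI.E

open Pool.Agent.MuZ Pool.Agent.FW

private theorem Srj7_unit {a : OO} (h : Nm a = 1) : a = 1 ∨ a = -1 := by
  have h4 := four_Nm a
  rw [h] at h4
  have him : a.im = 0 := by
    by_contra h0
    have h1 : 0 < a.im ^ 2 := by positivity
    nlinarith [sq_nonneg (2 * a.re + a.im)]
  rw [him] at h4
  have h5 : (a.re - 1) * (a.re + 1) = 0 := by nlinarith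
  rcases mul_eq_zero.1 h5 with h6 | h6
  · left
    apply OO.ext'
    · rw [re_one]
      linarith
    · rw [im_one, him]
  · right
    apply OO.ext'
    · rw [QuadraticAlgebra.re_neg, re_one]
      linarith
    · rw [QuadraticAlgebra.im_neg, im_one, him, neg_zero]

private theorem Srj7_claim (hA : S_A1) (hU : S_UPid) (hG : S_Gcd) (hF : S_FrQ) (h2 : S_E2)
    (N : ℕ) (hN : 0 < N) : ∀ (n : ℕ) (a : OO), (Nm a).toNat = n → Cop a (14 * N) →
      (∀ l : ℕ, l.Prime → ¬ (l : OO) ∣ a) → ∃ τ ∈ GK, Psi τ N a ∨ Psi τ N (-a) := by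
  intro n
  induction n using Nat.strong_induction_on with
  | _ n ih =>
    intro a hn hc hp
    have ha : a ≠ 0 := by
      rintro rfl
      exact hp 2 Nat.prime_two (dvd_zero _)
    have hpos := Nm_pos ha
    have hcast : ((Nm a).toNat : ℤ) = Nm a := Int.toNat_of_nonneg hpos.le
    by_cases h1 : Nm a = 1
    · refine ⟨1, GK.one_mem, ?_⟩
      rcases Srj7_unit h1 with rfl | rfl
      · exact Or.inl (psi_one N)
      · right
        rw [neg_neg]
        exact psi_one N
    · have hne : (Nm a).toNat ≠ 1 := by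
        intro h
        rw [h] at hcast
        exact h1 (by rw [← hcast]; rfl)
      obtain ⟨l, hl, hld⟩ := Nat.exists_prime_and_dvd hne
      have hld' : (l : ℤ) ∣ Nm a := by
        rw [← hcast]
        exact_mod_cast hld
      have hl14 : ¬ l ∣ 14 * N := by
        intro h
        have h3 : (l : ℤ) ∣ ((14 * N : ℕ) : ℤ) := by exact_mod_cast h
        have h4 : IsUnit (l : ℤ) := IsCoprime.isUnit_of_dvd' hc hld' h3
        exact (Nat.prime_iff_prime_int.1 hl).not_isUnit h4
      have hl2 : l ≠ 2 := by
        rintro rfl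
        exact hl14 ⟨7 * N, by ring⟩
      have hl7 : l ≠ 7 := by
        rintro rfl
        exact hl14 ⟨2 * N, by ring⟩
      have hlN : l.Coprime N := by
        rw [Nat.Prime.coprime_iff_not_dvd hl]
        exact fun h => hl14 (h.mul_left 14)
      obtain ⟨la, _, _, hla, ⟨b, hb⟩, _, _⟩ := hG hU a l hl hld' (hp l hl)
      have hNab : Nm a = l * Nm b := by rw [hb, Nm_mul, hla]
      have hb0 : b ≠ 0 := by
        rintro rfl
        exact ha (by rw [hb, mul_zero])
      have hbpos := Nm_pos hb0
      have hbcast : ((Nm b).toNat : ℤ) = Nm b := Int.toNat_of_nonneg hbpos.le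
      have hlt : (Nm b).toNat < n := by
        rw [← hn]
        zify
        rw [hbcast, hcast, hNab]
        have : (2 : ℤ) ≤ l := by exact_mod_cast hl.two_le
        nlinarith
      have hcb : Cop b (14 * N) := by
        unfold Cop at hc ⊢
        rw [hNab] at hc
        exact hc.of_mul_left_right
      have hpb : ∀ l' : ℕ, l'.Prime → ¬ (l' : OO) ∣ b := by
        intro l' hl' h
        exact hp l' hl' (by rw [hb]; exact h.mul_left la)
      obtain ⟨τb, hτb, hb'⟩ := ih _ hlt b rfl hcb hpb
      obtain ⟨Q, hQ, _, hM, hfr⟩ := hF hA la l hl hla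
      obtain ⟨τ, hτ, hfro⟩ := hfr hl7
      have h3 := h2 la l hl hl2 hl7 hla Q hQ hM τ hτ hfro N hN hlN
      refine ⟨τ * τb, GK.mul_mem hτ hτb, ?_⟩
      rw [hb]
      rcases h3 with h3 | h3 <;> rcases hb' with hb' | hb'
      · exact Or.inl (psi_mul h3 hb')
      · right
        have := psi_mul h3 hb'
        rwa [mul_neg] at this
      · right
        have := psi_mul h3 hb'
        rwa [neg_mul] at this
      · left
        have := psi_mul h3 hb'
        rwa [neg_mul_neg] at this

theorem eSrj7 : S_Srj7 := by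
  intro hA hU hG hF hS B h2 N a hN hc
  obtain ⟨a', hd, hc', hp⟩ := hS N a hN hc
  obtain ⟨τ, hτ, h⟩ := Srj7_claim hA hU hG hF h2 N hN _ a' rfl hc' hp
  refine ⟨τ, hτ, ?_⟩
  rcases h with h | h
  · left
    refine psi_congr B hN ?_ h
    rw [← neg_sub]
    exact (dvd_neg).2 hd
  · right
    refine psi_congr B hN ?_ h
    have e : -a' - -a = a - a' := by ring
    rw [e]
    exact hd

end Pool.Agent.DI.E
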