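import Pool.Agent.Lib.DI.E.SpecE

/-!
# THEOREM DI, Part E, module T1: existence of `a` with `Psi τ N a`
-/

set_option autoImplicit false

open scoped Pointwise

noncomputable section

namespace Pool.Agent.DI.E

open Pool.Agent.MuZ Pool.Agent.FW

/-- The torsion points. -/
private def T1_T : AddSubgroup ℂ where
  carrier := {z | Tor z}
  add_mem' := fun h h' => tor_add h h'
  zero_mem' := tor_zero
  neg_mem' := fun h => tor_neg h

private theorem T1_x0 : xO 0 = 1 / 4 := by
  have h : XC 0 = io (1 / 4 : Om) := by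
    unfold XC
    rw [PeriodPair.weierstrassP_zero, map_div₀, map_one, map_ofNat]
    ring
  unfold xO
  rw [h, ofC_io]

private theorem T1_y0 : yO 0 = -(1 / 8) := by
  have h : YC 0 = io (-(1 / 8) : Om) := by
    unfold YC XC
    rw [PeriodPair.weierstrassP_zero, PeriodPair.derivWeierstrassP_zero, map_neg, map_div₀,
      map_one, map_ofNat]
    ring
  unfold yO
  rw [h, ofC_io]

private theorem T1_cop {N : ℕ} (hN : 0 < N) (a : OO)
    (h : ∀ v : OO, (N : OO) ∣ a * v → (N : OO) ∣ v) : Cop a N := by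
  unfold Cop
  rw [Int.isCoprime_iff_gcd_eq_one]
  by_contra hg
  obtain ⟨l, hl, hd⟩ := Nat.exists_prime_and_dvd hg
  have hd' : (l : ℤ) ∣ (Int.gcd (Nm a) (N : ℤ) : ℤ) := by exact_mod_cast hd
  have h1 : (l : ℤ) ∣ Nm a := hd'.trans (Int.gcd_dvd_left ..)
  have h2 : (l : ℤ) ∣ (N : ℤ) := hd'.trans (Int.gcd_dvd_right ..)
  have h3 : l ∣ N := by exact_mod_cast h2
  obtain ⟨k, rfl⟩ := h3
  obtain ⟨c, hc⟩ := h1
  have hk : 0 < k := by
    rcases Nat.eq_zero_or_pos k with h0 | h0
    · rw [h0] at hN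
      simp at hN
    · exact h0
  have hk' : (k : ℂ) ≠ 0 := by exact_mod_cast hk.ne'
  have h4 : ((l * k : ℕ) : OO) ∣ (k : OO) * cjO a := by
    apply h
    refine ⟨(c : OO), ?_⟩
    have e : a * ((k : OO) * cjO a) = (k : OO) * (a * cjO a) := by ring
    rw [e, mul_cjO, hc]
    push_cast
    ring
  have h5 : (l : OO) ∣ cjO a := by
    obtain ⟨w, hw⟩ := h4
    refine ⟨w, toC_inj (mul_left_cancel₀ hk' ?_)⟩
    have h6 := congrArg toC hw
    rw [map_mul, map_mul, map_natCast, map_natCast] at h6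
    rw [h6, map_mul, map_natCast]
    push_cast
    ring
  have h6 : (l : OO) ∣ a := by
    have := dvd_cjO h5
    rwa [cjO_cjO, cjO_nat] at this
  have h7 : ((l * k : ℕ) : OO) ∣ (k : OO) := by
    apply h
    obtain ⟨w, hw⟩ := h6
    refine ⟨w, ?_⟩
    rw [hw]
    push_cast
    ring
  have h8 := ((nat_dvd_iff _ _).1 h7).1
  rw [re_nat] at h8
  have h9 : l * k ∣ k := by exact_mod_cast h8
  have h10 := Nat.le_of_dvd hk h9
  have h11 := hl.two_le
  nlinarith

open Classical in
theorem eT1 : S_T1 := by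
  intro hPtE hPtA hPtK hPtO hPiM B τ hτ N hN
  obtain ⟨K1, K2, K3, K4, K5⟩ := hPtK hPtE B
  obtain ⟨O1, O2, O3⟩ := hPtO hPtE hPtA hPtK B
  have A := hPtA hPtE B
  have PM := hPiM hPtE hPtK hPtO B τ hτ
  have hN' : (N : ℂ) ≠ 0 := by exact_mod_cast hN.ne'
  -- the two homomorphisms
  let Ch : ℂ →+ Pt ℂ := AddMonoidHom.mk' ptC A
  let Fh : T1_T →+ Pt ℂ := AddMonoidHom.mk' (fun z => mIo (mT τ (ptO z.1))) (by
    intro z z'
    change mIo (mT τ (ptO (z.1 + z'.1))) = _
    rw [O2 z.1 z'.1 z.2 z'.2, map_add, map_add])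
  have t1 : Tor (1 / N : ℂ) := by
    have := tor_div hN 1
    rwa [map_one] at this
  have t2 : Tor (wC / N : ℂ) := by
    have := tor_div hN pO
    rwa [toC_pO] at this
  obtain ⟨u, hu⟩ := K2 (mIo (mT τ (ptO (1 / N : ℂ))))
  have hu2 : mIo (mT τ (ptO (wC / N : ℂ))) = ptC (wC * u) := by
    have := PM (1 / N) u t1 hu.symm
    rwa [mul_one_div] at this
  have key : ∀ v : OO, mIo (mT τ (ptO (toC v / N))) = ptC (toC v * u) := by
    intro v
    have e1 : (⟨toC v / N, tor_div hN v⟩ : T1_T) =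
        v.re • (⟨1 / N, t1⟩ : T1_T) + v.im • (⟨wC / N, t2⟩ : T1_T) := by
      apply Subtype.ext
      change toC v / N = v.re • (1 / N : ℂ) + v.im • (wC / N : ℂ)
      rw [toC_apply, zsmul_eq_mul, zsmul_eq_mul]
      ring
    have e2 : toC v * u = v.re • u + v.im • (wC * u) := by
      rw [toC_apply, zsmul_eq_mul, zsmul_eq_mul]
      ring
    have e3 : Fh ⟨toC v / N, tor_div hN v⟩ = Ch (toC v * u) := by
      rw [e1, e2, map_add, map_add, map_zsmul, map_zsmul, map_zsmul, map_zsmul]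
      have e4 : Fh ⟨1 / N, t1⟩ = Ch u := hu.symm
      have e5 : Fh ⟨wC / N, t2⟩ = Ch (wC * u) := hu2
      rw [e4, e5]
    exact e3
  have hz0 : ∀ z : ℂ, Lat z → mIo (mT τ (ptO z)) = 0 := by
    intro z hz
    have : ptO z = 0 := if_pos hz
    rw [this, map_zero, map_zero]
  obtain ⟨a, ha⟩ : Lat (N * u) := by
    rw [← K4]
    have h1 := key (N : OO)
    rw [map_natCast, div_self hN'] at h1
    rw [← h1]
    exact hz0 1 ⟨1, by rw [map_one]⟩
  have hu3 : u = toC a / N := by
    rw [← ha]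
    field_simp
  have key' : ∀ v : OO, mIo (mT τ (ptO (toC v / N))) = ptC (toC (a * v) / N) := by
    intro v
    rw [key v, hu3, map_mul]
    congr 1
    ring
  -- points which are not in the lattice
  have main : ∀ v : OO, ¬ Lat (toC v / N) → ¬ Lat (toC (a * v) / N) ∧
      τ (xO (toC v / N)) = xO (toC (a * v) / N) ∧ τ (yO (toC v / N)) = yO (toC (a * v) / N) := by
    intro v hv
    obtain ⟨h, hh⟩ := K5 _ (tor_div hN v) hv
    have h1 := key' v
    rw [hh] at h1
    have h2 : ¬ Lat (toC (a * v) / N) := by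
      intro h3
      rw [(K4 _).2 h3] at h1
      exact WeierstrassCurve.Affine.Point.some_ne_zero _ h1
    obtain ⟨h', hh'⟩ := K1 _ h2
    rw [hh'] at h1
    have h4 : io (τ (xO (toC v / N))) = XC (toC (a * v) / N) ∧
        io (τ (yO (toC v / N))) = YC (toC (a * v) / N) := by
      have := WeierstrassCurve.Affine.Point.some.inj h1
      exact this
    have h5 := B.io_x (tor_div hN (a * v))
    refine ⟨h2, io_inj ?_, io_inj ?_⟩
    · rw [h4.1, h5.1]
    · rw [h4.2, h5.2]
  refine ⟨a, T1_cop hN a fun v hv => ?_, fun v => ?_⟩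
  · rw [← lat_div_iff hN] at hv ⊢
    by_contra h
    exact (main v h).1 hv
  · by_cases hv : Lat (toC v / N)
    · have hv2 : Lat (toC (a * v) / N) := by
        have := lat_mul a hv
        rwa [← mul_div_assoc, ← map_mul] at this
      have e1 := B.x_eq (z := toC v / N) (z' := 0) (by rwa [sub_zero])
      have e2 := B.x_eq (z := toC (a * v) / N) (z' := 0) (by rwa [sub_zero])
      rw [e1.1, e1.2, e2.1, e2.2, T1_x0, T1_y0]
      constructor
      · rw [map_div₀, map_one, map_ofNat]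
      · rw [map_neg, map_div₀, map_one, map_ofNat]
    · exact (main v hv).2

end Pool.Agent.DI.E
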