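import Pool.Agent.Lib.DI.E.SpecE

/-! Theorem DI, Part E, module ThC: the constant of the distribution is in `K`. -/

set_option autoImplicit false

open scoped Pointwise

noncomputable section

namespace Pool.Agent.DI.E

open Pool.Agent.MuZ Pool.Agent.FW

private theorem ThC_ne {μ : OO} (h : IsCoprime μ 2) : μ ≠ 0 := by
  rintro rfl
  obtain ⟨x, y, hxy⟩ := h
  have h1 : Nm (y * 2) = 1 := by
    have : y * 2 = 1 := by rw [← hxy]; ring
    rw [this, Nm_one]
  have h2 : Nm (2 : OO) = 4 := by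
    have := Nm_nat 2
    norm_num at this
    exact this
  rw [Nm_mul, h2] at h1
  omega

/-- Multiplication by `a`, `a b = 1` modulo the norm of `α`, on the `α`-torsion. -/
private theorem ThC_inv {α a b : OO} {n : ℕ} (hn : ((n : ℕ) : OO) = α * cjO α)
    (hab : (n : OO) ∣ a * b - 1) {y : ℂ} (hy : Lat (toC α * y)) : Lat (toC (a * b) * y - y) := by
  obtain ⟨k, hk⟩ := hab
  have h1 : a * b = cjO α * k * α + 1 := by
    have : a * b = (n : OO) * k + 1 := by rw [← hk]; ring
    rw [this, hn]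
    ring
  have h2 := lat_mul (cjO α * k) hy
  have e : toC (a * b) * y - y = toC (cjO α * k) * (toC α * y) := by
    rw [h1, map_add, map_one, map_mul toC (cjO α * k) α]
    ring
  rw [e]
  exact h2

private theorem ThC_sys {α a : OO} {R : Finset ℂ} (_hα : α ≠ 0) (ha : Cop a (Nm α).toNat)
    (hR : IsSys α R) [DecidableEq ℂ] :
    IsSys α (R.image (fun v => toC a * v)) ∧
      ∀ v ∈ R, ∀ v' ∈ R, toC a * v = toC a * v' → v = v' := by
  obtain ⟨b, -, hab⟩ := cop_inv ha
  have hn : (((Nm α).toNat : ℕ) : OO) = α * cjO α := by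
    rw [mul_cjO]
    have : ((Nm α).toNat : ℤ) = Nm α := Int.toNat_of_nonneg (Nm_nonneg α)
    exact_mod_cast congrArg (fun t : ℤ => (t : OO)) this
  have key : ∀ v ∈ R, ∀ v' ∈ R, Lat (toC a * v - toC a * v') → v = v' := by
    intro v hv v' hv' h
    apply hR.uni v hv v' hv'
    have h1 : Lat (toC α * (v - v')) := by
      rw [mul_sub]
      exact lat_sub (hR.mem v hv) (hR.mem v' hv')
    have h2 := ThC_inv hn hab h1
    have h3 := lat_mul b h
    have e : v - v' = toC b * (toC a * v - toC a * v') - (toC (a * b) * (v - v') - (v - v')) := by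
      rw [map_mul]
      ring
    rw [e]
    exact lat_sub h3 h2
  refine ⟨⟨?_, ?_, ?_⟩, ?_⟩
  · intro u hu
    obtain ⟨v, hv, rfl⟩ := Finset.mem_image.1 hu
    have e : toC α * (toC a * v) = toC a * (toC α * v) := by ring
    rw [e]
    exact lat_mul a (hR.mem v hv)
  · intro y hy
    have h1 : Lat (toC α * (toC b * y)) := by
      have e : toC α * (toC b * y) = toC b * (toC α * y) := by ring
      rw [e]
      exact lat_mul b hy
    obtain ⟨v, hv, hv2⟩ := hR.ex _ h1
    refine ⟨toC a * v, Finset.mem_image_of_mem _ hv, ?_⟩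
    have h2 := ThC_inv hn hab hy
    have h3 := lat_mul a hv2
    have e : y - toC a * v = toC a * (toC b * y - v) - (toC (a * b) * y - y) := by
      rw [map_mul]
      ring
    rw [e]
    exact lat_sub h3 h2
  · intro u hu u' hu' h
    obtain ⟨v, hv, rfl⟩ := Finset.mem_image.1 hu
    obtain ⟨v', hv', rfl⟩ := Finset.mem_image.1 hu'
    rw [key v hv v' hv' h]
  · intro v hv v' hv' h
    apply key v hv v' hv'
    rw [h, sub_self]
    exact lat_zero

theorem eThC : S_ThC := by
  classical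
  intro hThG hD8 hUEx hUNm B E μ S hμ2 hS α c hα hαμ hc
  have hμ : μ ≠ 0 := ThC_ne hμ2
  suffices h : ∀ τ ∈ GK, τ c = c by
    have h1 : c ∈ IntermediateField.fixedField KQ.fixingSubgroup := by
      rintro ⟨τ, hτ⟩
      exact h τ hτ
    rwa [InfiniteGalois.fixedField_fixingSubgroup] at h1
  intro τ hτ
  have hαN := Nm_pos hα
  have hμN := Nm_pos hμ
  have hprod : 0 < Nm (α * μ) := by
    rw [Nm_mul]
    exact mul_pos hαN hμN
  obtain ⟨p, hp1, hp⟩ := Nat.exists_infinite_primes ((Nm (α * μ)).toNat + 1)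
  have hp0 : 0 < p := hp.pos
  have hpC : (p : ℂ) ≠ 0 := by exact_mod_cast hp0.ne'
  obtain ⟨R, hR⟩ := hUEx.1 α hα
  set nα := (Nm α).toNat with hnα
  set nμ := (Nm μ).toNat with hnμ
  have hnα0 : 0 < nα := by omega
  have hnμ0 : 0 < nμ := by omega
  have hnαC : (nα : ℂ) ≠ 0 := by exact_mod_cast hnα0.ne'
  obtain ⟨a, ha⟩ := E τ hτ (p * nα * nμ) (by positivity)
  have haα : Cop a nα := cop_dvd ha.1 ⟨p * nμ, by ring⟩
  have hap : Cop a p := cop_dvd ha.1 ⟨nα * nμ, by ring⟩
  -- the point `z`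
  have hz0 : ∀ x : OO, Lat (toC (α * μ * x) / p) → Cop x p → False := by
    intro x hx hxp
    rw [lat_div_iff hp0] at hx
    obtain ⟨y, -, hy⟩ := cop_inv hxp
    have h1 : (p : OO) ∣ α * μ := by
      have h2 : (p : OO) ∣ α * μ * x * y := hx.mul_right y
      have h3 : (p : OO) ∣ α * μ * (x * y - 1) := hy.mul_left _
      have e : α * μ = α * μ * x * y - α * μ * (x * y - 1) := by ring
      rw [e]
      exact dvd_sub h2 h3
    have h2 := Nm_dvd h1
    rw [Nm_nat] at h2
    have h3 := Int.le_of_dvd hprod h2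
    have h4 : Nm (α * μ) + 1 ≤ p := by
      have : ((Nm (α * μ)).toNat : ℤ) = Nm (α * μ) := Int.toNat_of_nonneg hprod.le
      have h5 : (((Nm (α * μ)).toNat + 1 : ℕ) : ℤ) ≤ p := by exact_mod_cast hp1
      push_cast at h5
      linarith
    nlinarith
  have hz1 : ¬ Lat (toC (α * μ) * (1 / (p : ℂ))) := by
    intro h
    refine hz0 1 ?_ (cop_one p)
    rw [mul_one]
    convert h using 1
    ring
  have hz2 : ¬ Lat (toC (α * μ) * (toC a * (1 / (p : ℂ)))) := by
    intro h
    refine hz0 a ?_ hap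
    convert h using 1
    rw [map_mul toC (α * μ) a]
    ring
  have hzT : Tor (1 / (p : ℂ)) := ⟨1, p, hp0, by rw [map_one]⟩
  have hTh : ∀ y : ℂ, (∃ x : OO, y = toC x / ((p * nα : ℕ) : ℂ)) →
      τ (Theta μ S y) = Theta μ S (toC a * y) := by
    rintro y ⟨x, rfl⟩
    have h1 := hThG B μ S hμ2 hS τ hτ (p * nα) a x (by positivity) ha
    rw [h1, map_mul, mul_div_assoc]
  obtain ⟨hR', hinj⟩ := ThC_sys hα haα hR
  have h1 := hc R hR (1 / p) hzT hz1
  have h2 := hc _ hR' (toC a * (1 / p)) (tor_mul a hzT) hz2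
  rw [Finset.prod_image (fun v hv v' hv' h => hinj v hv v' hv' h)] at h2
  have h3 := congrArg τ h1
  rw [map_mul, map_prod] at h3
  have h4 : ∀ v ∈ R, τ (Theta μ S (1 / (p : ℂ) + v)) =
      Theta μ S (toC a * (1 / (p : ℂ)) + toC a * v) := by
    intro v hv
    rw [← mul_add]
    apply hTh
    obtain ⟨x, hx⟩ := eq_div_of_Lat hα (hR.mem v hv)
    refine ⟨(nα : OO) + p * x, ?_⟩
    rw [hx, map_add, map_mul, map_natCast, map_natCast, ← hnα]
    push_cast
    field_simp
  rw [Finset.prod_congr rfl h4, h2] at h3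
  have h5 : τ (Theta μ S (toC α * (1 / (p : ℂ)))) =
      Theta μ S (toC α * (toC a * (1 / (p : ℂ)))) := by
    rw [hTh _ ⟨α * nα, ?_⟩]
    · congr 1
      ring
    · rw [map_mul, map_natCast]
      push_cast
      field_simp
  rw [h5] at h3
  have h6 : Theta μ S (toC α * (toC a * (1 / (p : ℂ)))) ≠ 0 := by
    refine ((hD8 μ S S hS hS _ (tor_mul α (tor_mul a hzT))).2.2.2) ?_
    intro h
    apply hz2
    convert h using 1
    rw [map_mul]
    ring
  exact (mul_right_cancel₀ h6 h3).symm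

end Pool.Agent.DI.E
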