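import Pool.Agent.Lib.DI.E.SpecE

set_option autoImplicit false

/-!
# THEOREM DI, Part E, module Tors: torsion points of the Mathlib curve
-/

open scoped Pointwise nonZeroDivisors

noncomputable section

namespace Pool.Agent.DI.E

open Pool.Agent.MuZ Pool.Agent.FW NumberField IsDedekindDomain

private theorem Tors_curve : Ecurve = E0.baseChange Om := by
  ext <;> simp [Ecurve, E0, WeierstrassCurve.map]

open Classical in
private theorem Tors_smul (hA : ∀ z z' : ℂ, ptC (z + z') = ptC z + ptC z') (z : ℂ) (n : ℕ) :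
    ptC ((n : ℂ) * z) = n • ptC z := by
  induction n with
  | zero =>
    rw [Nat.cast_zero, zero_mul, zero_smul]
    unfold ptC
    rw [if_pos lat_zero]
  | succ n ih =>
    rw [Nat.cast_add, Nat.cast_one, add_mul, one_mul, hA, ih, succ_nsmul]

open Classical in
private theorem Tors_main (h1 : S_PtE) (h2 : S_PtA) (h3 : S_PtK) (h4 : S_PtO) (B : BF)
    (W : WeierstrassCurve Om) (hW : W = E0.baseChange Om) (x y : Om)
    (h : W.toAffine.Nonsingular x y) (n : ℕ) (hn : 0 < n)
    (h0 : n • (WeierstrassCurve.Affine.Point.some x y h) = 0) :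
    ∃ v : OO, x = xO (toC v / n) ∧ y = yO (toC v / n) := by
  subst hW
  have hA := h2 h1 B
  obtain ⟨k1, k2, _, k4, _⟩ := h3 h1 B
  obtain ⟨_, _, o3⟩ := h4 h1 h2 h3 B
  have hn0 : (n : ℂ) ≠ 0 := Nat.cast_ne_zero.2 hn.ne'
  obtain ⟨z, hz⟩ := k2 (mIo (WeierstrassCurve.Affine.Point.some x y h))
  have hL : Lat ((n : ℂ) * z) := by
    rw [← k4, Tors_smul hA, hz, ← map_nsmul, h0, map_zero]
  obtain ⟨v, hv⟩ := hL
  have hzv : z = toC v / n := by
    rw [← hv, mul_div_cancel_left₀ _ hn0]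
  have hTor : Tor z := ⟨v, n, hn, hzv⟩
  have hnL : ¬ Lat z := by
    intro hL
    rw [(k4 z).2 hL] at hz
    have e : WeierstrassCurve.Affine.Point.some x y h = 0 := o3 (by rw [← hz, map_zero])
    exact WeierstrassCurve.Affine.Point.some_ne_zero h e
  obtain ⟨h', hC⟩ := k1 z hnL
  rw [hC] at hz
  obtain ⟨h'', hmap⟩ : ∃ h'', mIo (WeierstrassCurve.Affine.Point.some x y h) =
      WeierstrassCurve.Affine.Point.some (io x) (io y) h'' :=
    ⟨_, WeierstrassCurve.Affine.Point.map_some (W' := E0) (S := ℚ) io.toRatAlgHom h⟩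
  rw [hmap] at hz
  have e1 : XC z = io x := by
    injection hz
  have e2 : YC z = io y := by
    injection hz
  obtain ⟨b1, b2⟩ := B.io_x hTor
  refine ⟨v, ?_, ?_⟩
  · rw [← hzv]
    apply io_inj
    rw [b1, e1]
  · rw [← hzv]
    apply io_inj
    rw [b2, e2]

open Classical in
theorem eTors : S_Tors := fun h1 h2 h3 h4 B x y h n hn h0 =>
  Tors_main h1 h2 h3 h4 B Ecurve Tors_curve x y h n hn h0

end Pool.Agent.DI.E
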