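import Pool.Agent.Lib.DI.E.SpecE

set_option autoImplicit false

/-!
# Theorem DI, Part E: uniqueness of `a`
-/

open scoped Pointwise

noncomputable section

namespace Pool.Agent.DI.E

open Pool.Agent.MuZ Pool.Agent.FW

theorem Uq1_not_lat {N : ℕ} (hN : 0 < N) (hN1 : N ≠ 1) {a : OO} (ha : Cop a N) :
    ¬ Lat (toC a / N) := by
  rw [lat_div_iff hN]
  intro hd
  have h1 := Nm_dvd hd
  rw [Nm_nat] at h1
  have h2 : (N : ℤ) ∣ Nm a := (dvd_pow_self (N : ℤ) two_ne_zero).trans h1
  have h3 : IsUnit (N : ℤ) := IsCoprime.isUnit_of_dvd' ha h2 dvd_rfl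
  rcases Int.isUnit_iff.1 h3 with h4 | h4
  · exact hN1 (by exact_mod_cast h4)
  · omega

theorem eUq1 : S_Uq1 := by
  intro B τ N a a' hN h h'
  by_cases hN1 : N = 1
  · subst hN1
    exact ⟨a - a', by push_cast; rw [one_mul]⟩
  have hz := Uq1_not_lat hN hN1 h.1
  have hz' := Uq1_not_lat hN hN1 h'.1
  have e1 := h.2 1
  have e2 := h'.2 1
  rw [mul_one] at e1 e2
  have hx : xO (toC a / N) = xO (toC a' / N) := e1.1.symm.trans e2.1
  have hy : yO (toC a / N) = yO (toC a' / N) := e1.2.symm.trans e2.2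
  have hX : XC (toC a / N) = XC (toC a' / N) := by
    rw [← (B.io_x (tor_div hN a)).1, ← (B.io_x (tor_div hN a')).1, hx]
  have hY : YC (toC a / N) = YC (toC a' / N) := by
    rw [← (B.io_x (tor_div hN a)).2, ← (B.io_x (tor_div hN a')).2, hy]
  have hfin : Lat (toC a / N - toC a' / N) → (N : OO) ∣ a - a' := by
    intro hl
    rw [← sub_div, ← map_sub] at hl
    exact (lat_div_iff hN _).1 hl
  rcases B.inj _ _ hz hz' hX with h1 | h1
  · exact hfin h1
  · apply hfin
    have h2 : Lat (toC a / N - -(toC a' / N)) := by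
      rw [sub_neg_eq_add]
      exact h1
    have h3 := (B.X_eq h2).2
    rw [(B.neg _).2] at h3
    have h4 : 2 * YC (toC a / N) + XC (toC a / N) = 0 := by
      rw [← hX, ← hY] at h3
      linear_combination h3
    have h5 := B.two _ hz h4
    have h6 : toC a / N - toC a' / N = 2 * (toC a / N) - (toC a / N + toC a' / N) := by ring
    rw [h6]
    exact lat_sub h5 h1

end Pool.Agent.DI.E
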