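import Pool.Agent.Lib.DI.E.MkBF
import Pool.Agent.Lib.DI.E.MkDF
import Pool.Agent.Lib.DI.E.PtE
import Pool.Agent.Lib.DI.E.PtA
import Pool.Agent.Lib.DI.E.PtK
import Pool.Agent.Lib.DI.E.PtO
import Pool.Agent.Lib.DI.E.Tors
import Pool.Agent.Lib.DI.E.PiM
import Pool.Agent.Lib.DI.E.T1
import Pool.Agent.Lib.DI.E.Uq1
import Pool.Agent.Lib.DI.E.Fr2
import Pool.Agent.Lib.DI.E.Fr3
import Pool.Agent.Lib.DI.E.In4
import Pool.Agent.Lib.DI.E.Nrm5
import Pool.Agent.Lib.DI.E.FrQ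
import Pool.Agent.Lib.DI.E.Gcd
import Pool.Agent.Lib.DI.E.Deg
import Pool.Agent.Lib.DI.E.KFin
import Pool.Agent.Lib.DI.E.Gen
import Pool.Agent.Lib.DI.E.OpN
import Pool.Agent.Lib.DI.E.Cyc6
import Pool.Agent.Lib.DI.E.Shf
import Pool.Agent.Lib.DI.E.Srj7
import Pool.Agent.Lib.DI.E.Fix8
import Pool.Agent.Lib.DI.E.Ab8
import Pool.Agent.Lib.DI.E.Cj9
import Pool.Agent.Lib.DI.E.Inr9
import Pool.Agent.Lib.DI.E.Nor9
import Pool.Agent.Lib.DI.E.ThG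
import Pool.Agent.Lib.DI.E.ThC
import Pool.Agent.Lib.DI.Util.UPid
import Pool.Agent.Lib.DI.Util.UNm
import Pool.Agent.Lib.DI.Util.UEx
import Pool.Agent.Lib.DI.Util.UHN
import Pool.Agent.Lib.FW.G.Ine
import Pool.Agent.Lib.FW.Fr.FrE
import Pool.Agent.Lib.FW.Fr.FrC
import Pool.Agent.Lib.FW.R.Lie

/-!
# Theorem DI, Part E (E1 - E6, E9, E15): assembly

The results of Part E from the statements of Parts B and D.
-/

set_option autoImplicit false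

open scoped Pointwise nonZeroDivisors

noncomputable section

namespace Pool.Agent.DI.E

open Pool.Agent.MuZ Pool.Agent.FW NumberField IsDedekindDomain

/-- The statements of Part B which are used. -/
structure InB : Prop where
  b0 : S_B0
  b1 : S_B1
  b2 : S_B2
  b3 : S_B3
  b4 : S_B4
  b5 : S_B5
  b6 : S_B6
  b7 : S_B7
  b8 : S_B8
  b9 : S_B9
  b12 : S_B12
  b13 : S_B13
  a1 : S_A1

/-- The statements of Part D which are used. -/
structure InD : Prop where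
  d1 : S_D1
  d2 : S_D2
  d4 : S_D4
  d8 : S_D8

theorem InB.bf (h : InB) : BF :=
  eMkBF h.b0 h.b1 h.b2 h.b3 h.b4 h.b5 h.b6 h.b7 h.b8 h.b9 h.b12 h.b13

theorem InD.df (h : InD) : DF := eMkDF h.d1 h.d2 h.d4

theorem tEx (hB : InB) : Ex := eT1 ePtE ePtA ePtK ePtO ePiM hB.bf

theorem tUq (hB : InB) : Uq := eUq1 hB.bf

theorem tE1 (hB : InB) : S_E1 := ⟨tEx hB, tUq hB⟩

theorem tE2 (hB : InB) (hD : InD) : S_E2 := eFr2 hB.bf hD.df (tEx hB)

theorem tE3 (hB : InB) (hD : InD) : S_E3 := eFr3 hB.bf hD.df (tEx hB)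

theorem tE4 (hB : InB) (hD : InD) : S_E4 := eIn4 hB.bf hD.df (tEx hB)

theorem tE5 (hB : InB) : S_E5 := eNrm5 hB.bf

theorem tE6 (hB : InB) (hD : InD) : S_E6 :=
  eCyc6 eOpN (eGen eKFin tUPid eGcd eDeg tLie tFrE tFrC) hB.bf (tEx hB) (tUq hB) (tE2 hB hD)

theorem tE7 (hB : InB) (hD : InD) : S_E7 :=
  eSrj7 hB.a1 tUPid eGcd eFrQ eShf hB.bf (tE2 hB hD)

theorem tE8 (hB : InB) : S_E8 := eFix8 eKFin eOpN hB.bf (tEx hB) (tUq hB)

theorem tE9 (hB : InB) (hD : InD) : S_E9 :=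
  eNor9 hB.a1 tUHN eAb8 eCj9 hB.bf (tEx hB) (tUq hB)
    (eInr9 tIne tUHN (tE4 hB hD) (tE8 hB))

theorem tE15 (hB : InB) (hD : InD) : S_E15 := fun μ S hμ hS =>
  ⟨eThG hB.bf μ S hμ hS, eThC eThG hD.d8 tUEx tUNm hB.bf (tEx hB) μ S hμ hS⟩

open Classical in
/-- The torsion points of the curve. -/
theorem tTors (hB : InB) : ∀ (x y : Om) (h : Ecurve.toAffine.Nonsingular x y) (n : ℕ), 0 < n →
    n • (WeierstrassCurve.Affine.Point.some x y h) = 0 →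
    ∃ v : OO, x = xO (toC v / n) ∧ y = yO (toC v / n) :=
  eTors ePtE ePtA ePtK ePtO hB.bf

end Pool.Agent.DI.E
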