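import Pool.Agent.Lib.DI.E.SpecE

/-!
# Theorem DI, part E, module FrQ: existence of Frobenius elements
-/

set_option autoImplicit false

open scoped Pointwise

noncomputable section

namespace Pool.Agent.DI.E

open Pool.Agent.MuZ Pool.Agent.FW

private lemma FrQ_alg : Algebra.IsAlgebraic ℚ Om := by
  have h : @Algebra.IsAlgebraic ℚ Om _ _ (AlgebraicClosure.instAlgebra ℚ) :=
    AlgebraicClosure.isAlgebraic ℚ
  have e : (AlgebraicClosure.instAlgebra ℚ : Algebra ℚ Om) = DivisionRing.toRatAlgebra :=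
    Subsingleton.elim _ _
  rw [e] at h
  exact h

private lemma FrQ_gal : IsGalois ℚ Om := by
  have : IsAlgClosure ℚ Om := ⟨inferInstance, FrQ_alg⟩
  infer_instance

private lemma FrQ_inv : Algebra.IsInvariant ℤ ZZ Gal(Om/ℚ) := by
  have := FrQ_gal
  refine ⟨fun b hb => ?_⟩
  have h1 : (b : Om) ∈ Set.range (algebraMap ℚ Om) := by
    rw [InfiniteGalois.mem_range_algebraMap_iff_fixed]
    intro f
    have h := congrArg (Subtype.val) (hb f)
    exact h
  obtain ⟨q, hq⟩ := h1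
  have h2 : IsIntegral ℤ q := by
    have h3 : IsIntegral ℤ (algebraMap ℚ Om q) := by
      rw [hq]
      exact b.2
    exact (isIntegral_algebraMap_iff (algebraMap ℚ Om).injective).1 h3
  obtain ⟨a, ha⟩ := IsIntegrallyClosed.isIntegral_iff.1 h2
  refine ⟨a, Subtype.ext ?_⟩
  rw [← hq, ← ha]
  exact IsScalarTower.algebraMap_apply ℤ ℚ Om a

private lemma FrQ_root (l : ℕ) (hl : 0 < l) (x : ZZ) : ∃ y : ZZ, y ^ l = x := by
  obtain ⟨y, hy⟩ := IsAlgClosed.exists_pow_nat_eq (x : Om) hl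
  have h1 : IsIntegral ℤ y := by
    have h2 : IsIntegral ℤ (y ^ l) := by
      rw [hy]
      exact x.2
    exact IsIntegral.of_pow hl h2
  exact ⟨⟨y, h1⟩, Subtype.ext hy⟩

private lemma FrQ_fermat (l : ℕ) (hl : l.Prime) (z : ℤ) : (l : ℤ) ∣ z ^ l - z := by
  have : Fact l.Prime := ⟨hl⟩
  rw [← ZMod.intCast_zmod_eq_zero_iff_dvd]
  push_cast
  rw [ZMod.pow_card, sub_self]

/-- A Frobenius element over `ℚ` at the prime `P` above `l`. -/
private theorem FrQ_frob (l : ℕ) (hl : l.Prime) (P : Ideal ZZ) (hP : P.IsPrime)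
    (hlP : (l : ZZ) ∈ P) : ∃ σ : Gal(Om/ℚ), Fro P l σ := by
  have hlF : Fact l.Prime := ⟨hl⟩
  have hgal := FrQ_gal
  have halg := FrQ_alg
  let _ : TopologicalSpace ZZ := ⊥
  have : DiscreteTopology ZZ := ⟨rfl⟩
  have : Algebra.IsInvariant ℤ ZZ Gal(Om/ℚ) := FrQ_inv
  have : ContinuousSMul Gal(Om/ℚ) ZZ := by
    rw [continuousSMul_iff_stabilizer_isOpen]
    intro x
    have h1 := stabilizer_isOpen_of_isIntegral (K := ℚ) (x : Om)
    have h2 : (MulAction.stabilizer Gal(Om/ℚ) x : Set Gal(Om/ℚ)) =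
        (MulAction.stabilizer Gal(Om/ℚ) (x : Om) : Set Gal(Om/ℚ)) := by
      ext g
      rw [SetLike.mem_coe, SetLike.mem_coe, MulAction.mem_stabilizer_iff,
        MulAction.mem_stabilizer_iff]
      exact Subtype.ext_iff
    rw [h2]
    exact h1
  have : P.LiesOver (P.under ℤ) := ⟨rfl⟩
  have hchar : CharP (ZZ ⧸ P) l := by
    have h1 : ((l : ℕ) : ZZ ⧸ P) = 0 := by
      rw [← map_natCast (Ideal.Quotient.mk P), Ideal.Quotient.eq_zero_iff_mem]
      exact hlP
    exact (CharP.charP_iff_prime_eq_zero hl).2 h1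
  -- the Frobenius automorphism of the residue ring
  let φ : (ZZ ⧸ P) →ₐ[ℤ ⧸ P.under ℤ] (ZZ ⧸ P) :=
    { frobenius (ZZ ⧸ P) l with
      commutes' := by
        intro r
        obtain ⟨z, rfl⟩ := Ideal.Quotient.mk_surjective r
        change (algebraMap (ℤ ⧸ P.under ℤ) (ZZ ⧸ P) (Ideal.Quotient.mk _ z)) ^ l = _
        rw [← map_pow, ← map_pow, ← sub_eq_zero, ← map_sub, ← map_sub]
        have h1 : z ^ l - z ∈ P.under ℤ := by
          obtain ⟨w, hw⟩ := FrQ_fermat l hl z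
          rw [hw]
          refine Ideal.mul_mem_right _ _ ?_
          rw [Ideal.under_def, Ideal.mem_comap]
          simpa using hlP
        rw [Ideal.Quotient.eq_zero_iff_mem.2 h1, map_zero] }
  have hφ : ∀ x, φ x = x ^ l := fun x => rfl
  have hbij : Function.Bijective φ := by
    constructor
    · intro x y hxy
      rw [hφ, hφ, ← sub_eq_zero, ← sub_pow_char] at hxy
      exact sub_eq_zero.1 (pow_eq_zero_iff hl.pos.ne' |>.1 hxy)
    · intro x
      obtain ⟨z, rfl⟩ := Ideal.Quotient.mk_surjective x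
      obtain ⟨y, hy⟩ := FrQ_root l hl.pos z
      exact ⟨Ideal.Quotient.mk P y, by rw [hφ, ← map_pow, hy]⟩
  obtain ⟨σ, hσ⟩ := Ideal.Quotient.stabilizerHom_surjective_of_profinite (G := Gal(Om/ℚ))
    (P.under ℤ) P (AlgEquiv.ofBijective φ hbij)
  have hσ' : ∀ x : ZZ, (σ : Gal(Om/ℚ)) • x - x ^ l ∈ P := by
    intro x
    rw [← Ideal.Quotient.eq, map_pow]
    exact DFunLike.congr_fun hσ (Ideal.Quotient.mk P x)
  exact ⟨σ, hσ'⟩

/-- There is a prime of `ZZ` above every prime number. -/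
private theorem FrQ_above (l : ℕ) (hl : l.Prime) : ∃ Q : Ideal ZZ, Npr Q ∧ (l : ZZ) ∈ Q := by
  have hmax : (Ideal.span {(l : ℤ)}).IsMaximal :=
    PrincipalIdealRing.isMaximal_of_irreducible (Nat.prime_iff_prime_int.1 hl).irreducible
  obtain ⟨Q, hQ, hQl⟩ := Ideal.exists_ideal_over_maximal_of_isIntegral (S := ZZ)
    (Ideal.span {(l : ℤ)}) (by
      intro x hx
      rw [RingHom.mem_ker] at hx
      have h1 : ((x : ℤ) : ZZ) = 0 := hx
      have h2 : x = 0 := Int.cast_eq_zero.1 h1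
      rw [h2]
      exact Ideal.zero_mem _)
  have hlQ : (l : ZZ) ∈ Q := by
    have h1 : (l : ℤ) ∈ Q.comap (algebraMap ℤ ZZ) := by
      rw [hQl]
      exact Ideal.mem_span_singleton_self _
    rw [Ideal.mem_comap] at h1
    simpa using h1
  refine ⟨Q, ⟨hQ.isPrime, ?_⟩, hlQ⟩
  rintro rfl
  have h1 : (l : ZZ) = 0 := hlQ
  exact hl.ne_zero (Nat.cast_injective (R := ZZ) (by rw [h1, Nat.cast_zero]))

private theorem FrQ_wint : IsIntegral ℤ wO := by
  refine ⟨Polynomial.X ^ 2 - Polynomial.X + Polynomial.C 2, ?_, ?_⟩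
  · monicity!
  · simp only [Polynomial.eval₂_add, Polynomial.eval₂_sub, Polynomial.eval₂_pow,
      Polynomial.eval₂_X, Polynomial.eval₂_C, wO_sq]
    simp

private theorem FrQ_toO_int (v : OO) : IsIntegral ℤ (toO v) := by
  change IsIntegral ℤ ((v.re : Om) + v.im * wO)
  exact (isIntegral_algebraMap (R := ℤ) (x := v.re)).add
    ((isIntegral_algebraMap (R := ℤ) (x := v.im)).mul FrQ_wint)

theorem eFrQ : S_FrQ := by
  rintro ⟨c, hc⟩ la l hl hla
  obtain ⟨Q₀, hQ₀, hlQ₀⟩ := FrQ_above l hl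
  have hP₀ : Q₀.IsPrime := hQ₀.1
  have hcj : ∀ v : OO, c (toO v) = toO (cjO v) := fun v => by
    apply io_inj
    rw [hc, io_toO, io_toO, conj_toC]
  have hprod : MP Q₀ (toO la * toO (cjO la)) := by
    rw [← map_mul, mul_cjO, hla]
    have h1 : toO ((l : ℤ) : OO) = ((l : ZZ) : Om) := by
      rw [map_intCast]
      simp
    rw [h1]
    exact (MP.coe_iff (P := Q₀) (l : ZZ)).2 hlQ₀
  obtain ⟨Q, hQ, hlQ, hlaQ⟩ : ∃ Q : Ideal ZZ, Npr Q ∧ (l : ZZ) ∈ Q ∧ MP Q (toO la) := by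
    rcases MP.mul_cases (VP.integral (FrQ_toO_int la)) (VP.integral (FrQ_toO_int (cjO la)))
      hprod with h | h
    · exact ⟨Q₀, hQ₀, hlQ₀, h⟩
    · have h1 : (l : ZZ) ∈ c • Q₀ := by
        have h2 : c • (l : ZZ) ∈ c • Q₀ := Ideal.smul_mem_pointwise_smul c _ Q₀ hlQ₀
        have h3 : c • (l : ZZ) = (l : ZZ) :=
          map_natCast (MulSemiringAction.toRingHom Gal(Om/ℚ) ZZ c) l
        rwa [h3] at h2
      refine ⟨c • Q₀, ⟨hQ₀.1.smul c, ?_⟩, h1, ?_⟩
      · intro h0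
        rw [h0] at h1
        have h2 : (l : ZZ) = 0 := h1
        exact hl.ne_zero (Nat.cast_injective (R := ZZ) (by rw [h2, Nat.cast_zero]))
      · have h2 := (MP.smul (P := Q₀) c (x := toO (cjO la))).2 h
        rwa [hcj, cjO_cjO] at h2
  have hPQ : Q.IsPrime := hQ.1
  refine ⟨Q, hQ, hlQ, hlaQ, fun h7 => ?_⟩
  obtain ⟨τ, hτ⟩ := FrQ_frob l hl Q hQ.1 hlQ
  refine ⟨τ, mem_GK_iff.2 ?_, hτ⟩
  have hlF : Fact l.Prime := ⟨hl⟩
  have hlM : MP Q (l : Om) := (MP.nat_iff (P := Q) l).2 hlQ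
  have h3 : (τ wO) ^ 2 = τ wO - 2 := by
    rw [← map_pow, wO_sq, map_sub, map_ofNat]
  have h4 : (τ wO - wO) * (τ wO + wO - 1) = 0 := by
    linear_combination h3 - wO_sq
  rcases mul_eq_zero.1 h4 with h5 | h5
  · exact sub_eq_zero.1 h5
  · exfalso
    -- `wO` is congruent to an integer
    have hy : ¬ (l : ℤ) ∣ la.im := by
      intro hd
      have h6 : (l : ℤ) ∣ la.re := by
        have h7' : (l : ℤ) ∣ la.re ^ 2 := by
          obtain ⟨k, hk⟩ := hd
          refine ⟨1 - la.re * k - 2 * la.im * k, ?_⟩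
          have h8 : la.re ^ 2 + la.re * la.im + 2 * la.im ^ 2 = l := hla
          linear_combination h8 - (la.re + 2 * la.im) * hk
        exact Int.Prime.dvd_pow' hl h7'
      obtain ⟨k, hk⟩ := hd
      obtain ⟨m, hm⟩ := h6
      have h8 : la.re ^ 2 + la.re * la.im + 2 * la.im ^ 2 = l := hla
      rw [hk, hm] at h8
      have h9 : (l : ℤ) * (l * (m ^ 2 + m * k + 2 * k ^ 2)) = l * 1 := by
        rw [mul_one]
        conv_rhs => rw [← h8]
        ring
      have h10 := mul_left_cancel₀ (by exact_mod_cast hl.ne_zero) h9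
      have h11 : (l : ℤ) ∣ 1 := ⟨_, h10.symm⟩
      have h12 := Int.natCast_dvd_natCast.1 (by exact_mod_cast h11 : ((l : ℕ) : ℤ) ∣ ((1 : ℕ) : ℤ))
      exact hl.one_lt.ne' (Nat.dvd_one.1 h12)
    obtain ⟨m, hm⟩ : ∃ m : ℤ, MP Q (wO - m) := by
      have hco : IsCoprime (l : ℤ) la.im :=
        ((Nat.prime_iff_prime_int.1 hl).coprime_iff_not_dvd).2 hy
      obtain ⟨a, b, hab⟩ := hco
      refine ⟨-(b * la.re), ?_⟩
      have e : wO - ((-(b * la.re) : ℤ) : Om) = (b : Om) * toO la + (a : Om) * l * wO := by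
        have h6 : toO la = (la.re : Om) + la.im * wO := rfl
        have h7' : ((a * l + b * la.im : ℤ) : Om) = 1 := by rw [hab]; simp
        push_cast at h7' ⊢
        rw [h6]
        linear_combination (-wO) * h7'
      rw [e]
      refine (MP.mul_left (VP.int b) hlaQ).add ?_
      exact MP.mul_right (MP.mul_left (VP.int a) hlM) (VP.integral FrQ_wint)
    have hml : MP Q ((m : Om) ^ l - m) := by
      obtain ⟨k, hk⟩ := FrQ_fermat l hl m
      have e : (m : Om) ^ l - m = (l : Om) * (k : Om) := by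
        have := congrArg (fun z : ℤ => (z : Om)) hk
        push_cast at this
        exact this
      rw [e]
      exact MP.mul_right hlM (VP.int k)
    have hwl : MP Q (wO ^ l - (m : Om) ^ l) := by
      obtain ⟨k, hk⟩ := sub_dvd_pow_sub_pow (⟨wO, FrQ_wint⟩ : ZZ) (m : ZZ) l
      have e : wO ^ l - (m : Om) ^ l = (wO - m) * (k : Om) := by
        have := congrArg (fun z : ZZ => (z : Om)) hk
        push_cast at this
        exact this
      rw [e]
      exact MP.mul_right hm (VP.coe k)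
    have hτw : MP Q (τ wO - wO ^ l) := VP.frob hτ (VP.integral FrQ_wint)
    have h6 : MP Q (1 - 2 * wO) := by
      have e : 1 - 2 * wO = (τ wO - wO ^ l) + (wO ^ l - (m : Om) ^ l) + ((m : Om) ^ l - m) -
          (wO - m) := by linear_combination -h5
      rw [e]
      exact ((hτw.add hwl).add hml).sub hm
    have h8 : MP Q ((1 - 2 * wO) * (1 - 2 * wO)) := MP.mul_left h6.vp h6
    have h9 : (1 - 2 * wO) * (1 - 2 * wO) = -7 := by
      linear_combination 4 * wO_sq
    rw [h9] at h8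
    have h10 : MP Q ((7 : ℕ) : Om) := by
      have := h8.neg
      rw [neg_neg] at this
      exact_mod_cast this
    have hco : IsCoprime (l : ℤ) ((7 : ℕ) : ℤ) :=
      Nat.isCoprime_iff_coprime.2 ((Nat.coprime_primes hl (by norm_num)).2 h7)
    obtain ⟨a, b, hab⟩ := hco
    have h11 : MP Q ((a : Om) * (l : Om) + (b : Om) * ((7 : ℕ) : Om)) :=
      (MP.mul_left (VP.int a) hlM).add (MP.mul_left (VP.int b) h10)
    have h12 : (a : Om) * (l : Om) + (b : Om) * ((7 : ℕ) : Om) = 1 := by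
      have := congrArg (fun z : ℤ => (z : Om)) hab
      push_cast at this ⊢
      exact this
    rw [h12] at h11
    exact MP.one_not h11

end Pool.Agent.DI.E
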