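import Pool.Agent.Lib.DI.E.SpecE

/-!
# Theorem DI, Part E, module MkBF: the structure `BF` from the statements of Part B (helper11)
-/

set_option autoImplicit false

open scoped Pointwise

noncomputable section

namespace Pool.Agent.DI.E

open Pool.Agent.MuZ Pool.Agent.FW

private theorem MkBF_wne : wC ≠ 0 := by
  intro h
  have h1 := wC_sq
  rw [h] at h1
  norm_num at h1

private theorem MkBF_rC : toC s7 = rC := by
  rw [toC_apply]
  unfold s7 rC
  push_cast
  ring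

private theorem MkBF_s7ne : s7 ≠ 0 := by
  intro h
  have h1 := congrArg QuadraticAlgebra.re h
  rw [QuadraticAlgebra.re_zero] at h1
  simp [s7] at h1

private theorem MkBF_rne : rC ≠ 0 := by
  rw [← MkBF_rC]
  exact toC_ne MkBF_s7ne

private theorem MkBF_v (v : OO) : v = ((v.re + 4 * v.im : ℤ) : OO) + s7 * ⟨0, v.im⟩ := by
  apply OO.ext'
  · rw [QuadraticAlgebra.re_add, re_int, re_mul]
    simp only [s7]
    ring
  · rw [QuadraticAlgebra.im_add, im_int, im_mul]
    simp only [s7]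
    ring

private theorem MkBF_dvd {v : OO} (h : (7 : ℤ) ∣ v.re + 4 * v.im) : s7 ∣ v := by
  obtain ⟨k, hk⟩ := h
  rw [MkBF_v v, hk]
  refine dvd_add ?_ (dvd_mul_right _ _)
  refine ⟨-(s7 * (k : OO)), ?_⟩
  have h1 := s7_sq
  have h2 : ((7 * k : ℤ) : OO) = -(((-7 : ℤ) : OO) * (k : OO)) := by
    push_cast
    ring
  rw [h2, ← h1]
  ring

private theorem MkBF_z (v : OO) :
    toC v / toC s7 = ((v.re + 4 * v.im : ℤ) : ℂ) / rC + toC ⟨0, v.im⟩ := by
  have h := MkBF_rne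
  have h1 : toC v = ((v.re + 4 * v.im : ℤ) : ℂ) + rC * toC ⟨0, v.im⟩ := by
    conv_lhs => rw [MkBF_v v]
    rw [map_add, map_mul, MkBF_rC, map_intCast]
  rw [h1, MkBF_rC, add_div, mul_div_cancel_left₀ _ h]

private theorem MkBF_sev (h2 : S_B2) (h8 : S_B8) (h9 : S_B9) :
    ∃ s : ℤ, (s = 1 ∨ s = -1) ∧ ∀ v : OO, ¬ s7 ∣ v →
      2 * YC (toC v / toC s7) + XC (toC v / toC s7) = s * eps v * toC s7 * XC (toC v / toC s7) ∧
        XC (toC v / toC s7) ≠ 0 := by
  obtain ⟨s, hs, h9⟩ := h9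
  have hr := MkBF_rne
  refine ⟨s, hs, fun v hv => ⟨?_, ?_⟩⟩
  · obtain ⟨p1, p2, -⟩ := h2.1 (((v.re + 4 * v.im : ℤ) : ℂ) / rC) ⟨0, v.im⟩
    rw [MkBF_z, p1, p2, MkBF_rC]
    have h7 : ¬ (7 : ℤ) ∣ v.re + 4 * v.im := fun h => hv (MkBF_dvd h)
    have hc : (v.re + 4 * v.im).gcd (7 : ℕ) = 1 := by
      have : IsCoprime (7 : ℤ) (v.re + 4 * v.im) :=
        (Prime.coprime_iff_not_dvd (by norm_num : Prime (7 : ℤ))).2 h7
      exact Int.isCoprime_iff_gcd_eq_one.1 this.symm
    unfold eps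
    generalize v.re + 4 * v.im = j at *
    rcases jacobiSym.eq_one_or_neg_one hc with h | h
    · rw [h, h9 j h]
      push_cast
      ring
    · have hj : jacobiSym (-j) 7 = 1 := by
        rw [neg_eq_neg_one_mul, jacobiSym.mul_left, h]
        norm_num
      have e := h9 (-j) hj
      have e1 : ((-j : ℤ) : ℂ) / rC = -((j : ℂ) / rC) := by
        push_cast
        ring
      obtain ⟨q1, q2, -⟩ := h2.2 ((j : ℂ) / rC)
      rw [e1, q1, q2] at e
      rw [h]
      push_cast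
      linear_combination -e
  · have hz : ¬ Lat (toC v / toC s7) := by
      rintro ⟨u, hu⟩
      refine hv ⟨u, toC_inj ?_⟩
      rw [map_mul, ← hu, MkBF_rC, mul_div_cancel₀ _ hr]
    have hz2 : Lat (rC * (toC v / toC s7)) := by
      rw [MkBF_rC, mul_div_cancel₀ _ hr]
      exact lat_toC v
    intro h
    have := (h8 _ hz hz2).1
    rw [h] at this
    norm_num at this

private theorem MkBF_piL (h2 : S_B2) (h6 : S_B6) (h7 : S_B7) (z : ℂ) (hz : ¬ Lat z) :
    wC ^ 2 * XC z = 1 - wC ↔ Lat (wC * z) := by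
  have hw := MkBF_wne
  constructor
  · intro h
    by_contra hL
    refine (h6 wC wbC (Or.inl ⟨rfl, rfl⟩) z hz hL).1 ?_
    rw [h]
    unfold wbC
    ring
  · rintro ⟨v, hv⟩
    rcases Int.even_or_odd' v.re with ⟨k, hk | hk⟩
    · exfalso
      have e : v = pO * ⟨k + v.im, -k⟩ := by
        apply OO.ext'
        · rw [re_mul, hk]
          simp only [pO]
          ring
        · rw [im_mul]
          simp only [pO]
          ring
      rw [e, map_mul, toC_pO] at hv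
      exact hz ⟨_, mul_left_cancel₀ hw hv⟩
    · have e : v = 1 + pO * ⟨k + v.im, -k⟩ := by
        apply OO.ext'
        · rw [QuadraticAlgebra.re_add, re_one, re_mul, hk]
          simp only [pO]
          ring
        · rw [QuadraticAlgebra.im_add, im_one, im_mul]
          simp only [pO]
          ring
      have e2 : z = 1 / wC + toC ⟨k + v.im, -k⟩ := by
        refine mul_left_cancel₀ hw ?_
        rw [hv, mul_add, mul_one_div_cancel hw]
        conv_lhs => rw [e]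
        rw [map_add, map_one, map_mul, toC_pO]
      rw [e2, (h2.1 _ _).1, (h7.2 wC wbC (Or.inl ⟨rfl, rfl⟩)).1, mul_div_cancel₀ _ (pow_ne_zero 2 hw)]
      rfl

theorem eMkBF : S_MkBF := by
  intro h0 h1 h2 h3 h4 h5 h6 h7 h8 h9 h12 h13
  refine ⟨fun z v => ⟨(h2.1 z v).1, (h2.1 z v).2.1⟩, fun z => ⟨(h2.2 z).1, ?_⟩, h1,
    fun z z' hz hz' h => (h3.1 z z' hz hz').1 h, fun z hz h => (h3.2.1 z hz).1 h, ?_, ?_, h3.2.2, ?_,
    MkBF_piL h2 h6 h7, fun z hz => ⟨(h13 z hz).1, (h13 z hz).2.1⟩, MkBF_sev h2 h8 h9, ?_⟩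
  · rw [(h2.2 z).2.1]
    ring
  · intro z z' hz hz' hd hs
    have hX : XC z ≠ XC z' := fun h => ((h3.1 z z' hz hz').1 h).elim hd hs
    obtain ⟨a, b, -⟩ := h4 z z' hz hz' hX (lam z z') rfl
    exact ⟨a, by rw [b]; ring⟩
  · intro z hz
    have hz1 : ¬ Lat z := fun h => hz (by
      have := lat_mul 2 h
      rwa [map_ofNat] at this)
    obtain ⟨a, b, -⟩ := h5 z hz1 hz (lamT z) rfl
    exact ⟨a, by rw [b]; ring⟩
  · intro z hz
    have hz1 : ¬ Lat z := fun h => hz (by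
      have := lat_mul pO h
      rwa [toC_pO] at this)
    exact (h6 wC wbC (Or.inl ⟨rfl, rfl⟩) z hz1 hz).2
  · obtain ⟨s, hs, ho, h⟩ := h12
    exact ⟨s, hs, ho, fun z => ⟨(h z).1, (h z).2.1⟩⟩

end Pool.Agent.DI.E
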