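import Pool.Agent.Lib.DI.E.Base
import Pool.Agent.Lib.DI.Util.Spec

/-!
# THEOREM DI (MP_d0239a_nt), Part E (E1 - E6): Galois action on torsion points, the fields

Author helper30, after note 4051 of helper36. Every `def S_.. : Prop` is a statement, its complete proof is
in the docstring; it is proved in the module `Pool/Agent/Lib/DI/E/<Name>.lean` as `theorem e<Name> : S_<Name>`
(first line `import Pool.Agent.Lib.DI.E.SpecE`, `namespace Pool.Agent.DI.E`). Statements which occur as hypotheses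
only have to be introduced. The elementary lemmas of `E/Base.lean` (on `O`, `Nm`, `Cop`, `eps`, `Lat`, `Tor`, `GK`,
`Psi`; names `Nm_mul`, `mul_cjO`, `nat_dvd_iff`, `cop_congr`, `cop_inv`, `lat_div_iff`, `lat_mul`, `tor_mul`, `eq_div_of_Lat`,
`mem_GK_iff`, `GK_toO`, `psi_mul`, `psi_one`, `psi_congr`, `psi_level`, `BF.x_eq`, `BF.x_neg`, `BF.io_x`, `BF.y_neg`) are proved
and may be used. `BF`, `DF` are the structures of `E/Base.lean` (facts on `XC`, `YC` and on reduction);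
valuation rings: `DI/Val.lean` (`VP.mul`, `MP.add`, `VP.smul`, `VP.frob`, `VP.inertia`, `MP.coe_iff` ...).
-/

set_option autoImplicit false

open scoped Pointwise nonZeroDivisors

noncomputable section

namespace Pool.Agent.DI.E

open Pool.Agent.MuZ Pool.Agent.FW NumberField IsDedekindDomain

/-! ## 0. The inputs -/

/-- **MkBF** (150 lines). The structure `BF` from the statements of Part B.
PROOF. `per`, `neg`: `S_B2`. `eqn`: `S_B1`. `inj`, `two`, `sur`: `S_B3`. `add`: `S_B4` (`XC z ≠ XC z'` by `S_B3`), the two forms of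
the second coordinate agree (`ring`). `dbl`: `S_B5` (`¬ Lat z` because `Lat z → Lat (2 * z)`: `lat_mul` with `2`). `pi`: `S_B6` with
`p = wC`, `pb = wbC = 1 - wC` (`¬ Lat z` by `lat_mul pO`, `toC_pO`). `piL`: if `¬ Lat (wC * z)` then `wC ^ 2 * XC z - wbC ≠ 0` by `S_B6`; if
`Lat (wC * z)`, `wC * z = toC v`, `v = ⟨x, y⟩`: if `x` is even then `v = pO * u` with `u = ⟨x / 2 + y, - x / 2⟩`
(`w (1 - w) = 2`, i.e. `w * ⟨s, t⟩ = ⟨-2 t, s + t⟩`), so `z = toC u` contradicts `¬ Lat z`; if `x` is odd then `v = 1 + pO * u`, so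
`z = 1 / wC + toC u`, `XC z = XC (1 / wC) = wbC / wC ^ 2` (`S_B2`, `S_B7`), `wC ≠ 0` (`wC * wbC = 2`). `alg`: `S_B13`.
`sev`: let `s` be from `S_B9`. `rC = toC s7`. For `v = ⟨x, y⟩` with `¬ s7 ∣ v` put `j = x + 4 y`. Then `v - j = y (w - 4)`, and
`w - 4 = s7 * ⟨1, -1⟩`... (check: `2 (w - 4) = s7 - 7 = s7 (1 + s7)`, so `w - 4 = s7 (1 + s7) / 2 = s7 * w`); so
`toC v / toC s7 = j / rC + toC (y w)`, and `XC`, `YC` have the same values at the two points. `7 ∤ j`: otherwise `s7 ∣ 7 ∣ j` and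
`s7 ∣ v`. `eps v = jacobiSym j 7 = ±1`. If it is `1` use `S_B9` for `j`; if it is `-1` then `jacobiSym (-j) 7 = 1`
(`jacobiSym (-1) 7 = -1`), use `S_B9` for `-j` and the parity (`2 Y (-z) + X (-z) = - (2 Y z + X z)`). `XC ≠ 0`: `S_B8`
(`X ^ 3 + X ^ 2 - 2 X - 1 = 0`; the point is not in the lattice since `¬ s7 ∣ v`, and `rC * z = toC v`). `cj`: `S_B12`. -/
def S_MkBF : Prop :=
  S_B0 → S_B1 → S_B2 → S_B3 → S_B4 → S_B5 → S_B6 → S_B7 → S_B8 → S_B9 → S_B12 → S_B13 → BF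

/-- **MkDF** (120 lines). The structure `DF` from the statements of Part D.
PROOF. `z` is a torsion point: `tor_of_lat` (`δ ≠ 0` because `MP Q 0`, `MP.zero`). CASE `2 ∈ Q`. Then `MP Q 2`
(`MP.nat_iff`), and `2 = wO * (1 - wO)` gives `MP Q wO` or `MP Q (1 - wO)` (`MP.mul_cases`, both are in `VP`: they are integral,
`VP.integral`, or use the equation `wO ^ 2 = wO - 2`), that is `Pr2 a b` with `MP Q (toO a)` for `(a, b) = (pO, pbO)` or
`(pbO, pO)`. `int`: if `¬ VP Q (xO z)` then `I2 Q z`, so `Qp Q z` (`S_D1`), with `α = δ`, `β = 1`: `Lat (toC 1 * z)`, so `Lat z`.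
`sep`: `S_D1` (5): `¬ I2 Q z`, `¬ I2 Q z'` by `int`; `I2 Q (z ± z')` gives `Lat (z ± z')` in the same way
(`toC δ * (z ± z')` is in the lattice). CASE `2 ∉ Q`: the same with `S_D2` and `IZ` (`¬ MP Q 2` by `MP.nat_iff`). `frob`: here `2 ∉ Q`,
since `l = Nm la = la * cjO la` gives `MP Q l`, so `(l : ZZ) ∈ Q`, and `l` is odd (`2 ∈ Q` would give `1 ∈ Q`); `¬ IZ Q z` by `int`;
`S_D4`. `frobPi`: `MP Q (toO la)` implies `MP Q 2` (`2 = wO (1 - wO)`), so `2 ∈ Q`; `¬ I2 Q z` by `int`; `S_D1` (7) with `a = la`. -/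
def S_MkDF : Prop := S_D1 → S_D2 → S_D4 → DF

/-! ## 1. The group law -/

/-- The curve over `ℚ`. -/
def E0 : WeierstrassCurve ℚ := ⟨1, -1, 0, -2, -1⟩

/-- The points with coordinates in `F`. -/
abbrev Pt (F : Type) [Field F] [Algebra ℚ F] : Type := (E0.baseChange F).toAffine.Point

open Classical in
/-- The point `(x, y)` (`0` if it is not on the curve). -/
def mkPt (F : Type) [Field F] [Algebra ℚ F] (x y : F) : Pt F :=
  if h : (E0.baseChange F).toAffine.Nonsingular x y then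
    WeierstrassCurve.Affine.Point.some x y h else 0

open Classical in
/-- The point of `E(ℂ)` belonging to `z`. -/
def ptC (z : ℂ) : Pt ℂ := if Lat z then 0 else mkPt ℂ (XC z) (YC z)

open Classical in
/-- The point of `E(Om)` belonging to the torsion point `z`. -/
def ptO (z : ℂ) : Pt Om := if Lat z then 0 else mkPt Om (xO z) (yO z)

open Classical in
/-- The map `E(Om) → E(ℂ)`. -/
def mIo : Pt Om →+ Pt ℂ := WeierstrassCurve.Affine.Point.map (W' := E0) (S := ℚ) io.toRatAlgHom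

open Classical in
/-- The action of `τ` on `E(Om)`. -/
def mT (τ : Gal(Om/ℚ)) : Pt Om →+ Pt Om :=
  WeierstrassCurve.Affine.Point.map (W' := E0) (S := ℚ) (τ : Om →ₐ[ℚ] Om)

/-- **PtE** (60 lines). Every solution of the equation is a nonsingular point.
PROOF. `E0.baseChange F` has the coefficients `1, -1, 0, -2, -1` (`simp [WeierstrassCurve.map]`). The equation is
`WeierstrassCurve.Affine.equation_iff`. Nonsingular: the discriminant is `-343 ≠ 0` (`F` has characteristic `0`), and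
`WeierstrassCurve.Affine.equation_iff_nonsingular` (for `IsElliptic`) or
`equation_iff_nonsingular_of_Δ_ne_zero`; or directly: if both partial derivatives `2 y + x = 0` and
`y - (3 x ^ 2 - 2 x - 2) = 0` vanish then with the equation one gets a nonzero integer `= 0` (elimination). -/
def S_PtE : Prop :=
  ∀ (F : Type) [Field F] [Algebra ℚ F] [CharZero F] (x y : F),
    (E0.baseChange F).toAffine.Nonsingular x y ↔ y ^ 2 + x * y = x ^ 3 - x ^ 2 - 2 * x - 1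

open Classical in
/-- **PtA** (150 lines). Uses `S_PtE`. **Additivity.**
PROOF. Cases. (1) `Lat z`: `ptC z = 0`, `XC (z + z') = XC z'`, `YC (z + z') = YC z'` (`BF.X_eq`), `Lat (z + z') ↔ Lat z'`. (2) `Lat z'`: the
same. (3) `¬ Lat z`, `¬ Lat z'`, `Lat (z + z')`: `XC z = XC (-z') = XC z'` and `YC z = YC (-z') = - YC z' - XC z'`, which is
`negY (XC z') (YC z')` (`a₁ = 1`, `a₃ = 0`): `Point.add_of_Y_eq`, and `ptC (z + z') = 0`. (4) `¬ Lat (z + z')`, `Lat (z - z')`: `XC z = XC z'`,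
`YC z = YC z'`, so `ptC z' = ptC z`, `Lat (z + z' - 2 z)`, `XC (z + z') = XC (2 z)`, `YC (z + z') = YC (2 z)`, `¬ Lat (2 z)`; `YC z ≠ negY`, as
otherwise `2 YC z + XC z = 0` and `Lat (2 z)` (`BF.two`): `Point.add_self_of_Y_ne`, slope = `lamT z`
(`WeierstrassCurve.Affine.slope_of_Y_ne`: `(3 x² + 2 a₂ x + a₄ - a₁ y) / (y - negY x y)`), `addX`, `addY`, `BF.dbl`. (5) `¬ Lat (z ± z')`:
`XC z ≠ XC z'` by `BF.inj`: `Point.add_of_X_ne`, slope = `lam z z'` (`slope_of_X_ne`), `addX x₁ x₂ ℓ = ℓ² + a₁ ℓ - a₂ - x₁ - x₂`,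
`addY = negY (addX) (negAddY)`, `negAddY = ℓ (addX - x₁) + y₁`; `BF.add`. In all cases `mkPt` unfolds by `S_PtE` and `BF.eqn`.
(The addition of points needs `DecidableEq`: here the classical one, `open Classical in`.) -/
def S_PtA : Prop := S_PtE → BF → ∀ z z' : ℂ, ptC (z + z') = ptC z + ptC z'

/-- **PtK** (80 lines). Uses `S_PtE`. Kernel, surjectivity, coordinates.
PROOF. (1) For `¬ Lat z` the point `(XC z, YC z)` is on the curve (`BF.eqn`, `S_PtE`), so `ptC z = some ..`, which is not `0`.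
(2) `P = 0`: `z = 0`. `P = some x y h`: `S_PtE` and `BF.sur`. (3) `ptC z = ptC z'`, both not in the lattice: `XC z = XC z'`, `YC z = YC z'`, so
`Lat (z - z')` or `Lat (z + z')`; in the second case `YC z = YC (-z') = - YC z' - XC z'`, hence `2 YC z + XC z = 0` and `Lat (2 z)`,
so `Lat (z - z')` (`z - z' = 2 z - (z + z')`). (4), (5): the same for `ptO`, by `io` (`BF.io_x`, `io_inj`, the equation transfers). -/
def S_PtK : Prop := S_PtE → BF →
  (∀ z : ℂ, ¬ Lat z → ∃ h, ptC z = WeierstrassCurve.Affine.Point.some (XC z) (YC z) h) ∧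
  (∀ P : Pt ℂ, ∃ z : ℂ, ptC z = P) ∧
  (∀ z z' : ℂ, ptC z = ptC z' ↔ Lat (z - z')) ∧
  (∀ z : ℂ, ptC z = 0 ↔ Lat z) ∧
  (∀ z : ℂ, Tor z → ¬ Lat z → ∃ h, ptO z = WeierstrassCurve.Affine.Point.some (xO z) (yO z) h)

open Classical in
/-- **PtO** (60 lines). Uses `S_PtE`, `S_PtA`, `S_PtK`.
PROOF. `mIo (ptO z) = ptC z`: for `Lat z` both are `0`; otherwise `Point.map_some` and `BF.io_x`. Additivity: apply the
injective map `mIo` (`Point.map_injective`). -/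
def S_PtO : Prop := S_PtE → S_PtA → S_PtK → BF →
  (∀ z : ℂ, Tor z → mIo (ptO z) = ptC z) ∧
  (∀ z z' : ℂ, Tor z → Tor z' → ptO (z + z') = ptO z + ptO z') ∧
  Function.Injective mIo

open Classical in
/-- **Tors** (80 lines). Uses `S_PtE`, `S_PtA`, `S_PtK`, `S_PtO`. The torsion points of the curve of `DI/Defs`.
PROOF. `Ecurve = E0.baseChange Om` (`WeierstrassCurve.ext`, `simp`); state the claim for any `W : WeierstrassCurve Om` with
`W = E0.baseChange Om` and substitute. Let `P = some x y h`, `n • P = 0`; `mIo P = ptC z` for some `z` (`S_PtK`), and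
`0 = mIo (n • P) = n • ptC z = ptC (n z)` (`S_PtA`, induction), so `Lat (n z)`: `n z = toC v`, `z = toC v / n`. `¬ Lat z` since
`mIo P ≠ 0`. So `io x = XC z = io (xO z)`, `io y = YC z = io (yO z)`. -/
def S_Tors : Prop := S_PtE → S_PtA → S_PtK → S_PtO → BF →
  ∀ (x y : Om) (h : Ecurve.toAffine.Nonsingular x y) (n : ℕ), 0 < n →
    n • (WeierstrassCurve.Affine.Point.some x y h) = 0 →
    ∃ v : OO, x = xO (toC v / n) ∧ y = yO (toC v / n)

/-! ## 2. The numbers `a` with `Psi τ N a` -/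

/-- Existence. -/
def Ex : Prop := ∀ τ ∈ GK, ∀ N : ℕ, 0 < N → ∃ a : OO, Psi τ N a

/-- Uniqueness. -/
def Uq : Prop := ∀ (τ : Gal(Om/ℚ)) (N : ℕ) (a a' : OO), 0 < N → Psi τ N a → Psi τ N a' →
  (N : OO) ∣ a - a'

open Classical in
/-- **PiM** (120 lines). Uses `S_PtE`, `S_PtK`, `S_PtO`. **Multiplication by `π` commutes with `τ ∈ G_K`.**
PROOF. `τ wO = wO` (`mem_GK_iff`). If `Lat z`: `ptO z = 0`, so `ptC u = 0`, `Lat u` (`S_PtK`), `Lat (wC * z)`, `Lat (wC * u)`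
(`lat_mul pO`, `toC_pO`), both sides are `0`. Let `¬ Lat z`, `x = xO z`, `y = yO z`. `mIo (mT τ (ptO z)) = some (io (τ x)) (io (τ y)) _ ≠ 0`
(`Point.map_some`), so `¬ Lat u` and `io (τ x) = XC u`, `io (τ y) = YC u`. `Lat (wC * z) ↔ wC ^ 2 * XC z = 1 - wC`
(`BF.piL`) `↔ wO ^ 2 * x = 1 - wO` (`io`) `↔ wO ^ 2 * τ x = 1 - wO` (`τ`) `↔ wC ^ 2 * XC u = 1 - wC` `↔ Lat (wC * u)`. If both
are in the lattice, both sides are `0`. Otherwise let `x' = xO (wC * z)`, `y' = yO (wC * z)` (`wC * z` is a torsion point); by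
`BF.pi` for `z`, pulled back by `io`: `x' (wO² x - (1 - wO)) = x² - wO`, `y' (wO² x - (1 - wO))² = ..`. Apply `τ` and `io`, compare with
`BF.pi` for `u`; the factor `wC² XC u - (1 - wC)` is not `0`: so `io (τ x') = XC (wC * u)`, `io (τ y') = YC (wC * u)`. -/
def S_PiM : Prop := S_PtE → S_PtK → S_PtO → BF →
  ∀ τ ∈ GK, ∀ z u : ℂ, Tor z → mIo (mT τ (ptO z)) = ptC u →
    mIo (mT τ (ptO (wC * z))) = ptC (wC * u)

open Classical in
/-- **T1** (150 lines). Uses `S_PtE`, `S_PtA`, `S_PtK`, `S_PtO`, `S_PiM`. **Existence of `a`.**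
PROOF. Let `F z = mIo (mT τ (ptO z))`, additive on torsion points (`S_PtO`). Choose `u` with `ptC u = F (1 / N)` (`S_PtK`). By `S_PiM`
`F (wC / N) = ptC (wC u)`. For `v = ⟨s, t⟩`: `toC v / N = s • (1 / N) + t • (wC / N)`, so `F (toC v / N) = s • ptC u + t • ptC (wC u) = ptC (toC v * u)`
(additivity of `F` and `ptC`, integer multiples: write `F` and `ptC` as additive homomorphisms, on the subgroup of torsion points,
or do inductions `F (n • z) = n • F z`). For `v = N`: `ptC (N u) = F 1 = 0` (`ptO 1 = 0` as `Lat 1`), so `N u = toC a`, `u = toC a / N`,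
and `F (toC v / N) = ptC (toC (a v) / N)` for all `v`. (i) Let `¬ Lat (toC v / N)`: then `F (toC v / N) = some (io (τ x)) (io (τ y)) _` with
`x = xO (toC v / N)`, so `¬ Lat (toC (a v) / N)` and `io (τ x) = XC (toC (a v) / N) = io (xO ..)`: the two equations of `Psi`. (ii) If
`Lat (toC v / N)` then also `Lat (toC (a v) / N)` (`toC (a v) / N = toC a * (toC v / N)`), and `xO`, `yO` are at both points the values at `0`
(`BF.x_eq`), fixed by `τ`: by `BF.X_eq`.. the value: `XC 0 = 1 / 4` is rational, see `PeriodPair.weierstrassP_zero`,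
`derivWeierstrassP_zero` (`XC 0 = 0 / Ω² + 1 / 4`, `YC 0 = (0 - 1 / 4) / 2`), so `xO 0 = 1 / 4` (`ofC_io` with `io (1 / 4) = 1 / 4`) and
`yO 0 = - 1 / 8`. (iii) `Cop a N`: otherwise a prime `l` divides `N` and `Nm a` (`IsCoprime` of integers: `Int.isCoprime_iff_gcd_eq_one`,
`Nat.Coprime`, a common prime factor), `N = l k`. Take `v = k * cjO a`: `a v = k Nm a` is divisible by `N`, so by (i)
`Lat (toC v / N)`, `N ∣ k cjO a`, `l ∣ cjO a`, hence `l ∣ a` (apply `cjO`). Take `v = k`: `N ∣ a k`, so `Lat (k / N)`, `N ∣ k` in `O`: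
impossible (`nat_dvd_iff`, `0 < k < N`). -/
def S_T1 : Prop := S_PtE → S_PtA → S_PtK → S_PtO → S_PiM → BF → Ex

/-- **Uq1** (80 lines). **Uniqueness of `a` modulo `N`.**
PROOF. `N = 1`: clear. Let `N > 1`. `z = toC a / N`, `z' = toC a' / N`. `¬ Lat z`: otherwise `a = N b`, `Nm a = N ^ 2 Nm b` is not prime to `N`. The
same for `z'`. By `Psi` with `v = 1`: `xO z = τ (xO (1 / N)) = xO z'`, `yO z = yO z'`, so (apply `io`, `BF.io_x`) `XC z = XC z'`, `YC z = YC z'`. By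
`BF.inj` `Lat (z - z')` (then `N ∣ a - a'` by `lat_div_iff`) or `Lat (z + z')`; in the second case `YC z = YC (-z') = - YC z' - XC z'`
(`BF.X_eq`, `BF.neg`), so `2 YC z + XC z = 0`, `Lat (2 z)`, and `z - z' = 2 z - (z + z')`. -/
def S_Uq1 : Prop := BF → Uq

/-- **Fr2** (120 lines). **Frobenius elements at odd primes of degree one** (`S_E2`).
PROOF. `N = 1`: `Psi τ 1 a` holds for the `a` from `Ex`, and `1 ∣ a - la`: `psi_congr`. Let `N > 1`, `a` with `Psi τ N a` (`Ex`),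
`z = 1 / N = toC 1 / N`, `δ = N`. `¬ MP Q N`: `l = la * cjO la` gives `MP Q l`, `(l : ZZ) ∈ Q`, `l` and `N` are coprime (`MP.nat_iff`). `toC δ * z = 1` is in
the lattice. `¬ Lat z`; `¬ Lat (toC a * z)` (as in `Uq1`), `¬ Lat (toC la * z)` (`Nm la = l` is prime to `N`). `2 ∉ Q` (`l` is odd), so
`kx Q = zO`. `zO z ∈ V_Q` (`DF.int`). `τ (zO z) = zO (toC a * z)`, because `zO = (xO - 1/4) / toO s7` and `τ` fixes `toO s7` (`GK_toO`) and
`toC a * z = toC (a * 1) / N`. `VP.frob`: `MP Q (τ (zO z) - zO z ^ l)`. `DF.frob`: `MP Q (zO (toC la * z) - zO z ^ l)`. So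
`MP Q (zO (toC a * z) - zO (toC la * z))`, and by `DF.sep` `Lat ((a + la) z)` or `Lat ((a - la) z)`: `N ∣ a + la` or `N ∣ a - la`;
`psi_congr`. (`Fro Q l τ` is the hypothesis of `VP.frob`.) -/
def S_Fr2 : Prop := BF → DF → Ex → S_E2

/-- **Fr3** (100 lines). **Frobenius elements above `2`** (`S_E3`).
PROOF. As `Fr2` with `xO` instead of `zO`, `l = 2`, `la = a` (the element of the pair): `MP P (toO a)` implies `MP P 2`, `2 ∈ P`, so
`kx P = xO`, `¬ MP P N` as `N` is odd; `τ (xO z) = xO (toC a' * z)` for `Psi τ N a'`; `DF.frobPi`, `VP.frob` with `2`, `DF.sep`.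
`Pr2 a b` says `a = pO` or `a = pbO`; `Nm a = 2` is prime to `N`. -/
def S_Fr3 : Prop := BF → DF → Ex → S_E3

/-- **In4** (120 lines). **Inertia** (`S_E4`).
PROOF. (1) Let `δ` be given, `δ ≠ 0` (`MP Q 0`), `N = (Nm δ).toNat > 0`, `z = toC v / N` (`eq_div_of_Lat`). If `Lat z` then `xO z = 1 / 4`
(`xO z = xO 0`, `XC 0 = 1 / 4`, see `T1` (ii)) is fixed. Let `¬ Lat z`, `Psi τ N a` (`Ex`): `τ (xO z) = xO (toC a * z)`
(`toC (a v) / N = toC a * z`), `¬ Lat (toC a * z)`: `N ∣ a v` implies `N ∣ v` since `a` is invertible modulo `N` (`cop_inv`).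
`kx Q (toC a * z) = τ (kx Q z)` (for `zO` use `GK_toO`). `VP.inertia` (`DF.int`): `MP Q (τ (kx Q z) - kx Q z)`. `DF.sep` for `toC a * z` and
`z` (`toC δ * (toC a * z)` is in the lattice): `Lat (toC a * z + z)` or `Lat (toC a * z - z)`; in both cases `xO (toC a * z) = xO z`
(`BF.x_eq`, `BF.x_neg`). (2) Let `N` be given, `z = 1 / N`, `δ = N`; `N = 1` is clear (`psi_congr`). The same argument gives
`N ∣ a + 1` or `N ∣ a - 1`, then `psi_congr`. -/
def S_In4 : Prop := BF → DF → Ex → S_E4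

/-- **Nrm5** (80 lines). **Normalisation** (`S_E5`).
PROOF. Let `N = 7 k`. `1 / toC s7 = - toC s7 / 7 = toC (- s7 k) / N` (`s7_sq`). So for `u ∈ O`: `toC u / toC s7 = toC (- u s7 k) / N`, and `Psi`
with `v = - s7 k` gives `τ (xO (1 / toC s7)) = xO (toC a / toC s7)`, the same for `yO` (`toC 1 / toC s7`). `Cop a N` implies
`¬ s7 ∣ a` (`Nm s7 = 7 ∣ N`). Let `s` be from `BF.sev`. In `Om`, for `¬ s7 ∣ v`, `z = toC v / toC s7` (a torsion point):
`2 yO z + xO z = s eps v toO s7 xO z`, `xO z ≠ 0` (apply `io`). Take `v = 1` (`eps 1 = 1`), apply `τ` (`GK_toO`):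
`2 yO z' + xO z' = s toO s7 xO z'`, `z' = toC a / toC s7`; compare with `v = a`: `s (eps a - 1) toO s7 xO z' = 0`, so `eps a = 1`. -/
def S_Nrm5 : Prop := BF → S_E5

/-! ## 3. Frobenius elements and densities -/

/-- **FrQ** (120 lines). **Existence of Frobenius elements.**
PROOF. Let `c` be the complex conjugation (`S_A1`): `c (toO v) = toO (cjO v)` (apply `io`, `conj_toC`). Let `Q` be a prime of `ZZ` with
`(l : ZZ) ∈ Q` (`MuZ/Frob.lean`, `MuZ/Orb.lean` or `Ideal.exists_le_maximal`: `l` is not a unit of `ZZ`, as `1 / l` is not integral); `Q ≠ ⊥`. `l = la * cjO la`, so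
`toO la` or `toO (cjO la)` is in the maximal ideal (`MP.mul_cases`; both are integral); in the second case replace `Q` by `c • Q`
(`MP.smul`, prime: `Ideal.IsPrime.smul` as in `MuZ/Conj.lean`, `≠ ⊥` since it contains `l`). So `MP Q (toO la)` and `(l : ZZ) ∈ Q`. Let `l ≠ 7`. There is
`τ ∈ Gal(Om/ℚ)` with `τ b - b ^ l ∈ Q` for all `b` (Frobenius over `ℚ`: `MuZ/Frob.lean`; or `S_FrE` for `K = ⊥`). Claim `τ wO = wO`. `wO` is
integral, a root of `X ^ 2 - X + 2`, so `τ wO` is `wO` or `1 - wO`. `la = ⟨x, y⟩`: `l ∤ y` (else `l ∣ x` as `l ∣ x² + x y + 2 y²`, and `l² ∣ l`), so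
`wO` is congruent to an integer `m` modulo `Q` (`y' y ≡ 1 mod l`, `wO ≡ - y' x`), `wO ^ l ≡ m ^ l ≡ m ≡ wO`. If `τ wO = 1 - wO`
then `1 - 2 wO ∈ Q`, its square `-7` is in `Q`, so `l = 7`: contradiction. -/
def S_FrQ : Prop :=
  S_A1 → ∀ (la : OO) (l : ℕ), l.Prime → Nm la = l →
    ∃ Q : Ideal ZZ, Npr Q ∧ (l : ZZ) ∈ Q ∧ MP Q (toO la) ∧ (l ≠ 7 → ∃ τ ∈ GK, Fro Q l τ)

/-- **Gcd** (60 lines). **Prime elements of `O`.** Uses `S_UPid` (`O` is a principal ideal domain).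
PROOF. Let `g` be a generator of the ideal `(l, r)` (`IsPrincipalIdealRing`): `g ∣ l`, `g ∣ r`, `g = l x + r y`. `Nm g ∣ Nm l = l ^ 2`, so
`Nm g ∈ {1, l, l ^ 2}` (`Nm g ≥ 0`). If `Nm g = 1` then `g` is a unit (`g cjO g = 1`), `1 = l x' + r y'`, multiply by `cjO r`:
`cjO r = l x' cjO r + Nm r y'` is divisible by `l`, so `l ∣ r` (`dvd_cjO`, `cjO_nat`): contradiction. If `Nm g = l ^ 2`, `l = g h`, then
`Nm h = 1`, `h` is a unit and `l ∣ g ∣ r`: contradiction. So `Nm g = l`, `la = g`. -/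
def S_Gcd : Prop :=
  S_UPid → ∀ (r : OO) (l : ℕ), l.Prime → (l : ℤ) ∣ Nm r → ¬ (l : OO) ∣ r →
    ∃ la x y : OO, Nm la = l ∧ la ∣ r ∧ la ∣ (l : OO) ∧ la = l * x + r * y

/-- **Deg** (100 lines). Uses `S_UPid`, `S_Gcd`. **Degree one primes of `K`.**
PROOF. `k = 𝓞 KQ ⧸ Q.comap (iO KQ)` is a finite field (`Q.comap` is a nonzero prime, so maximal) with `l` elements, so every element is
the class of a natural number (`l • 1 = 0`; the subring generated by `1` has `l` elements: `ZMod l → k` is injective, hence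
bijective), and `(l : ZZ) ∈ Q`. `wO` is in `KQ` and integral; let `m` be a natural number with `wO - m ∈ Q` (as an element of `ZZ`). Let
`r = pO - m ∈ O`: `MP Q (toO r)`. `Nm r = r * cjO r` (as an integer `n`) satisfies `MP Q n`, so `l ∣ n` (otherwise `1 ∈ Q` by Bézout, `(l : ZZ) ∈ Q`).
`¬ l ∣ r` since `r.im = 1`. By `S_Gcd` `la = l x + r y`, `Nm la = l`, and `MP Q (toO la)`. -/
def S_Deg : Prop :=
  S_UPid → S_Gcd → ∀ [NumberField KQ] (Q : Ideal ZZ) (l : ℕ), Npr Q → l.Prime →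
    Nat.card (𝓞 KQ ⧸ Q.comap (iO KQ)) = l → ∃ la : OO, Nm la = l ∧ MP Q (toO la) ∧ (l : ZZ) ∈ Q

/-- **KFin** (30 lines). `K` is a number field. PROOF. `wO` is integral over `ℚ` (a root of `X ^ 2 - X + 2`):
`IntermediateField.adjoin.finiteDimensional`. The group `GK` is open: `IntermediateField.fixingSubgroup_isOpen`. -/
def S_KFin : Prop := FiniteDimensional ℚ KQ ∧ IsOpen (GK : Set Gal(Om/ℚ))

/-- **Gen** (250 lines). Uses `S_KFin`, `S_UPid`, `S_Gcd`, `S_Deg`, `S_Lie`, `S_FrE`, `S_FrC` (library FW).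
**`G_K` is generated by Frobenius elements.** `H` is a subgroup of `GK`, open and normal in `GK`, which contains all Frobenius
elements of degree one outside `M`.
PROOF. `H` is an open subgroup of `Gal(Om/ℚ)` (it contains `GK ⊓ O`), hence closed. `L = IntermediateField.fixedField H`, finite over `ℚ`,
`L.fixingSubgroup = H` (`InfiniteGalois.fixingSubgroup_fixedField`, see `MuZ/Fld.lean`, `MuZ/FldQ.lean`), `KQ ≤ L`, `L` is stable under `GK`
(`H` is normal in `GK`). `letI := incA (KQ ≤ L)`: `L` is a Galois extension of `KQ` (as in `FW/Fr/FrG.lean`). Suppose `H ≠ GK`; then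
`n = finrank KQ L ≥ 2` (if it is `1` then `L = KQ`, `H = GK`). `ZD.Dn_Spl KQ L`: the set `Spl` has density `1 / n < 1`. The finite set `B` of the primes
`v` of `KQ` with `(M : 𝓞 KQ) ∈ v` (`ZD.finite_mem`) or ramified (`ZD.finite_ram`) has density `0` (`ZD.Dn_finite`). `ZD.infinite_deg_one` with
`A = univ` (`ZD.Dn_univ`) and `Spl ∪ B` (`Dn.up`, `Up.union`): there is `v ∉ Spl ∪ B` with `nm v = l` a prime number. Choose `P` above `v`
(`S_Lie`), `τ` with `IsFr KQ P τ` (`S_FrE`): `τ ∈ GK`, `τ b - b ^ l ∈ P` (`Nat.card (𝓞 KQ ⧸ P.comap (iO KQ)) = Nat.card (𝓞 KQ ⧸ v.asIdeal) = nm v = l`,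
`Ideal.absNorm_apply`, `Submodule.cardQuot_apply`). `S_Deg`: `la` with `Nm la = l`, `MP P (toO la)`, `l ∈ P`. `l ∤ M`: otherwise `(M : ZZ) ∈ P`,
`(M : 𝓞 KQ) ∈ v`. So `τ ∈ H = L.fixingSubgroup`. `S_FrC`: `Nat.card (𝓞 L ⧸ P.comap (iO L)) = Nat.card (𝓞 KQ ⧸ P.comap (iO KQ))`. Let `w` be the prime
`P.comap (iO L)` of `L`; it lies over `v` (`w ∈ ZD.abv L v`: `ZD.mem_abv`, `incA_iO`), `nm w = nm v`. `ZD.mem_Spl_of_nm`: `v ∈ Spl`,
a contradiction. -/
def S_Gen : Prop :=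
  S_KFin → S_UPid → S_Gcd → S_Deg → S_Lie → S_FrE → S_FrC →
  ∀ (H : Subgroup Gal(Om/ℚ)) (O : OpenSubgroup Gal(Om/ℚ)) (M : ℕ), H ≤ GK →
    GK ⊓ (O : Subgroup Gal(Om/ℚ)) ≤ H → (∀ g ∈ GK, ∀ h ∈ H, g * h * g⁻¹ ∈ H) → 0 < M →
    (∀ (la : OO) (l : ℕ) (Q : Ideal ZZ) (τ : Gal(Om/ℚ)), l.Prime → ¬ l ∣ M → Nm la = l → Npr Q →
      MP Q (toO la) → (l : ZZ) ∈ Q → τ ∈ GK → Fro Q l τ → τ ∈ H) → GK ≤ H

/-- **OpN** (80 lines). **An open subgroup which acts trivially on the `N`-torsion and on `μ_N`.**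
PROOF. The set `A` of the values `xO (toC v / N)`, `yO (toC v / N)` with `v = ⟨x, y⟩`, `0 ≤ x, y < N`, and of the `N`-th roots of unity is
finite; `O` = the fixing subgroup of the finite extension `ℚ(A)` (`IntermediateField.finiteDimensional_adjoin`, elements of `Om` are integral over
`ℚ`; `IntermediateField.fixingSubgroup_isOpen`). For `τ ∈ O` and any `v` there is `v'` with coordinates in `[0, N)` and `N ∣ v - v'`, so `xO (toC v / N)
= xO (toC v' / N)` is fixed (`BF.x_eq`, `toC_sub_div_Lat`): `Psi τ N 1`. -/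
def S_OpN : Prop :=
  BF → ∀ N : ℕ, 0 < N → ∃ O : OpenSubgroup Gal(Om/ℚ), ∀ τ ∈ O,
    Psi τ N 1 ∧ ∀ ζ : Om, ζ ^ N = 1 → τ ζ = ζ

/-- **Cyc6** (200 lines). Uses `S_OpN`, `S_Gen` in the form `hGen`. **The cyclotomic character** (`S_E6`).
PROOF. Fix `N > 0`. For every `τ` there is `k : ℕ` with `τ ζ = ζ ^ k` for all `ζ ^ N = 1` (`ζ₀` a primitive `N`-th root of unity,
`IsPrimitiveRoot.map_of_injective`, `eq_pow_of_pow_eq_one`). Let `H = {τ ∈ GK | ∀ a, Psi τ N a → ∀ ζ, ζ ^ N = 1 → τ ζ = ζ ^ (Nm a).toNat}`. As `ζ ^ m`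
depends only on `m` modulo `N`, and `N ∣ a - b` implies `N ∣ Nm a - Nm b` (`Nm_congr`), for `τ ∈ GK` the condition may be checked for one `a`
(`Ex`, `Uq`). SUBGROUP: `1`: `psi_one`. Products: `psi_mul`, `(τ τ') ζ = τ (ζ ^ Nm a') = ζ ^ (Nm a Nm a')`. Inverses: let `Psi τ N a`, `τ ∈ H`, `Psi τ⁻¹ N b`
(`Ex`); `Psi 1 N (a b)`, so `N ∣ a b - 1` (`Uq`), `Nm a Nm b ≡ 1`; `ζ = τ⁻¹ (τ ζ) = τ⁻¹ (ζ ^ Nm a)`, put `ζ = ξ ^ Nm b`. OPEN: `S_OpN`
(`Psi τ N 1`, `Uq`). NORMAL in `GK`: for `g ∈ GK`, `Psi g N s`, `Psi g⁻¹ N s'`, `N ∣ s s' - 1`: `Psi (g τ g⁻¹) N (s a s')`, `s a s' ≡ a` modulo `N`, and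
`g τ g⁻¹ ζ = τ ζ` (powers of `ζ` commute). FROBENIUS, `M = 14 N`: let `l ∤ 14 N`, `Nm la = l`, `Q`, `τ` as in `S_Gen`. `S_E2`: `Psi τ N (± la)`, so for every
`a` with `Psi τ N a`: `Nm a ≡ Nm la = l` modulo `N` (`Nm_neg`). `τ ζ = ζ ^ l`: `ζ` is integral, `τ ζ - ζ ^ l ∈ Q`, both are `N`-th roots of unity and `N ∉ Q`
(`l ∈ Q`, `l ∤ N`): if `w = τ ζ / ζ ^ l ≠ 1` then `w - 1 ∈ Q` and `0 = 1 + w + .. + w ^ (N - 1) ≡ N`: contradiction. (See the proof of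
`S_FrM`, `FW/Fr/FrM.lean`.) `hGen`: `GK ≤ H`. -/
def S_Cyc6 : Prop :=
  S_OpN → (∀ (H : Subgroup Gal(Om/ℚ)) (O : OpenSubgroup Gal(Om/ℚ)) (M : ℕ), H ≤ GK →
    GK ⊓ (O : Subgroup Gal(Om/ℚ)) ≤ H → (∀ g ∈ GK, ∀ h ∈ H, g * h * g⁻¹ ∈ H) → 0 < M →
    (∀ (la : OO) (l : ℕ) (Q : Ideal ZZ) (τ : Gal(Om/ℚ)), l.Prime → ¬ l ∣ M → Nm la = l → Npr Q →
      MP Q (toO la) → (l : ZZ) ∈ Q → τ ∈ GK → Fro Q l τ → τ ∈ H) → GK ≤ H) →
  BF → Ex → Uq → S_E2 → S_E6

/-! ## 4. Surjectivity -/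

/-- **Shf** (150 lines). **A representative which is prime to `14 N` and primitive.**
PROOF. STEP 1: `a₁` with `N ∣ a - a₁`, `Cop a₁ (14 N)`. Let `m` be the product of those of the primes `2`, `7` which do not divide `N` (`m ∈ {1, 2, 7, 14}`),
`N r + m s = 1` in `ℤ`, `a₁ = a (m s) + N r = a + N r (1 - a)`. `N ∣ a₁ - a`, `m ∣ a₁ - 1`, so `Cop a₁ N`, `Cop a₁ m` (`cop_congr`, `cop_one`), and every
prime divisor of `14 N` divides `N m`. STEP 2: let `M = 14 N`, `a₁ = ⟨x, y⟩`; if `y = 0` replace `a₁` by `a₁ + M w` (`y = M`), so `y ≠ 0`. Let `s` be the product of the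
primes dividing `y` and not `x` (`∏ l ∈ y.natAbs.primeFactors.filter (¬ ∣ x), l`), `x' = x + M s`, `a' = ⟨x', y⟩`, `N ∣ a' - a`, `Cop a' M`. Suppose a prime `l` divides
`a'` in `O`, i.e. `l ∣ x'` and `l ∣ y`. If `l ∣ x`: then `l ∣ M s`; `l ∤ s` (a product of primes different from `l`), so `l ∣ M`; but `l ∣ Nm a₁`
(`l ∣ x, y`) contradicts `Cop a₁ M`. If `l ∤ x`: `l ∣ s`, so `x' ≡ x` modulo `l`, contradiction. -/
def S_Shf : Prop :=
  ∀ (N : ℕ) (a : OO), 0 < N → Cop a N → ∃ a' : OO, (N : OO) ∣ a - a' ∧ Cop a' (14 * N) ∧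
    ∀ l : ℕ, l.Prime → ¬ (l : OO) ∣ a'

/-- **Srj7** (150 lines). Uses `S_A1`, `S_UPid`, `S_Gcd`, `S_FrQ`, `S_Shf`. **Surjectivity** (`S_E7`).
PROOF. CLAIM: for every `a'` with `Cop a' (14 N)` which is not divisible by a prime number there is `τ ∈ GK` with `Psi τ N a'` or
`Psi τ N (-a')`. Strong induction on `Nm a' > 0`. If `Nm a' = 1`: `a' = 1` or `a' = -1` (`4 Nm = (2 re + im)² + 7 im²`: `im = 0`, `re = ± 1`), `τ = 1`
(`psi_one`). Otherwise let `l` be a prime divisor of `Nm a'`; `l ∤ 14 N`. `S_Gcd`: `la` with `Nm la = l`, `a' = la b`. `Cop b (14 N)`, `b` is not divisible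
by a prime number, `Nm b = Nm a' / l < Nm a'`. Let `τ_b` be from the induction, `Q`, `τ` from `S_FrQ` (`l ≠ 7`, `l ≠ 2`); `S_E2`: `Psi τ N (± la)`; `τ τ_b`
(`psi_mul`) works: the product is `± la b`. THEOREM: `S_Shf`, and `psi_congr` (`N ∣ a - a'`, so also `N ∣ -a' - (-a)`). -/
def S_Srj7 : Prop := S_A1 → S_UPid → S_Gcd → S_FrQ → S_Shf → BF → S_E2 → S_E7

/-! ## 5. The fields -/

/-- **Fix8** (200 lines). Uses `S_KFin`, `S_OpN`. **Galois theory for `FixH`** (`S_E8`).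
PROOF. `H 1`: `H ((-1) (-1))`. For `v`, `v'` with `N ∣ v - v'`: `H v ↔ H v'` (third hypothesis). INVERSES: if `H a`, `N ∣ a b - 1` then `H b`: the powers
of `a` modulo `N` take finitely many values, so `N ∣ a ^ i - a ^ j` with `i < j`, and as `a` is invertible modulo `N`, `N ∣ a ^ k - 1`, `k = j - i ≥ 1`;
`b ≡ a ^ (k - 1)` (`k = 1`: `H 1`). (Finite: the residues `⟨x mod N, y mod N⟩`; or the finite group `(OO ⧸ (N))ˣ`.) Let `W = {τ ∈ GK | ∀ a, Psi τ N a → H a}`; for `τ ∈ GK`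
the condition may be checked for one `a` (`Ex`, `Uq`). `W` is a subgroup (`psi_one`, `psi_mul`, inverses as in `Cyc6`) and contains
`GK ⊓ O`, `O` from `S_OpN`: it is open (`S_KFin`), hence closed. `FixH N H` = the fixed field of `W`: `x ∈ FixH N H` iff `τ x = x` for all `τ ∈ GK` such that
`Psi τ N a`, `H a` for some `a`, iff for all `τ ∈ W`. By `InfiniteGalois.fixingSubgroup_fixedField` `(FixH N H).fixingSubgroup = W`, and it is finite over `ℚ`
(`W` is open: see `MuZ/Fld.lean`). `KQ ≤ FixH N H`: elements of `KQ` are fixed by `GK`. Last claim: for `τ ∈ GK`, `Psi τ N a`: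
(all `x ∈ FixH N H` fixed) iff `τ ∈ W` iff `H a`. -/
def S_Fix8 : Prop := S_KFin → S_OpN → BF → Ex → Uq → S_E8

/-- **Ab8** (60 lines). **`FixH` is abelian over `K`.** `H` as in `S_E8`.
PROOF. (1) Let `x ∈ FixH N H`, `τ ∈ GK`, and `σ ∈ GK`, `Psi σ N a`, `H a`. `τ⁻¹ σ τ ∈ GK`, `Psi (τ⁻¹ σ τ) N (t' a t)` where `Psi τ N t`, `Psi τ⁻¹ N t'` (`Ex`), `N ∣ t' t - 1`
(`Uq`, `psi_one`), so `t' a t ≡ a` modulo `N` and `H (t' a t)`: `τ⁻¹ σ τ x = x`, `σ (τ x) = τ x`. (2) `κ = τ'⁻¹ τ⁻¹ τ' τ` satisfies `Psi κ N b` with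
`N ∣ b - 1`, so `H b` and `κ x = x`. (3) If `Psi τ N a`, `Psi τ' N a'` and `N ∣ a - h a'` with `H h` then `τ'⁻¹ τ` acts as an element of `H`. -/
def S_Ab8 : Prop :=
  BF → Ex → Uq → ∀ (N : ℕ) (H : OO → Prop), 0 < N → H (-1) → (∀ v, H v → Cop v N) →
    (∀ v u, H v → H (v + N * u)) → (∀ v u, H v → H u → H (v * u)) →
    (∀ τ ∈ GK, ∀ x ∈ FixH N H, τ x ∈ FixH N H) ∧
    (∀ τ ∈ GK, ∀ τ' ∈ GK, ∀ x ∈ FixH N H, τ (τ' x) = τ' (τ x)) ∧
    ∀ τ ∈ GK, ∀ τ' ∈ GK, ∀ a a' h : OO, Psi τ N a → Psi τ' N a' → H h → (N : OO) ∣ a - h * a' →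
      ∀ x ∈ FixH N H, τ x = τ' x

/-- **Cj9** (150 lines). **Complex conjugation.** Uses `S_Ab8`. `c` is from `S_A1`.
PROOF. (1) `c (toO v) = toO (cjO v)`, `c wO = 1 - wO`, `c (c x) = x` (apply `io`); for `τ ∈ GK`: `c τ c⁻¹ wO = c τ (1 - wO) = wO`. `c (xO z) = xO (conj z)`,
`c (yO z) = yO (s conj z)` for torsion points (`BF.cj`, `BF.io_x`). `conj (toC v / N) = toC (cjO v) / N`. So
`c τ c⁻¹ (xO (toC v / N)) = c τ (xO (toC (cjO v) / N)) = c (xO (toC (a cjO v) / N)) = xO (toC (cjO a * v) / N)` (`cjO_mul`, `cjO_cjO`); for `yO`: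
`c⁻¹ (yO (toC v / N)) = c (yO ..) = yO (s conj ..)`, `= yO (toC (s cjO v) / N)`, `τ` gives `yO (toC (a s cjO v) / N)`, `c` gives `yO (toC (s s cjO a v) / N)`, `s s = 1`.
(2) every `g ∈ Gal(Om/ℚ)` is in `GK` or `c g ∈ GK`: `g wO` is a root of `X ^ 2 - X + 2`, so `wO` or `1 - wO`. (3) Let `H` be stable under `cjO`, `x ∈ FixH N H`;
`c x ∈ FixH N H`: for `τ ∈ GK`, `Psi τ N a`, `H a`: `c⁻¹ τ c = c τ c⁻¹` has `Psi .. (cjO a)`, `H (cjO a)`, so `c⁻¹ τ c x = x`. With (2) and `S_Ab8` (1):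
`g x ∈ FixH N H` for all `g` (`g = c⁻¹ (c g)`). -/
def S_Cj9 : Prop :=
  S_Ab8 → BF → Ex → Uq → ∀ c : Gal(Om/ℚ), (∀ x : Om, io (c x) = (starRingEnd ℂ) (io x)) →
    (∀ τ ∈ GK, c * τ * c⁻¹ ∈ GK ∧ ∀ (N : ℕ) (a : OO), 0 < N → Psi τ N a →
      Psi (c * τ * c⁻¹) N (cjO a)) ∧
    (∀ g : Gal(Om/ℚ), g ∈ GK ∨ c * g ∈ GK) ∧
    ∀ (N : ℕ) (H : OO → Prop), 0 < N → H (-1) → (∀ v, H v → Cop v N) →
      (∀ v u, H v → H (v + N * u)) → (∀ v u, H v → H u → H (v * u)) → (∀ v, H v → H (cjO v)) →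
      ∀ g : Gal(Om/ℚ), ∀ x ∈ FixH N H, g x ∈ FixH N H

/-- **Inr9** (80 lines). Inertia above `2` is in `GK`, and unramifiedness. Uses `S_Ine` (library FW), `S_E8` for `H = Hf f`.
PROOF. (1) `P` contains `2`. For `τ` in the inertia group `τ wO - wO ∈ P`; `τ wO` is `wO` or `1 - wO`; in the second case `1 - 2 wO ∈ P`, so `1 ∈ P`
(`2 ∈ P`). So `τ ∈ GK`. `S_E4`: `Psi τ f 1` or `Psi τ f (-1)` (`f` odd, `2 ∈ P`: `f ∉ P`); `Hf f 1`, `Hf f (-1)` (`S_UHN`), so `τ x = x` for `x ∈ Lf f` (definition of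
`FixH`). (2) Let `τ ∈ GK` with `MP P (τ x - x)` for `x ∈ Lf f ∩ V_P`. `Lf f` is finite over `ℚ`, contains `KQ` (`S_E8`; the hypotheses on `Hf f` are in `S_UHN`) and is stable under `τ`
(`hst`). For `y : ZZ` with `(y : Om) ∈ Lf f`: `τ • y - y ∈ P` (`MP.coe_iff`). `S_Ine` (`L = KQ`, `L' = Lf f`): `σ ∈ P.inertia ∩ GK` with `σ x = τ x` on `Lf f`; by (1)
`σ x = x`. -/
def S_Inr9 : Prop :=
  S_Ine → S_UHN → S_E4 → S_E8 → ∀ f : ℕ, Odd f → 7 ∣ f →
    (∀ τ ∈ GK, ∀ x ∈ Lf f, τ x ∈ Lf f) →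
    (∀ P : Ideal ZZ, Npr P → MP P 2 → ∀ τ ∈ P.inertia Gal(Om/ℚ), ∀ x ∈ Lf f, τ x = x) ∧
    (∀ P : Ideal ZZ, Npr P → MP P 2 → ∀ τ ∈ GK, (∀ x ∈ Lf f, VP P x → MP P (τ x - x)) →
      ∀ x ∈ Lf f, τ x = x)

/-- **Nor9** (60 lines). Uses `S_A1`, `S_UHN`, `S_Ab8`, `S_Cj9`, `S_Inr9` (its conclusion `h`). **`S_E9`.**
PROOF. Put together: `Hf f` and `HN f N` satisfy the hypotheses of `S_Cj9` (modulus `f` resp. `f * 2 ^ N`) by `S_UHN`. -/
def S_Nor9 : Prop :=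
  S_A1 → S_UHN → S_Ab8 → S_Cj9 → BF → Ex → Uq →
  (∀ f : ℕ, Odd f → 7 ∣ f → (∀ τ ∈ GK, ∀ x ∈ Lf f, τ x ∈ Lf f) →
    (∀ P : Ideal ZZ, Npr P → MP P 2 → ∀ τ ∈ P.inertia Gal(Om/ℚ), ∀ x ∈ Lf f, τ x = x) ∧
    (∀ P : Ideal ZZ, Npr P → MP P 2 → ∀ τ ∈ GK, (∀ x ∈ Lf f, VP P x → MP P (τ x - x)) →
      ∀ x ∈ Lf f, τ x = x)) → S_E9

/-! ## 6. `Theta` -/

/-- **ThG** (150 lines). **Galois action on `Theta`** (first half of `S_E15`). Uses `S_UEx`.
PROOF. `μ ≠ 0`: `IsCoprime 0 2` would make `2` a unit (`Nm 2 = 4`). `m = (Nm μ).toNat > 0`, `m = μ cjO μ`. `Psi τ (M m) a` implies `Psi τ M a`, `Psi τ m a` (`psi_level`).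
`τ (zO (toC v / M)) = zO (toC (a v) / M)` (`GK_toO` for `s7`). For `u ∈ S`: `toC μ * u` is in the lattice, `u = toC v_u / m` (`eq_div_of_Lat`), so
`τ (zO u) = zO (toC a * u)`. `toC μ * (toC a * u)` is in the lattice, `¬ Lat (toC a * u)` (`cop_inv`: `b a ≡ 1` modulo `m`, `toC (b a) u - u` is in the lattice), so there
is a unique `u' ∈ S` with `Lat (toC a * u - u')` or `Lat (toC a * u + u')` (`IsHalf.ex`), and `zO (toC a * u) = zO u'` (`BF.x_eq`, `BF.x_neg`). The map `φ : u ↦ u'` from `S` to `S` is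
injective: if `φ u = φ u₁` then `Lat (toC a * (u ± u₁))`, so `Lat (u ± u₁)` (multiply by `toC b`), `u = u₁` (`IsHalf.uni`); hence bijective (`Finset`).
So `τ (∏ u ∈ S, (zO z - zO u)⁻¹) = ∏ u ∈ S, (zO (a z) - zO (φ u))⁻¹ = ∏ u' ∈ S, (zO (a z) - zO u')⁻¹` (`Finset.prod_bij`), and `τ (toO μ) = toO μ`. -/
def S_ThG : Prop :=
  BF → ∀ (μ : OO) (S : Finset ℂ), IsCoprime μ 2 → IsHalf μ S →
    ∀ τ ∈ GK, ∀ (M : ℕ) (a v : OO), 0 < M → Psi τ (M * (Nm μ).toNat) a →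
      τ (Theta μ S (toC v / M)) = Theta μ S (toC (a * v) / M)

/-- **ThC** (150 lines). **The constant of the distribution is in `K`** (second half of `S_E15`). Uses `S_ThG`, `S_D8`, `S_UEx`, `S_UNm`.
PROOF. `c` is fixed by every `τ ∈ GK`, hence in `KQ` (`KQ` is the fixed field of `GK`: `InfiniteGalois.fixedField_fixingSubgroup`). Let `τ ∈ GK`. Let `R` be a system of
`α⁻¹ O / O` (`S_UEx`), `p` a prime number `> Nm (α μ)`, `z = 1 / p`, `m = Nm α Nm μ` (as a natural number), `M = p m`, and `Psi τ (M (Nm μ).toNat) a` (`Ex`). `¬ Lat (toC (α μ) z)`: else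
`p ∣ α μ`, `p ² ∣ Nm (α μ)`, impossible. `z` and all `z + v`, `v ∈ R`, are of the form `toC x / M` (`toC α * v` is in the lattice, `eq_div_of_Lat`), also
`toC α * z`. Apply `τ` to `∏ v ∈ R, Theta (z + v) = c Theta (toC α * z)`: by `S_ThG` `∏ v ∈ R, Theta (toC a * z + toC a * v) = τ c * Theta (toC α * (toC a * z))`. The set
`R' = image (toC a * ·) R` is again a system (`a` is prime to `Nm α`; `toC a` is injective; `ex`: for `toC α * y` in the lattice take `b` with `a b ≡ 1` modulo `Nm α` and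
`v ∈ R` with `Lat (toC b * y - v)`, then `Lat (y - toC a * v)`). `¬ Lat (toC (α μ) (toC a * z))` (`a` is prime to `p`). So the product is
`c * Theta (toC α * (toC a * z))`, and `Theta (toC α * (toC a * z)) ≠ 0` by `S_D8` (`¬ Lat (toC μ * ..)`). Hence `τ c = c`. -/
def S_ThC : Prop :=
  S_ThG → S_D8 → S_UEx → S_UNm → BF → Ex → ∀ (μ : OO) (S : Finset ℂ), IsCoprime μ 2 → IsHalf μ S →
    ∀ (α : OO) (c : Om), α ≠ 0 → IsCoprime α μ →
      (∀ (R : Finset ℂ), IsSys α R → ∀ z : ℂ, Tor z → ¬ Lat (toC (α * μ) * z) →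
        ∏ v ∈ R, Theta μ S (z + v) = c * Theta μ S (toC α * z)) → c ∈ KQ

end Pool.Agent.DI.E
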