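import Pool.Agent.Lib.DI.E.SpecE

/-!
# ThG: the Galois action on `Theta`
-/

set_option autoImplicit false

open scoped Pointwise

noncomputable section

namespace Pool.Agent.DI.E

open Pool.Agent.MuZ Pool.Agent.FW

private theorem ThG_ne {μ : OO} (h : IsCoprime μ 2) : μ ≠ 0 := by
  rintro rfl
  obtain ⟨a, b, hab⟩ := h
  rw [mul_zero, zero_add] at hab
  have h1 := congrArg Nm hab
  have h2 : Nm (2 : OO) = 4 := by
    have := Nm_nat 2
    norm_num at this
    exact this
  rw [Nm_mul, Nm_one, h2] at h1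
  omega

private theorem ThG_zeq (B : BF) {z z' : ℂ} (h : Lat (z - z')) : zO z = zO z' := by
  unfold zO
  rw [(B.x_eq h).1]

private theorem ThG_zneg (B : BF) (z : ℂ) : zO (-z) = zO z := by
  unfold zO
  rw [B.x_neg]

private theorem ThG_act {τ : Gal(Om/ℚ)} (hτ : τ ∈ GK) {N : ℕ} {a : OO} (h : Psi τ N a) (v : OO) :
    τ (zO (toC v / N)) = zO (toC (a * v) / N) := by
  unfold zO
  rw [map_div₀, map_sub, (h.2 v).1, GK_toO hτ, map_div₀, map_one, map_ofNat]

/-- The Galois action on `Theta`. -/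
theorem eThG : S_ThG := by
  intro B μ S hμ hS τ hτ M a v hM hP
  have hμ0 : μ ≠ 0 := ThG_ne hμ
  have hpos : 0 < Nm μ := Nm_pos hμ0
  obtain ⟨m, hm⟩ : ∃ m : ℕ, m = (Nm μ).toNat := ⟨_, rfl⟩
  rw [← hm] at hP
  have hmZ : (m : ℤ) = Nm μ := by rw [hm]; exact Int.toNat_of_nonneg hpos.le
  have hm0 : 0 < m := by omega
  have hmO : (m : OO) = μ * cjO μ := by
    rw [mul_cjO, ← hmZ, Int.cast_natCast]
  have hPM : Psi τ M a := psi_level (Nat.mul_pos hM hm0) (Dvd.intro _ rfl) hP
  have hPm : Psi τ m a := psi_level (Nat.mul_pos hM hm0) (Dvd.intro_left _ rfl) hP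
  obtain ⟨b, -, c, hc⟩ := cop_inv hPm.1
  have hcan : ∀ x : ℂ, Lat (toC μ * x) → Lat (toC a * x) → Lat x := by
    intro x h1 h2
    have h3 : x = toC b * (toC a * x) - toC (c * cjO μ) * (toC μ * x) := by
      have h4 : toC a * toC b - 1 = toC m * toC c := by
        rw [← map_mul, ← map_one toC, ← map_sub, hc, map_mul]
      have h5 : toC m = toC μ * toC (cjO μ) := by rw [hmO, map_mul]
      rw [map_mul]
      rw [h5] at h4
      linear_combination (-x) * h4
    rw [h3]
    exact lat_sub (lat_mul b h2) (lat_mul _ h1)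
  have hu : ∀ u ∈ S, τ (zO u) = zO (toC a * u) := by
    intro u hu
    obtain ⟨w, hw⟩ := eq_div_of_Lat hμ0 (hS.mem u hu).1
    rw [← hm] at hw
    have h1 : toC a * u = toC (a * w) / m := by rw [hw, map_mul, mul_div_assoc]
    rw [h1, ← ThG_act hτ hPm w, hw]
  have hex : ∀ u : ℂ, ∃ u' : ℂ, u ∈ S → u' ∈ S ∧ (Lat (toC a * u - u') ∨ Lat (toC a * u + u')) := by
    intro u
    by_cases h : u ∈ S
    · have h1 : Lat (toC μ * (toC a * u)) := by
        have h2 : toC μ * (toC a * u) = toC a * (toC μ * u) := by ring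
        rw [h2]
        exact lat_mul a (hS.mem u h).1
      have h2 : ¬ Lat (toC a * u) := fun h3 => (hS.mem u h).2 (hcan u (hS.mem u h).1 h3)
      obtain ⟨u', h3, h4⟩ := hS.ex _ h1 h2
      exact ⟨u', fun _ => ⟨h3, h4⟩⟩
    · exact ⟨0, fun h1 => absurd h1 h⟩
  choose φ hφ using hex
  have hmaps : Set.MapsTo φ (S : Set ℂ) (S : Set ℂ) := fun u hu => (hφ u hu).1
  have hinj : Set.InjOn φ (S : Set ℂ) := by
    intro u hu u1 hu1 heq
    have h1 := (hφ u hu).2
    have h2 := (hφ u1 hu1).2
    rw [← heq] at h2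
    have hμu := (hS.mem u hu).1
    have hμu1 := (hS.mem u1 hu1).1
    refine hS.uni u hu u1 hu1 ?_
    have hsub : Lat (toC a * (u - u1)) → Lat (u - u1) := by
      intro h
      refine hcan _ ?_ h
      rw [mul_sub]
      exact lat_sub hμu hμu1
    have hadd : Lat (toC a * (u + u1)) → Lat (u + u1) := by
      intro h
      refine hcan _ ?_ h
      rw [mul_add]
      exact lat_add hμu hμu1
    rcases h1 with h1 | h1 <;> rcases h2 with h2 | h2
    · left
      apply hsub
      have h3 := lat_sub h1 h2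
      have h4 : toC a * u - φ u - (toC a * u1 - φ u) = toC a * (u - u1) := by ring
      rwa [h4] at h3
    · right
      apply hadd
      have h3 := lat_add h1 h2
      have h4 : toC a * u - φ u + (toC a * u1 + φ u) = toC a * (u + u1) := by ring
      rwa [h4] at h3
    · right
      apply hadd
      have h3 := lat_add h1 h2
      have h4 : toC a * u + φ u + (toC a * u1 - φ u) = toC a * (u + u1) := by ring
      rwa [h4] at h3
    · left
      apply hsub
      have h3 := lat_sub h1 h2
      have h4 : toC a * u + φ u - (toC a * u1 + φ u) = toC a * (u - u1) := by ring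
      rwa [h4] at h3
  have hsurj : Set.SurjOn φ (S : Set ℂ) (S : Set ℂ) :=
    Finset.surjOn_of_injOn_of_card_le φ hmaps hinj le_rfl
  unfold Theta
  rw [map_mul, map_inv₀, GK_toO hτ, map_prod]
  congr 1
  refine Finset.prod_nbij φ (fun u hu => (hφ u hu).1) hinj hsurj ?_
  intro u hu'
  rw [map_inv₀, map_sub, ThG_act hτ hPM v, hu u hu']
  congr 2
  rcases (hφ u hu').2 with h1 | h1
  · exact ThG_zeq B h1
  · rw [← ThG_zneg B (φ u)]
    apply ThG_zeq B
    rw [sub_neg_eq_add]
    exact h1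

end Pool.Agent.DI.E
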